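import Pool.Agent.Lib.H78P.SkF1

set_option autoImplicit false

/-! Chunk F2. Induction on j with step_err (exponent A+2) and sm_append; errors telescope: 1/L_j - 1/L_(j+1) >= 1/(2 L_j^2).
With k = p = L/N, q = (L+L/N)/N: 40 (k+q) <= L for N >= 100. -/

open Finset
namespace H78P
open H62w

/-- telescoping inequality -/
theorem F_tele {N L : ℕ} (hN : 1 ≤ N) (hL : N ≤ L) :
    1 / (L : ℝ) ^ 2 ≤ 2 * (1 / (L : ℝ) - 1 / ((L + L / N : ℕ) : ℝ)) := by
  have hLp : (0 : ℝ) < L := by exact_mod_cast (by omega : 0 < L)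
  have h1 : 1 ≤ L / N := (Nat.one_le_div_iff (by omega)).mpr hL
  have h2 : L / N ≤ L := Nat.div_le_self _ _
  set k := L / N with hk
  have h1r : (1 : ℝ) ≤ k := by exact_mod_cast h1
  have h2r : (k : ℝ) ≤ L := by exact_mod_cast h2
  push_cast
  have h3 : 1 / (L : ℝ) - 1 / ((L : ℝ) + k) = k / (L * (L + k)) := by
    field_simp
    ring
  rw [h3, mul_div_assoc', div_le_div_iff₀ (by positivity) (by positivity)]
  nlinarith [mul_pos hLp hLp]

/-- Many steps. `K` depends only on `N` and `A`. -/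
theorem multi {N : ℕ} (hN : 100 ≤ N) (A : ℕ) : ∃ K : ℝ, 0 < K ∧ ∀ (M L0 B V y : ℕ) (Q : ℕ → Finset (List ℕ)), N ≤ L0 →
    (∀ j, Ls N L0 j ≤ M → ∀ l ∈ Q j,
      l ∈ words M (Ls N L0 j) ∧ cc l ≤ B * 2 ^ l.sum ∧ 33 * Ls N L0 j ≤ 20 * l.sum ∧ l.sum ≤ V * Ls N L0 j) →
    (∀ j, ∀ l ∈ Q j, ∀ l' ∈ TW N M (Ls N L0 j / N), l ++ l' ∈ Q (j + 1)) →
    ∀ j, Ls N L0 j ≤ M →
      sm (Q 0) (FF M (L0 / N)) y - K * (V + 1) * (B + 2) / L0 ^ A ≤ sm (Q j) (FF M (Ls N L0 j / N)) y := by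
  obtain ⟨K1, hK1, hstep⟩ := step_err hN (A + 2)
  refine ⟨2 * K1, by positivity, fun M L0 B V y Q hL0 hQ hQ' => ?_⟩
  have hL0p : (0 : ℝ) < L0 := by exact_mod_cast (by omega : 0 < L0)
  have hL01 : (1 : ℝ) ≤ L0 := by exact_mod_cast (by omega : 1 ≤ L0)
  set c : ℝ := K1 * (V + 1) * (B + 2) with hc
  have hcp : 0 ≤ c := by positivity
  have key : ∀ j, Ls N L0 j ≤ M →
      sm (Q 0) (FF M (L0 / N)) y - c * (2 / (L0 : ℝ) ^ A) * (1 / (L0 : ℝ) - 1 / (Ls N L0 j : ℝ))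
        ≤ sm (Q j) (FF M (Ls N L0 j / N)) y := by
    intro j
    induction j with
    | zero =>
      intro _
      have h0 : Ls N L0 0 = L0 := rfl
      rw [h0]
      simp
    | succ j ih =>
      intro hj
      have hsucc : Ls N L0 (j + 1) = Ls N L0 j + Ls N L0 j / N := rfl
      have hge := Ls_ge N L0 j
      have hjM : Ls N L0 j ≤ M := (Ls_mono N L0 (Nat.le_succ j)).trans hj
      have h1 := ih hjM
      set L := Ls N L0 j with hL
      have hNL : N ≤ L := by omega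
      have hLp : (0 : ℝ) < L := by exact_mod_cast (by omega : 0 < L)
      have hdiv1 : L / N * 100 ≤ L :=
        (Nat.mul_le_mul_left _ hN).trans (Nat.div_mul_le_self L N)
      have hdiv2 : Ls N L0 (j + 1) / N * 100 ≤ Ls N L0 (j + 1) :=
        (Nat.mul_le_mul_left _ hN).trans (Nat.div_mul_le_self _ N)
      have h2 := hstep M L B V y (L / N) (L / N) (Ls N L0 (j + 1) / N) (Q j) hNL hjM le_rfl le_rfl (by omega)
        (by omega) (hQ j hjM)
      have h3 : sm (Q j) (sm (TW N M (L / N)) (FF M (Ls N L0 (j + 1) / N))) y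
          ≤ sm (Q (j + 1)) (FF M (Ls N L0 (j + 1) / N)) y := by
        refine sm_append (L := L) (k := L / N) (fun l hl => ?_) (fun l hl => ?_) (hQ' j)
          (fun z => FF_nonneg M _ z) y
        · exact (mem_words.mp (hQ j hjM l hl).1).1
        · rw [TW, mem_filter] at hl
          exact (mem_words.mp hl.1).1
      -- the error
      have h4 : K1 * (V + 1) * (B + 2) / (L : ℝ) ^ (A + 2)
          ≤ c * (2 / (L0 : ℝ) ^ A) * (1 / (L : ℝ) - 1 / (Ls N L0 (j + 1) : ℝ)) := by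
        have h5 := F_tele (by omega : 1 ≤ N) hNL
        rw [← hsucc] at h5
        have h6 : (L0 : ℝ) ^ A ≤ (L : ℝ) ^ A := pow_le_pow_left₀ hL0p.le (by exact_mod_cast hge) A
        have h7 : K1 * (V + 1) * (B + 2) / (L : ℝ) ^ (A + 2) ≤ c * (1 / (L0 : ℝ) ^ A) * (1 / (L : ℝ) ^ 2) := by
          rw [← hc, pow_add]
          have h8 : c / ((L : ℝ) ^ A * (L : ℝ) ^ 2) ≤ c / ((L0 : ℝ) ^ A * (L : ℝ) ^ 2) := by
            apply div_le_div_of_nonneg_left hcp (by positivity)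
            exact mul_le_mul_of_nonneg_right h6 (by positivity)
          refine h8.trans (le_of_eq ?_)
          field_simp
        refine h7.trans ?_
        calc c * (1 / (L0 : ℝ) ^ A) * (1 / (L : ℝ) ^ 2)
            ≤ c * (1 / (L0 : ℝ) ^ A) * (2 * (1 / (L : ℝ) - 1 / (Ls N L0 (j + 1) : ℝ))) :=
              mul_le_mul_of_nonneg_left h5 (by positivity)
          _ = _ := by ring
      have h9 : c * (2 / (L0 : ℝ) ^ A) * (1 / (L0 : ℝ) - 1 / (Ls N L0 (j + 1) : ℝ))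
          = c * (2 / (L0 : ℝ) ^ A) * (1 / (L0 : ℝ) - 1 / (L : ℝ))
            + c * (2 / (L0 : ℝ) ^ A) * (1 / (L : ℝ) - 1 / (Ls N L0 (j + 1) : ℝ)) := by ring
      rw [h9]
      linarith
  intro j hj
  refine le_trans ?_ (key j hj)
  have h1 : c * (2 / (L0 : ℝ) ^ A) * (1 / (L0 : ℝ) - 1 / (Ls N L0 j : ℝ)) ≤ c * (2 / (L0 : ℝ) ^ A) * 1 := by
    apply mul_le_mul_of_nonneg_left _ (by positivity)
    have h2 : 1 / (L0 : ℝ) ≤ 1 := by rw [div_le_one hL0p]; exact hL01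
    have h3 : (0 : ℝ) ≤ 1 / (Ls N L0 j : ℝ) := by positivity
    linarith
  have h2 : c * (2 / (L0 : ℝ) ^ A) * 1 = 2 * K1 * (V + 1) * (B + 2) / (L0 : ℝ) ^ A := by rw [hc]; ring
  linarith

end H78P
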