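import Pool.Agent.Lib.H78P.Defs
import Pool.Agent.Lib.H62w.Paths
import Pool.Agent.Lib.H62w.Mu

set_option autoImplicit false

/-! Chunk A1: elementary facts. -/

open Finset
namespace H78P
open H62w

theorem ww_pos (l : List ℕ) : 0 < ww l := by
  unfold ww; positivity

theorem ww_append (l l' : List ℕ) : ww (l ++ l') = ww l * ww l' := by
  unfold ww
  rw [List.length_append, List.sum_append, pow_add, pow_add]
  field_simp

theorem A1_pw_cons (M a : ℕ) (l : List ℕ) : pw M (a :: l) = pa M a * pw M l := by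
  unfold pw; simp

theorem pw_of_words {M k : ℕ} {l : List ℕ} (hl : l ∈ words M k) : pw (M + 1) l = 1 / 2 ^ l.sum := by
  have h := (mem_words.1 hl).2
  clear hl
  induction l with
  | nil => simp [pw]
  | cons a l ih =>
    rw [A1_pw_cons, ih (fun b hb => h b (List.mem_cons_of_mem _ hb)), List.sum_cons]
    have ha := h a List.mem_cons_self
    unfold pa
    rw [if_pos (by omega), pow_add, one_div_pow]
    field_simp

theorem ww_of_words {M k : ℕ} {l : List ℕ} (hl : l ∈ words M k) : ww l = 3 ^ k * pw (M + 1) l := by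
  rw [pw_of_words hl]
  unfold ww
  rw [(mem_words.1 hl).1]
  ring

theorem words_mono {M M' : ℕ} (h : M ≤ M') (k : ℕ) : words M k ⊆ words M' k := by
  intro l hl
  rw [mem_words] at hl ⊢
  exact ⟨hl.1, fun a ha => ⟨(hl.2 a ha).1, (hl.2 a ha).2.trans h⟩⟩

theorem sm_nonneg {G : Finset (List ℕ)} {h : ℕ → ℝ} (hh : ∀ z, 0 ≤ h z) (y : ℕ) : 0 ≤ sm G h y :=
  sum_nonneg fun l _ => mul_nonneg (ww_pos l).le (hh _)

theorem sm_mono {G G' : Finset (List ℕ)} {h h' : ℕ → ℝ} (hG : G ⊆ G') (hh : ∀ z, 0 ≤ h z)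
    (hle : ∀ z, h z ≤ h' z) (y : ℕ) : sm G h y ≤ sm G' h' y := by
  unfold sm
  refine (sum_le_sum fun l _ => mul_le_mul_of_nonneg_left (hle _) (ww_pos l).le).trans ?_
  refine sum_le_sum_of_subset_of_nonneg (filter_subset_filter _ hG) fun l _ _ => ?_
  exact mul_nonneg (ww_pos l).le ((hh _).trans (hle _))

/-- Concatenation. -/
theorem sm_append {G T G' : Finset (List ℕ)} {L k : ℕ} (hG : ∀ l ∈ G, l.length = L)
    (hT : ∀ l ∈ T, l.length = k) (hG' : ∀ l ∈ G, ∀ l' ∈ T, l ++ l' ∈ G') {h : ℕ → ℝ}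
    (hh : ∀ z, 0 ≤ h z) (y : ℕ) : sm G (sm T h) y ≤ sm G' h y := by
  classical
  unfold sm
  have h1 : ∑ l ∈ G.filter (fun l => va l y), ww l * ∑ l' ∈ T.filter (fun l' => va l' (en l y)), ww l' * h (en l' (en l y)) =
      ∑ x ∈ (G.filter (fun l => va l y)).sigma (fun l => T.filter (fun l' => va l' (en l y))),
        ww (x.1 ++ x.2) * h (en (x.1 ++ x.2) y) := by
    rw [Finset.sum_sigma]
    refine Finset.sum_congr rfl fun l _ => ?_
    rw [Finset.mul_sum]
    refine Finset.sum_congr rfl fun l' _ => ?_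
    rw [ww_append, en_append]
    ring
  rw [h1]
  have hinj : Set.InjOn (fun x : (_ : List ℕ) × List ℕ => x.1 ++ x.2)
      ((G.filter (fun l => va l y)).sigma (fun l => T.filter (fun l' => va l' (en l y)))) := by
    rintro ⟨a, b⟩ hx ⟨a', b'⟩ hx' he
    simp only [coe_sigma, Set.mem_sigma_iff, mem_coe, mem_filter] at hx hx'
    simp only at he
    have hl : a.length = a'.length := by rw [hG _ hx.1.1, hG _ hx'.1.1]
    obtain ⟨h1, h2⟩ := List.append_inj he hl
    subst h1; subst h2; rfl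
  have h2 := Finset.sum_image (f := fun l => ww l * h (en l y)) hinj
  rw [← h2]
  refine sum_le_sum_of_subset_of_nonneg ?_ fun l _ _ => mul_nonneg (ww_pos l).le (hh _)
  intro l hl
  rw [mem_image] at hl
  obtain ⟨x, hx, rfl⟩ := hl
  rw [mem_sigma, mem_filter, mem_filter] at hx
  rw [mem_filter, va_append]
  exact ⟨hG' _ hx.1.1 _ hx.2.1, hx.1.2, hx.2.2⟩

theorem FF_eq (M k y : ℕ) :
    FF M k y = ∑ l ∈ (words (M + 1) k).filter (fun l => va l y), 3 ^ k * pw (M + 1) l := by
  unfold FF mu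
  rw [Finset.mul_sum]
  refine sum_congr ?_ fun l _ => rfl
  ext l
  rw [mem_filter, mem_filter]
  refine and_congr_right fun hl => ?_
  rw [va_iff, (mem_words.1 hl).1]

theorem FF_nonneg (M k y : ℕ) : 0 ≤ FF M k y := by
  rw [FF_eq]
  exact sum_nonneg fun l _ => mul_nonneg (by positivity) (L_pw_nonneg _ _)

theorem FF_zero (M y : ℕ) : FF M 0 y = 1 := by
  rw [FF_eq]
  simp [words, va, pw, filter_singleton]

theorem pr_words {M : ℕ} (k : ℕ) : pr M (words (M + 1) k) = 1 := pw_sum (by omega) k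

theorem FF_le (M k y : ℕ) : FF M k y ≤ 3 ^ k := by
  rw [FF_eq, ← Finset.mul_sum]
  have h : ∑ l ∈ (words (M + 1) k).filter (fun l => va l y), pw (M + 1) l ≤ 1 := by
    rw [← pr_words (M := M) k]
    exact sum_le_sum_of_subset_of_nonneg (filter_subset _ _) fun l _ _ => L_pw_nonneg _ _
  calc (3 : ℝ) ^ k * ∑ l ∈ (words (M + 1) k).filter (fun l => va l y), pw (M + 1) l ≤ 3 ^ k * 1 :=
        mul_le_mul_of_nonneg_left h (by positivity)
    _ = 3 ^ k := mul_one _

/-- Nodes divisible by `3` have no continuation. -/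
theorem FF_dvd (M k y : ℕ) (hk : 1 ≤ k) (hy : y % 3 = 0) : FF M k y = 0 := by
  rw [FF_eq]
  have h : (words (M + 1) k).filter (fun l => va l y) = ∅ := by
    rw [filter_eq_empty_iff]
    intro l hl hv
    have h1 := (mem_words.1 hl).1
    cases l with
    | nil => simp at h1; omega
    | cons a l =>
      have h2 := hv.1
      rw [Nat.mul_mod, hy] at h2
      simp at h2
  rw [h, sum_empty]

/-- Splitting off the first `k` letters. -/
theorem FF_conv (M k q y : ℕ) :
    FF M (k + q) y =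
      ∑ l ∈ (words (M + 1) k).filter (fun l => va l y), 3 ^ k * pw (M + 1) l * FF M q (en l y) := by
  rw [FF_eq, sum_filter, L_sum_words_add, sum_filter]
  refine sum_congr rfl fun l _ => ?_
  by_cases hv : va l y
  · rw [if_pos hv, FF_eq, sum_filter, Finset.mul_sum]
    refine sum_congr rfl fun l' _ => ?_
    by_cases hv' : va l' (en l y)
    · rw [if_pos ((va_append l l' y).2 ⟨hv, hv'⟩), if_pos hv', L_pw_append, pow_add]; ring
    · rw [if_neg (fun h => hv' ((va_append l l' y).1 h).2), if_neg hv', mul_zero]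
  · rw [if_neg hv]
    refine sum_eq_zero fun l' _ => ?_
    rw [if_neg (fun h => hv ((va_append l l' y).1 h).1)]

theorem Ls_mono (N L0 : ℕ) : Monotone (Ls N L0) :=
  monotone_nat_of_le_succ fun j => by rw [Ls]; exact Nat.le_add_right _ _

theorem Ls_ge (N L0 j : ℕ) : L0 ≤ Ls N L0 j := Ls_mono N L0 (Nat.zero_le j)

end H78P
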