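import Pool.Agent.Lib.H78P.SkA1
import Pool.Agent.Lib.H62w.Paths
import Pool.Agent.Lib.H62w.Mu

set_option autoImplicit false

/-! Chunk A2. Periodicity and means over residues. -/

open Finset
namespace H78P
open H62w

theorem A2_per_of {q : ℕ} {h : ℕ → ℝ} (hh : ∀ z t, h (z + 3 ^ q * t) = h z) : Per q h := by
  intro z
  conv_lhs => rw [← Nat.mod_add_div z (3 ^ q)]
  exact hh _ _

theorem A2_per_add {q : ℕ} {h : ℕ → ℝ} (hh : Per q h) (z t : ℕ) : h (z + 3 ^ q * t) = h z := by
  rw [hh (z + 3 ^ q * t), Nat.add_mul_mod_self_left, ← hh z]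

theorem A2_va_add (l : List ℕ) (y u : ℕ) : va l (y + 3 ^ l.length * u) ↔ va l y := by
  rw [va_iff, va_iff]
  have h1 : y + 3 ^ l.length * u ≡ y [MOD 3 ^ l.length] := by
    unfold Nat.ModEq
    rw [Nat.add_mul_mod_self_left]
  have h2 := h1.mul_left (2 ^ l.sum)
  exact ⟨fun h => h2.symm.trans h, fun h => h2.trans h⟩

theorem A2_en_add (l : List ℕ) (y u : ℕ) (h : va l y) :
    en l (y + 3 ^ l.length * u) = en l y + 2 ^ l.sum * u := by
  have h1 := en_eq l y h
  have h3 : va l (y + 3 ^ l.length * u) := (A2_va_add l y u).2 h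
  have h4 := en_eq l _ h3
  have h2 : 2 ^ l.sum * (y + 3 ^ l.length * u) =
      3 ^ l.length * (en l y + 2 ^ l.sum * u) + cc l := by
    rw [mul_add, h1]
    ring
  rw [h2] at h4
  have h5 := Nat.add_right_cancel h4
  exact (Nat.eq_of_mul_eq_mul_left (pow_pos (by norm_num) _) h5).symm

theorem FF_per (M k : ℕ) : Per k (FF M k) := by
  refine A2_per_of fun z t => ?_
  unfold FF mu
  congr 2
  refine filter_congr fun l _ => ?_
  have h1 : z + 3 ^ k * t ≡ z [MOD 3 ^ k] := by
    unfold Nat.ModEq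
    rw [Nat.add_mul_mod_self_left]
  have h2 := h1.mul_left (2 ^ l.sum)
  exact ⟨fun h => h2.symm.trans h, fun h => h2.trans h⟩

theorem Per_mono {q q' : ℕ} (h : q ≤ q') {f : ℕ → ℝ} (hf : Per q f) : Per q' f := by
  intro z
  rw [hf z, hf (z % 3 ^ q'), Nat.mod_mod_of_dvd _ (pow_dvd_pow 3 h)]

theorem mn_mono {q : ℕ} {f g : ℕ → ℝ} (h : ∀ z, f z ≤ g z) : mn q f ≤ mn q g := by
  unfold mn
  gcongr with z
  exact h z

/-- Splitting the residues mod `3^(k+q)` by the residue mod `3^k`. -/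
theorem A2_sum_split (k q : ℕ) (f : ℕ → ℝ) :
    ∑ b ∈ range (3 ^ (k + q)), f b = ∑ r ∈ range (3 ^ k), ∑ u ∈ range (3 ^ q), f (r + 3 ^ k * u) := by
  have hpos : 0 < 3 ^ k := pow_pos (by norm_num) _
  rw [← sum_product']
  refine sum_nbij' (fun b => (b % 3 ^ k, b / 3 ^ k)) (fun p => p.1 + 3 ^ k * p.2) ?_ ?_ ?_ ?_ ?_
  · intro b hb
    rw [mem_range] at hb
    rw [mem_product, mem_range, mem_range]
    refine ⟨Nat.mod_lt _ hpos, ?_⟩
    rw [Nat.div_lt_iff_lt_mul hpos, ← pow_add, add_comm q k]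
    exact hb
  · rintro ⟨r, u⟩ h
    rw [mem_product, mem_range, mem_range] at h
    rw [mem_range, pow_add]
    have h1 := h.1
    have h2 := h.2
    simp only at h1 h2 ⊢
    calc r + 3 ^ k * u < 3 ^ k + 3 ^ k * u := by omega
      _ = 3 ^ k * (u + 1) := by ring
      _ ≤ 3 ^ k * 3 ^ q := Nat.mul_le_mul_left _ h2
  · intro b _
    exact Nat.mod_add_div b (3 ^ k)
  · rintro ⟨r, u⟩ h
    rw [mem_product, mem_range, mem_range] at h
    have h1 := h.1
    simp only at h1 ⊢
    rw [Nat.add_mul_mod_self_left, Nat.mod_eq_of_lt h1, Nat.add_mul_div_left _ _ hpos,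
      Nat.div_eq_of_lt h1, zero_add]
  · intro b _
    simp only
    rw [Nat.mod_add_div]

/-- The mean does not depend on the level. -/
theorem mn_level {q q' : ℕ} (h : q ≤ q') {f : ℕ → ℝ} (hf : Per q f) : mn q' f = mn q f := by
  obtain ⟨d, rfl⟩ := Nat.exists_eq_add_of_le h
  unfold mn
  rw [A2_sum_split q d f]
  have h1 : ∀ r ∈ range (3 ^ q), ∑ u ∈ range (3 ^ d), f (r + 3 ^ q * u) = 3 ^ d * f r := by
    intro r _
    rw [sum_congr rfl fun u _ => A2_per_add hf r u, sum_const, card_range, nsmul_eq_mul]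
    push_cast
    ring
  rw [sum_congr rfl h1, ← mul_sum, pow_add]
  have h3 : (3 : ℝ) ^ d ≠ 0 := by positivity
  have h4 : (3 : ℝ) ^ q ≠ 0 := by positivity
  field_simp

set_option linter.unusedVariables false in
theorem mn_FF {M : ℕ} (hM : 1 ≤ M) (k : ℕ) : mn k (FF M k) = 1 := by
  unfold mn FF
  rw [← mul_sum, mu_sum (by omega : 1 ≤ M + 1), mul_one]
  have h4 : (3 : ℝ) ^ k ≠ 0 := by positivity
  field_simp

/-- Affine bijections of the residues mod `3^q`. -/
theorem A2_sum_affine {q : ℕ} {h : ℕ → ℝ} (hh : Per q h) (c s : ℕ) :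
    ∑ u ∈ range (3 ^ q), h (c + 2 ^ s * u) = ∑ z ∈ range (3 ^ q), h z := by
  rw [L_sum_range, L_sum_range]
  have h2 := L_two_pow_v q s
  have h2' : L_v q ^ s * (2 : ZMod (3 ^ q)) ^ s = 1 := by rw [mul_comm]; exact h2
  let e : ZMod (3 ^ q) ≃ ZMod (3 ^ q) :=
    { toFun := fun z => (c : ZMod (3 ^ q)) + 2 ^ s * z
      invFun := fun w => L_v q ^ s * (w - c)
      left_inv := fun z => by
        simp only [add_sub_cancel_left]
        rw [← mul_assoc, h2', one_mul]
      right_inv := fun w => by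
        simp only
        rw [← mul_assoc, h2, one_mul, add_sub_cancel] }
  rw [← Equiv.sum_comp e (fun z => h z.val)]
  refine sum_congr rfl fun z _ => ?_
  rw [hh (c + 2 ^ s * z.val)]
  congr 1
  have : (c + 2 ^ s * z.val) % 3 ^ q = ((c + 2 ^ s * z.val : ℕ) : ZMod (3 ^ q)).val := by
    rw [ZMod.val_natCast]
  rw [this]
  congr 1
  push_cast
  rw [ZMod.natCast_zmod_val]
  rfl

/-- For a fixed word of length `k`, the end point runs over all residues mod `3^q`. -/
theorem shift_mean {M k q : ℕ} {l : List ℕ} (hl : l ∈ words M k) {h : ℕ → ℝ} (hh : Per q h) :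
    mn (k + q) (fun b => if va l b then 3 ^ k * h (en l b) else 0) = mn q h := by
  have hlen : l.length = k := (mem_words.1 hl).1
  subst hlen
  obtain ⟨r, hr, hcls⟩ := exists_unique_class l l.length
  unfold mn
  rw [A2_sum_split]
  have hva : ∀ b u, va l (b + 3 ^ l.length * u) ↔ b % 3 ^ l.length = r := by
    intro b u
    rw [A2_va_add, va_iff, hcls]
  rw [sum_eq_single_of_mem r (mem_range.2 hr)]
  · have hvr : va l r := by
      have := hva r 0
      rw [mul_zero, add_zero] at this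
      exact this.2 (Nat.mod_eq_of_lt hr)
    have h1 : ∀ u ∈ range (3 ^ q), (if va l (r + 3 ^ l.length * u) then
        3 ^ l.length * h (en l (r + 3 ^ l.length * u)) else 0) =
        3 ^ l.length * h (en l r + 2 ^ l.sum * u) := by
      intro u _
      rw [if_pos ((A2_va_add l r u).2 hvr), A2_en_add l r u hvr]
    rw [sum_congr rfl h1, ← mul_sum, A2_sum_affine hh, pow_add]
    have h3 : (3 : ℝ) ^ l.length ≠ 0 := by positivity
    have h4 : (3 : ℝ) ^ q ≠ 0 := by positivity
    field_simp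
  · intro b hb hbr
    refine sum_eq_zero fun u _ => ?_
    rw [if_neg]
    rw [hva, Nat.mod_eq_of_lt (mem_range.1 hb)]
    exact hbr

/-- Validity and the end point mod `3^q` depend on `y` mod `3^(k+q)`. -/
theorem per_word {M k q : ℕ} {l : List ℕ} (hl : l ∈ words M k) {h : ℕ → ℝ} (hh : Per q h) :
    Per (k + q) (fun b => if va l b then h (en l b) else 0) := by
  have hlen : l.length = k := (mem_words.1 hl).1
  subst hlen
  refine A2_per_of fun z t => ?_
  have h1 : z + 3 ^ (l.length + q) * t = z + 3 ^ l.length * (3 ^ q * t) := by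
    rw [pow_add]; ring
  rw [h1]
  by_cases hv : va l z
  · rw [if_pos ((A2_va_add l z _).2 hv), if_pos hv, A2_en_add l z _ hv,
      show 2 ^ l.sum * (3 ^ q * t) = 3 ^ q * (2 ^ l.sum * t) by ring, A2_per_add hh]
  · rw [if_neg (fun h => hv ((A2_va_add l z _).1 h)), if_neg hv]

theorem A2_sm_eq (G : Finset (List ℕ)) (h : ℕ → ℝ) (y : ℕ) :
    sm G h y = ∑ l ∈ G, ww l * (if va l y then h (en l y) else 0) := by
  unfold sm
  rw [sum_filter]
  refine sum_congr rfl fun l _ => ?_
  split_ifs <;> simp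

theorem per_sm {M k q : ℕ} {G : Finset (List ℕ)} (hG : G ⊆ words M k) {h : ℕ → ℝ} (hh : Per q h) :
    Per (k + q) (sm G h) := by
  intro z
  rw [A2_sm_eq, A2_sm_eq]
  refine sum_congr rfl fun l hl => ?_
  congr 1
  exact per_word (hG hl) hh z

/-- Distinct words of length `k` are counted with their probabilities: the mean of `sm`. -/
theorem mn_sm {M k q : ℕ} {G : Finset (List ℕ)} (hG : G ⊆ words M k) {h : ℕ → ℝ} (hh : Per q h) :
    mn (k + q) (sm G h) = pr M G * mn q h := by
  unfold pr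
  rw [sum_mul]
  have h1 : ∀ l ∈ G, pw (M + 1) l * mn q h =
      pw (M + 1) l * mn (k + q) (fun b => if va l b then 3 ^ k * h (en l b) else 0) := by
    intro l hl
    rw [shift_mean (hG hl) hh]
  rw [sum_congr rfl h1]
  unfold mn
  simp only [← mul_div_assoc, mul_sum]
  rw [← sum_div, sum_comm]
  congr 1
  refine sum_congr rfl fun b _ => ?_
  rw [A2_sm_eq]
  refine sum_congr rfl fun l hl => ?_
  rw [ww_of_words (hG hl)]
  split_ifs <;> ring

end H78P
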