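import Pool.Agent.Lib.H78P.Defs
import Pool.Agent.Lib.H62w.PathsA

set_option autoImplicit false

/-! Chunk B. PROOF.md section 2. For words of fixed length and fixed sum, cc is injective (H62w.cc_inj in Paths), and en l y = z mod 3^q forces
cc l = 2^s y - 3^L z mod 3^(L+q); so at most B 2^s/3^(L+q) + 1 words, each of weight 3^L/2^s. -/

open Finset
namespace H78P
open H62w

theorem B_ww_nonneg (l : List ℕ) : 0 ≤ ww l := by
  unfold ww
  positivity

theorem dens_fiber {G : Finset (List ℕ)} {L q s B : ℕ} (hlen : ∀ l ∈ G, l.length = L)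
    (hpos : ∀ l ∈ G, ∀ a ∈ l, 1 ≤ a) (hs : ∀ l ∈ G, l.sum = s) (hcc : ∀ l ∈ G, cc l ≤ B * 2 ^ s)
    (hq : 3 ^ (L + q) ≤ 2 ^ s) (y z : ℕ) :
    ∑ l ∈ G.filter (fun l => va l y ∧ en l y % 3 ^ q = z), ww l ≤ (B + 2 : ℝ) / 3 ^ q := by
  set A := G.filter (fun l => va l y ∧ en l y % 3 ^ q = z) with hA
  have hmem : ∀ l ∈ A, l ∈ G ∧ va l y ∧ en l y % 3 ^ q = z := by
    intro l hl
    rw [hA, mem_filter] at hl
    exact ⟨hl.1, hl.2.1, hl.2.2⟩
  have hcard : A.card ≤ B * 2 ^ s / 3 ^ (L + q) + 1 := by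
    rw [← card_range (B * 2 ^ s / 3 ^ (L + q) + 1)]
    apply card_le_card_of_injOn (fun l => cc l / 3 ^ (L + q))
    · intro l hl
      rw [mem_coe] at hl
      rw [coe_range, Set.mem_Iio]
      apply Nat.lt_succ_of_le
      exact Nat.div_le_div_right (hcc l (hmem l hl).1)
    · intro l hl l' hl' he
      rw [mem_coe] at hl hl'
      obtain ⟨h1, h2, h3⟩ := hmem l hl
      obtain ⟨h1', h2', h3'⟩ := hmem l' hl'
      apply cc_inj ((hlen l h1).trans (hlen l' h1').symm) ((hs l h1).trans (hs l' h1').symm) (hpos l h1) (hpos l' h1')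
      have e1 := en_eq l y h2
      have e2 := en_eq l' y h2'
      rw [hlen l h1, hs l h1] at e1
      rw [hlen l' h1', hs l' h1'] at e2
      -- congruence of the constants
      have e3 : cc l ≡ cc l' [MOD 3 ^ (L + q)] := by
        have e4 : en l y ≡ en l' y [MOD 3 ^ q] := h3.trans h3'.symm
        have e5 : 3 ^ L * en l y ≡ 3 ^ L * en l' y [MOD 3 ^ (L + q)] := by
          rw [pow_add]
          exact Nat.ModEq.mul_left' _ e4
        have e6 : 3 ^ L * en l y + cc l ≡ 3 ^ L * en l' y + cc l' [MOD 3 ^ (L + q)] := by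
          rw [← e1, ← e2]
        exact Nat.ModEq.add_left_cancel e5 e6
      have e7 := Nat.div_add_mod (cc l) (3 ^ (L + q))
      have e8 := Nat.div_add_mod (cc l') (3 ^ (L + q))
      simp only at he
      have e9 : cc l % 3 ^ (L + q) = cc l' % 3 ^ (L + q) := e3
      rw [← e7, ← e8, he, e9]
  have hsum : ∑ l ∈ A, ww l = A.card * ((3 : ℝ) ^ L / 2 ^ s) := by
    rw [sum_congr rfl (fun l hl => by
      unfold ww
      rw [hlen l (hmem l hl).1, hs l (hmem l hl).1]), sum_const, nsmul_eq_mul]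
  rw [hsum, mul_div_assoc', div_le_div_iff₀ (by positivity) (by positivity)]
  have h1 : A.card * 3 ^ L * 3 ^ q ≤ (B + 2) * 2 ^ s := by
    calc A.card * 3 ^ L * 3 ^ q = A.card * 3 ^ (L + q) := by rw [pow_add]; ring
      _ ≤ (B * 2 ^ s / 3 ^ (L + q) + 1) * 3 ^ (L + q) := Nat.mul_le_mul_right _ hcard
      _ = B * 2 ^ s / 3 ^ (L + q) * 3 ^ (L + q) + 3 ^ (L + q) := by ring
      _ ≤ B * 2 ^ s + 2 ^ s := Nat.add_le_add (Nat.div_mul_le_self _ _) hq
      _ ≤ (B + 2) * 2 ^ s := by nlinarith [Nat.zero_le (2 ^ s)]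
  exact_mod_cast h1

/-- Fixed sum. -/
theorem dens_sum {G : Finset (List ℕ)} {L q s B : ℕ} (hlen : ∀ l ∈ G, l.length = L)
    (hpos : ∀ l ∈ G, ∀ a ∈ l, 1 ≤ a) (hs : ∀ l ∈ G, l.sum = s) (hcc : ∀ l ∈ G, cc l ≤ B * 2 ^ s)
    (hq : 3 ^ (L + q) ≤ 2 ^ s) (y : ℕ) {h : ℕ → ℝ} (hh : ∀ z, 0 ≤ h z) (hp : Per q h) :
    sm G h y ≤ (B + 2 : ℝ) * mn q h := by
  unfold sm
  rw [← sum_fiberwise_of_maps_to (s := G.filter (fun l => va l y)) (t := range (3 ^ q))
    (g := fun l => en l y % 3 ^ q) (fun l _ => mem_range.mpr (Nat.mod_lt _ (by positivity)))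
    (fun l => ww l * h (en l y))]
  unfold mn
  rw [← mul_div_assoc, mul_sum, sum_div]
  apply sum_le_sum
  intro z hz
  have h1 : ∑ l ∈ (G.filter (fun l => va l y)).filter (fun l => en l y % 3 ^ q = z), ww l * h (en l y)
      = (∑ l ∈ G.filter (fun l => va l y ∧ en l y % 3 ^ q = z), ww l) * h z := by
    rw [filter_filter, sum_mul]
    apply sum_congr rfl
    intro l hl
    rw [mem_filter] at hl
    rw [hp (en l y), hl.2.2]
  rw [h1]
  calc (∑ l ∈ G.filter (fun l => va l y ∧ en l y % 3 ^ q = z), ww l) * h z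
      ≤ ((B + 2 : ℝ) / 3 ^ q) * h z := mul_le_mul_of_nonneg_right (dens_fiber hlen hpos hs hcc hq y z) (hh z)
    _ = (B + 2 : ℝ) * h z / 3 ^ q := by ring

theorem B_mn_nonneg (q : ℕ) {h : ℕ → ℝ} (hh : ∀ z, 0 ≤ h z) : 0 ≤ mn q h := by
  unfold mn
  exact div_nonneg (sum_nonneg fun z _ => hh z) (by positivity)

/-- Sums at most `V`. -/
theorem dens {G : Finset (List ℕ)} {L q B V : ℕ} (hlen : ∀ l ∈ G, l.length = L)
    (hpos : ∀ l ∈ G, ∀ a ∈ l, 1 ≤ a) (hV : ∀ l ∈ G, l.sum ≤ V)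
    (hcc : ∀ l ∈ G, cc l ≤ B * 2 ^ l.sum) (hq : ∀ l ∈ G, 3 ^ (L + q) ≤ 2 ^ l.sum) (y : ℕ)
    {h : ℕ → ℝ} (hh : ∀ z, 0 ≤ h z) (hp : Per q h) :
    sm G h y ≤ (V + 1 : ℝ) * (B + 2) * mn q h := by
  have h1 : sm G h y = ∑ s ∈ range (V + 1), sm (G.filter (fun l => l.sum = s)) h y := by
    unfold sm
    rw [← sum_fiberwise_of_maps_to (s := G.filter (fun l => va l y)) (t := range (V + 1))
      (g := fun l => l.sum) (fun l hl => mem_range.mpr (Nat.lt_succ_of_le (hV l (mem_filter.mp hl).1)))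
      (fun l => ww l * h (en l y))]
    apply sum_congr rfl
    intro s _
    rw [filter_filter, filter_filter]
    apply sum_congr _ (fun _ _ => rfl)
    ext l
    simp only [mem_filter]
    tauto
  rw [h1]
  have h2 : ∀ s ∈ range (V + 1), sm (G.filter (fun l => l.sum = s)) h y ≤ (B + 2 : ℝ) * mn q h := by
    intro s _
    rcases (G.filter (fun l => l.sum = s)).eq_empty_or_nonempty with hE | ⟨l0, hl0⟩
    · rw [hE]
      unfold sm
      rw [filter_empty, sum_empty]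
      exact mul_nonneg (by positivity) (B_mn_nonneg q hh)
    · rw [mem_filter] at hl0
      refine dens_sum (L := L) (s := s) (fun l hl => hlen l (mem_filter.mp hl).1)
        (fun l hl => hpos l (mem_filter.mp hl).1) (fun l hl => (mem_filter.mp hl).2)
        (fun l hl => ?_) ?_ y hh hp
      · rw [mem_filter] at hl
        rw [← hl.2]
        exact hcc l hl.1
      · rw [← hl0.2]
        exact hq l0 hl0.1
  refine (sum_le_sum h2).trans (le_of_eq ?_)
  rw [sum_const, card_range, nsmul_eq_mul]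
  push_cast
  ring

end H78P
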