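import Pool.Agent.Lib.H78P.SkA2
import Pool.Agent.Lib.H62w.Mu

set_option autoImplicit false

/-! Chunk C1. mean |FF (n+1) - FF n| = TT (M+1) n <= TH M n (triangle inequality over the sums s); see also H62w.mu_cauchy. -/

open Finset
namespace H78P
open H62w

/-- `TT ≤ tt`: triangle inequality over the sums. -/
theorem C1_TT_le_tt {M : ℕ} (hM : 1 ≤ M) (n : ℕ) : TT M n ≤ tt M (n + 1) n := by
  rw [L_TT_eq hM, L_tt_eq]
  have h : L_Q M (n + 1) (n + 1) = fun z => ∑ s ∈ range (M * (n + 1) + 1),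
      L_J M (n + 1) (n + 1) s z := by
    funext z
    exact L_QQ_eq_sum M (n + 1) (n + 1) z
  rw [h, sum_comm (s := range (M * (n + 1) + 1))]
  refine sum_le_sum fun z _ => ?_
  rw [L_p0_sum (range (M * (n + 1) + 1)) (fun s z => L_J M (n + 1) (n + 1) s z) z]
  exact abs_sum_le_sum_abs _ _

/-- `L1` distance of the lookahead functions (chunk D, FFL1.lean; uses H62w.mu_cauchy or its proof, and TT ≤ tt). -/
theorem FF_L1 {M : ℕ} (hM : 1 ≤ M) {p q : ℕ} (hpq : p ≤ q) :
    mn q (fun z => |FF M q z - FF M p z|) ≤ ∑ n ∈ Ico p q, TH M n := by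
  have _ := hM
  have h1 := mu_cauchy (M := M + 1) (by omega) p q hpq
  have h2 : mn q (fun z => |FF M q z - FF M p z|) =
      ∑ y ∈ range (3 ^ q), |mu (M + 1) q y - mu (M + 1) p y / 3 ^ (q - p)| := by
    unfold mn FF
    rw [sum_div]
    refine sum_congr rfl fun y _ => ?_
    have h3 : (3 : ℝ) ^ q = 3 ^ p * 3 ^ (q - p) := by
      rw [← pow_add, Nat.add_sub_cancel' hpq]
    have h4 : (3 : ℝ) ^ q * mu (M + 1) q y - 3 ^ p * mu (M + 1) p y =
        3 ^ q * (mu (M + 1) q y - mu (M + 1) p y / 3 ^ (q - p)) := by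
      have h5 : (3 : ℝ) ^ (q - p) ≠ 0 := by positivity
      rw [mul_sub, mul_div_assoc', h3]
      field_simp
    rw [h4, abs_mul, abs_of_nonneg (by positivity : (0:ℝ) ≤ 3 ^ q),
      mul_div_cancel_left₀ _ (by positivity)]
  rw [h2]
  refine h1.trans (sum_le_sum fun n _ => ?_)
  exact C1_TT_le_tt (by omega) n

end H78P
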