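import Pool.Agent.Lib.H78P.SkC1
import Pool.Agent.Lib.H78P.SkA2
import Pool.Agent.Lib.H62w.Mu

set_option autoImplicit false

/-! Chunk C2. PROOF.md section 3, STEP. -/

open Finset
namespace H78P
open H62w

theorem C2_sm_add (G : Finset (List ℕ)) (h h' : ℕ → ℝ) (y : ℕ) :
    sm G (fun z => h z + h' z) y = sm G h y + sm G h' y := by
  unfold sm
  rw [← sum_add_distrib]
  exact sum_congr rfl fun l _ => by ring

/-- the continuations by words of `T` are dominated by the lookahead function -/
theorem C2_sm_le {M k q : ℕ} {T : Finset (List ℕ)} (hT : T ⊆ words M k) (z : ℕ) :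
    sm T (FF M q) z ≤ FF M (k + q) z := by
  rw [FF_conv]
  unfold sm
  have h1 : ∀ l ∈ T.filter (fun l => va l z), ww l * FF M q (en l z) =
      3 ^ k * pw (M + 1) l * FF M q (en l z) := by
    intro l hl
    rw [ww_of_words (hT (mem_filter.1 hl).1)]
  rw [sum_congr rfl h1]
  apply sum_le_sum_of_subset_of_nonneg
  · intro l hl
    rw [mem_filter] at hl ⊢
    exact ⟨words_mono (by omega) k (hT hl.1), hl.2⟩
  · intro l _ _
    have := L_pw_nonneg (M + 1) l
    have := FF_nonneg M q (en l z)
    positivity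

/-- One step of the propagation: `FF M (k+q)` = good continuations + bad ones (FF_conv); the bad part has mean
`1 - pr M T` (shift_mean, mn_FF), and it is integrated against the node law by `hD`. -/
theorem step {M k p q : ℕ} (hM : 1 ≤ M) {G T : Finset (List ℕ)} {D : ℝ} (y : ℕ) (hT : T ⊆ words M k)
    (hp : p ≤ k + q)
    (hD : ∀ h : ℕ → ℝ, (∀ z, 0 ≤ h z) → Per (k + q) h → sm G h y ≤ D * mn (k + q) h) :
    sm G (FF M p) y - D * (∑ n ∈ Ico p (k + q), TH M n + (1 - pr M T)) ≤ sm G (sm T (FF M q)) y := by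
  -- `D` is nonnegative
  have hD0 : 0 ≤ D := by
    have h1 := hD (fun _ => 1) (fun _ => zero_le_one) (fun _ => rfl)
    have h2 : mn (k + q) (fun _ => (1:ℝ)) = 1 := by
      unfold mn
      rw [sum_const, card_range, nsmul_eq_mul, mul_one]
      push_cast
      exact div_self (by positivity)
    have h3 := sm_nonneg (G := G) (h := fun _ => (1:ℝ)) (fun _ => zero_le_one) y
    rw [h2, mul_one] at h1
    linarith
  let h1 : ℕ → ℝ := fun z => FF M (k + q) z - sm T (FF M q) z
  let h2 : ℕ → ℝ := fun z => |FF M (k + q) z - FF M p z|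
  have hp1 : Per (k + q) (FF M (k + q)) := FF_per M (k + q)
  have hp2 : Per (k + q) (sm T (FF M q)) := per_sm hT (FF_per M q)
  have hp3 : Per (k + q) (FF M p) := Per_mono hp (FF_per M p)
  have h10 : ∀ z, 0 ≤ h1 z := fun z => sub_nonneg.2 (C2_sm_le hT z)
  have h20 : ∀ z, 0 ≤ h2 z := fun z => abs_nonneg _
  have hper : Per (k + q) (fun z => h1 z + h2 z) := by
    intro z
    simp only [h1, h2]
    rw [hp1 z, hp2 z, hp3 z]
  have key := hD (fun z => h1 z + h2 z) (fun z => add_nonneg (h10 z) (h20 z)) hper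
  have hm : mn (k + q) (fun z => h1 z + h2 z) ≤ (1 - pr M T) + ∑ n ∈ Ico p (k + q), TH M n := by
    have e1 : mn (k + q) (fun z => h1 z + h2 z) =
        (mn (k + q) (FF M (k + q)) - mn (k + q) (sm T (FF M q))) + mn (k + q) h2 := by
      unfold mn
      rw [sum_add_distrib, sum_sub_distrib]
      ring
    rw [e1, mn_FF hM, mn_sm hT (FF_per M q), mn_FF hM, mul_one]
    have := FF_L1 hM hp
    linarith
  have hle : sm G (FF M p) y ≤ sm G (fun z => sm T (FF M q) z + (h1 z + h2 z)) y := by
    unfold sm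
    apply sum_le_sum
    intro l _
    apply mul_le_mul_of_nonneg_left _ (ww_pos l).le
    have : FF M p (en l y) ≤ FF M (k + q) (en l y) +
        |FF M (k + q) (en l y) - FF M p (en l y)| := by
      have := neg_abs_le (FF M (k + q) (en l y) - FF M p (en l y))
      linarith
    change FF M p (en l y) ≤ sm T (FF M q) (en l y) + ((FF M (k + q) (en l y) -
      sm T (FF M q) (en l y)) + |FF M (k + q) (en l y) - FF M p (en l y)|)
    linarith
  rw [C2_sm_add] at hle
  have h3 : D * mn (k + q) (fun z => h1 z + h2 z) ≤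
      D * ((1 - pr M T) + ∑ n ∈ Ico p (k + q), TH M n) := mul_le_mul_of_nonneg_left hm hD0
  have h4 : sm G (FF M p) y ≤ sm G (sm T (FF M q)) y + sm G (fun z => h1 z + h2 z) y := hle
  linarith

end H78P
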