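import Pool.Agent.Lib.H62y.Stage
import Pool.Agent.Lib.H62y.Defs

set_option autoImplicit false

/-!
Positive density of predecessors of the `3x+1` map: definitions. See PROOF.md in this folder.
The letter law is `pa (M+1)`; words in `words M k` avoid the top letter `M+1`, so for them
`pw (M+1) l = 1/2^|l|` and the true weight `ww l = 3^k/2^|l|` is `3^k * pw (M+1) l`.
-/

open Finset

namespace H78P
open H62w

/-- True weight `3^k / 2^|l|` of a word. -/
noncomputable def ww (l : List ℕ) : ℝ := (3 : ℝ) ^ l.length / (2 : ℝ) ^ l.sum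

/-- Weighted sum, over the words of `G` valid at `y`, of a function of the end point. -/
noncomputable def sm (G : Finset (List ℕ)) (h : ℕ → ℝ) (y : ℕ) : ℝ :=
  ∑ l ∈ G.filter (fun l => va l y), ww l * h (en l y)

/-- The lookahead function `F_k(y)`: letters `1..M+1` with law `pa (M+1)`. -/
noncomputable def FF (M k y : ℕ) : ℝ := 3 ^ k * mu (M + 1) k y

/-- `t_{n+1,n}`. -/
noncomputable def TH (M n : ℕ) : ℝ := tt (M + 1) (n + 1) n

/-- Probability of a set of words. -/
noncomputable def pr (M : ℕ) (G : Finset (List ℕ)) : ℝ := ∑ l ∈ G, pw (M + 1) l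

/-- `h` depends only on `z` mod `3^q`. -/
def Per (q : ℕ) (h : ℕ → ℝ) : Prop := ∀ z, h z = h (z % 3 ^ q)

/-- Mean over the residues mod `3^q`. -/
noncomputable def mn (q : ℕ) (h : ℕ → ℝ) : ℝ := (∑ z ∈ range (3 ^ q), h z) / 3 ^ q

/-- Typical words of length `k` with letters `≤ M`: the sum differs from `2 k` by at most `k / N`. -/
def TW (N M k : ℕ) : Finset (List ℕ) :=
  (words M k).filter (fun l => 2 * N * k ≤ N * l.sum + k ∧ N * l.sum ≤ 2 * N * k + k)

/-- The lengths `L_0 = L0`, `L_{j+1} = L_j + L_j / N`. -/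
def Ls (N L0 : ℕ) : ℕ → ℕ
  | 0 => L0
  | j + 1 => Ls N L0 j + Ls N L0 j / N

/-- Prefix condition: every initial segment has average letter at least `19/10`. -/
def PC (l : List ℕ) : Prop := ∀ i ∈ range (l.length + 1), 19 * i ≤ 10 * H62y.JJ l i

instance decPC (l : List ℕ) : Decidable (PC l) := by
  unfold PC; infer_instance

/-- Prefix class. -/
def PG (M k : ℕ) : Finset (List ℕ) := (words M k).filter (fun l => PC l)

/-- Prefix class with a better bound for the full word. -/
def GA (M k : ℕ) : Finset (List ℕ) :=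
  (PG M k).filter (fun l => 196 * k ≤ 100 * l.sum ∧ l.sum ≤ 5 * k)

/-- Mass of the prefix class at `z` (unit end points). -/
noncomputable def SPG (M n z : ℕ) : ℝ :=
  ∑ l ∈ (PG M n).filter (fun l => va l z ∧ en l z % 3 ≠ 0), ww l

/-- Success at `z`. -/
def OKz (M m : ℕ) (c : ℝ) (z : ℕ) : Prop := c ≤ sm (GA M m) (FF M (m / 100)) z

/-- Mass (true weights) of the critical class of `H62y` at `y`. -/
noncomputable def FP (M k y : ℕ) : ℝ := ∑ l ∈ H62y.PP M k y, ww l

/-- The class parameter as a function of the block length. -/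
def M0 (C0 U : ℕ) : ℕ := C0 * (Nat.log 2 U + 1)

/-- Words of length `L` that occur as factors of words of the critical class with parameter `m`. -/
def G0 (m L : ℕ) : Finset (List ℕ) :=
  (words m L).filter (fun l => cc l ≤ 2 ^ (m + 1) * 2 ^ l.sum ∧ 189 * L ≤ 100 * l.sum)

/-- The word sets of the propagation: `Qs 0 = G0`, then append typical words. -/
def Qs (N M m L0 : ℕ) : ℕ → Finset (List ℕ)
  | 0 => G0 m L0
  | j + 1 => ((Qs N M m L0 j) ×ˢ (TW N M (Ls N L0 j / N))).image (fun x => x.1 ++ x.2)

end H78P
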