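import Pool.Agent.Lib.H78P.Defs
import Pool.Agent.Lib.H62y.BadSmall
import Pool.Agent.Lib.H62w.PathsA

set_option autoImplicit false

/-! Chunk E1. The words that are not typical have super-polynomially small probability. -/

open Finset
namespace H78P
open H62w

/-- Exponentials beat powers. -/
theorem E1_exp (c : ℝ) (hc : 0 < c) (A : ℕ) : ∃ C : ℝ, 0 < C ∧ ∀ k : ℕ, 1 ≤ k →
    Real.exp (-(c * k)) ≤ C / k ^ A := by
  refine ⟨(A.factorial : ℝ) / c ^ A, by positivity, fun k hk => ?_⟩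
  have hk0 : (0 : ℝ) < k := by exact_mod_cast hk
  have h1 : (c * k) ^ A / A.factorial ≤ Real.exp (c * k) := Real.pow_div_factorial_le_exp (c * k) (by positivity) A
  rw [Real.exp_neg, inv_eq_one_div, div_div, div_le_div_iff₀ (Real.exp_pos _) (by positivity)]
  rw [div_le_iff₀ (by positivity), mul_pow] at h1
  linarith

theorem E1_half (A : ℕ) : ∃ C : ℝ, 0 < C ∧ ∀ k : ℕ, 1 ≤ k → (k : ℝ) * (1 / 2) ^ k ≤ C / k ^ A := by
  obtain ⟨C, hC, h⟩ := E1_exp (Real.log 2) (Real.log_pos (by norm_num)) (A + 1)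
  refine ⟨C, hC, fun k hk => ?_⟩
  have hk0 : (0 : ℝ) < k := by exact_mod_cast hk
  have h1 := h k hk
  have h2 : Real.exp (-(Real.log 2 * k)) = (1 / 2 : ℝ) ^ k := by
    rw [show -(Real.log 2 * (k : ℝ)) = k * (-Real.log 2) by ring, Real.exp_nat_mul, Real.exp_neg,
      Real.exp_log (by norm_num)]
    norm_num
  rw [h2] at h1
  calc (k : ℝ) * (1 / 2) ^ k ≤ k * (C / k ^ (A + 1)) := mul_le_mul_of_nonneg_left h1 hk0.le
    _ = C / k ^ A := by rw [pow_succ]; field_simp

/-- Every power. -/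
theorem bad_small {N : ℕ} (hN : 1 ≤ N) (A : ℕ) : ∃ C : ℝ, 0 < C ∧ ∀ M k : ℕ, 1 ≤ k → k ≤ M →
    1 - pr M (TW N M k) ≤ C / k ^ A := by
  obtain ⟨c, C0, hc, hC0, h0⟩ := H62y.bad_small N hN
  obtain ⟨C1, hC1, h1⟩ := E1_exp c hc A
  obtain ⟨C2, hC2, h2⟩ := E1_half A
  refine ⟨C0 * C1 + C2, by positivity, fun M k hk hkM => ?_⟩
  have hk0 : (0 : ℝ) < k := by exact_mod_cast hk
  have hN0 : (0 : ℝ) < N := by exact_mod_cast hN
  have e1 : (1 : ℝ) = ∑ l ∈ words (M + 1) k, pw (M + 1) l := (H62w.pw_sum (by omega) k).symm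
  have e2 : pr M (TW N M k) = ∑ l ∈ (words (M + 1) k).filter (fun l => l ∈ TW N M k), pw (M + 1) l := by
    unfold pr
    apply sum_congr _ (fun _ _ => rfl)
    ext l
    rw [mem_filter]
    refine ⟨fun h => ⟨?_, h⟩, fun h => h.2⟩
    unfold TW at h
    rw [mem_filter, mem_words] at h
    rw [mem_words]
    exact ⟨h.1.1, fun a ha => ⟨(h.1.2 a ha).1, by have := (h.1.2 a ha).2; omega⟩⟩
  have e3 : 1 - pr M (TW N M k) = ∑ l ∈ (words (M + 1) k).filter (fun l => ¬ l ∈ TW N M k), pw (M + 1) l := by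
    have := sum_filter_add_sum_filter_not (words (M + 1) k) (fun l => l ∈ TW N M k) (fun l => pw (M + 1) l)
    rw [e2]
    linarith
  rw [e3]
  have h3 : ∑ l ∈ (words (M + 1) k).filter (fun l => ¬ l ∈ TW N M k), pw (M + 1) l ≤
      ∑ u ∈ (words (M + 1) k).filter (fun u => ¬ (|(u.sum : ℝ) - 2 * k| ≤ (k : ℝ) / N)), pw (M + 1) u +
      ∑ u ∈ (words (M + 1) k).filter (fun u => ¬ ∀ a ∈ u, a < M + 1), pw (M + 1) u := by
    rw [sum_filter, sum_filter, sum_filter, ← sum_add_distrib]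
    apply sum_le_sum
    intro u hu
    have hp : 0 ≤ pw (M + 1) u := H62w.L_pw_nonneg _ _
    by_cases hT : u ∈ TW N M k
    · rw [if_neg (not_not.2 hT)]
      apply add_nonneg <;> split_ifs <;> linarith
    · rw [if_pos hT]
      by_cases ha : ∀ a ∈ u, a < M + 1
      · have hb : ¬ (|(u.sum : ℝ) - 2 * k| ≤ (k : ℝ) / N) := by
          intro hb
          apply hT
          unfold TW
          rw [mem_words] at hu
          rw [mem_filter, mem_words]
          refine ⟨⟨hu.1, fun a haa => ⟨(hu.2 a haa).1, by have := ha a haa; omega⟩⟩, ?_⟩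
          rw [abs_le, neg_le_sub_iff_le_add, ← sub_le_iff_le_add, le_div_iff₀ hN0, sub_le_iff_le_add,
            ← sub_le_iff_le_add'] at hb
          obtain ⟨hb1, hb2⟩ := hb
          have hb1' : 2 * (N : ℝ) * k ≤ N * u.sum + k := by
            have : (2 * (k : ℝ) - u.sum) ≤ k / N := by linarith
            rw [le_div_iff₀ hN0] at this
            linarith
          have hb2' : (N : ℝ) * u.sum ≤ 2 * N * k + k := by
            nlinarith
          exact ⟨by exact_mod_cast hb1', by exact_mod_cast hb2'⟩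
        rw [if_pos hb, if_neg (not_not.2 ha)]
        linarith
      · rw [if_pos ha]
        have : (0 : ℝ) ≤ (if ¬ (|(u.sum : ℝ) - 2 * k| ≤ (k : ℝ) / N) then pw (M + 1) u else 0) := by
          split_ifs <;> linarith
        linarith
  have h4 := h0 (M + 1) k (by omega)
  have h5 := H62y.bad_letter (M + 1) k (by omega)
  rw [Nat.add_sub_cancel] at h5
  have h6 : (k : ℝ) * (1 / 2) ^ M ≤ k * (1 / 2) ^ k := by
    apply mul_le_mul_of_nonneg_left _ hk0.le
    exact pow_le_pow_of_le_one (by norm_num) (by norm_num) hkM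
  have h7 := h1 k hk
  have h8 := h2 k hk
  have h9 : C0 * Real.exp (-(c * k)) ≤ C0 * (C1 / k ^ A) := mul_le_mul_of_nonneg_left h7 hC0.le
  calc _ ≤ C0 * Real.exp (-(c * k)) + k * (1 / 2) ^ M := by linarith
    _ ≤ C0 * (C1 / k ^ A) + C2 / k ^ A := by linarith
    _ = (C0 * C1 + C2) / k ^ A := by ring

end H78P
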