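import Pool.Agent.Lib.H78P.Defs
import Pool.Agent.Lib.H62y.FacMass

set_option autoImplicit false

/-! Chunk E2. Lower tail of the sum of a word, and large letters. -/

open Finset
namespace H78P
open H62w H62y

theorem E_letter {M : ℕ} (hM : 20 ≤ M) :
    ∑ a ∈ Icc 1 M, pa M a * ((201 / 200 : ℝ) ^ 19 * (200 / 201) ^ (10 * a)) ≤ 998 / 1000 := by
  obtain ⟨m, rfl⟩ : ∃ m, M = m + 1 := ⟨M - 1, by omega⟩
  rw [Finset.sum_Icc_succ_top (by omega)]
  set y : ℝ := (1 / 2) * (200 / 201) ^ 10 with hy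
  have h1 : ∑ a ∈ Icc 1 m, pa (m + 1) a * ((201 / 200 : ℝ) ^ 19 * (200 / 201) ^ (10 * a)) =
      (201 / 200) ^ 19 * ∑ a ∈ Icc 1 m, y ^ a := by
    rw [mul_sum]
    refine sum_congr rfl fun a ha => ?_
    rw [mem_Icc] at ha
    unfold pa
    rw [if_pos (by omega), hy, mul_pow, ← pow_mul]
    ring
  have h2 : pa (m + 1) (m + 1) * ((201 / 200 : ℝ) ^ 19 * (200 / 201) ^ (10 * (m + 1))) ≤
      (201 / 200) ^ 19 * (1 / 2) ^ 19 := by
    unfold pa
    rw [if_neg (by omega)]
    have a1 : (1 / 2 : ℝ) ^ (m + 1 - 1) ≤ (1 / 2) ^ 19 :=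
      pow_le_pow_of_le_one (by norm_num) (by norm_num) (by omega)
    have a2 : (200 / 201 : ℝ) ^ (10 * (m + 1)) ≤ 1 := pow_le_one₀ (by norm_num) (by norm_num)
    have a3 : (201 / 200 : ℝ) ^ 19 * (200 / 201) ^ (10 * (m + 1)) ≤ (201 / 200) ^ 19 :=
      mul_le_of_le_one_right (by positivity) a2
    calc (1 / 2 : ℝ) ^ (m + 1 - 1) * ((201 / 200) ^ 19 * (200 / 201) ^ (10 * (m + 1))) ≤
          (1 / 2) ^ 19 * (201 / 200) ^ 19 := mul_le_mul a1 a3 (by positivity) (by positivity)
      _ = _ := by ring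
  have h3 : ∑ a ∈ Icc 1 m, y ^ a ≤ y / (1 - y) := by
    rw [fm_geom y (by rw [hy]; norm_num)]
    have a1 : 0 ≤ y ^ m := by positivity
    have a2 : 0 < 1 - y := by rw [hy]; norm_num
    apply div_le_div_of_nonneg_right _ a2.le
    have a3 : 0 ≤ y := by positivity
    nlinarith
  have h4 : (201 / 200 : ℝ) ^ 19 * (y / (1 - y)) + (201 / 200) ^ 19 * (1 / 2) ^ 19 ≤ 998 / 1000 := by
    rw [hy]; norm_num
  rw [h1]
  have h5 : (201 / 200 : ℝ) ^ 19 * ∑ a ∈ Icc 1 m, y ^ a ≤ (201 / 200) ^ 19 * (y / (1 - y)) :=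
    mul_le_mul_of_nonneg_left h3 (by positivity)
  linarith

theorem E_mean {M : ℕ} (hM : 20 ≤ M) (k : ℕ) :
    ∑ l ∈ words M k, pw M l * ((201 / 200 : ℝ) ^ (19 * k) * (200 / 201) ^ (10 * l.sum)) ≤ (998 / 1000) ^ k := by
  induction k with
  | zero => simp [words, pw]
  | succ k ih =>
    rw [L_sum_words_succ]
    have h1 : ∀ a ∈ Icc 1 M, ∑ l ∈ words M k, pw M (a :: l) *
        ((201 / 200 : ℝ) ^ (19 * (k + 1)) * (200 / 201) ^ (10 * (a :: l).sum)) ≤
        pa M a * ((201 / 200 : ℝ) ^ 19 * (200 / 201) ^ (10 * a)) * (998 / 1000) ^ k := by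
      intro a _
      have h2 : ∑ l ∈ words M k, pw M (a :: l) *
          ((201 / 200 : ℝ) ^ (19 * (k + 1)) * (200 / 201) ^ (10 * (a :: l).sum)) =
          pa M a * ((201 / 200 : ℝ) ^ 19 * (200 / 201) ^ (10 * a)) *
          ∑ l ∈ words M k, pw M l * ((201 / 200 : ℝ) ^ (19 * k) * (200 / 201) ^ (10 * l.sum)) := by
        rw [mul_sum]
        refine sum_congr rfl fun l _ => ?_
        have : pw M (a :: l) = pa M a * pw M l := by simp [pw]
        rw [this, List.sum_cons, mul_add, mul_add, pow_add, pow_add]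
        ring
      rw [h2]
      exact mul_le_mul_of_nonneg_left ih (mul_nonneg (L_pa_nonneg M a) (by positivity))
    refine (sum_le_sum h1).trans ?_
    rw [← sum_mul, pow_succ, mul_comm]
    exact mul_le_mul_of_nonneg_left (E_letter hM) (by positivity)

/-- Lower tail with a linear plus a constant deviation: `P(10 |l| < 19 k - m)` is at most `ρ^(k+m)`. -/
theorem low_tail : ∃ ρ : ℝ, 0 < ρ ∧ ρ < 1 ∧ ∀ M k m : ℕ, 20 ≤ M →
    pr M ((words (M + 1) k).filter (fun l => 10 * l.sum + m < 19 * k)) ≤ ρ ^ (k + m) := by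
  refine ⟨998 / 1000, by norm_num, by norm_num, fun M k h hM => ?_⟩
  unfold pr
  have h1 : ∀ l ∈ (words (M + 1) k).filter (fun l => 10 * l.sum + h < 19 * k), pw (M + 1) l ≤
      (200 / 201 : ℝ) ^ h * (pw (M + 1) l * ((201 / 200 : ℝ) ^ (19 * k) * (200 / 201) ^ (10 * l.sum))) := by
    intro l hl
    rw [mem_filter] at hl
    obtain ⟨d, hd⟩ : ∃ d, 19 * k = 10 * l.sum + h + d := ⟨19 * k - (10 * l.sum + h), by omega⟩
    have a1 : (200 / 201 : ℝ) ^ h * ((201 / 200 : ℝ) ^ (19 * k) * (200 / 201) ^ (10 * l.sum)) =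
        (201 / 200) ^ d := by
      rw [hd, pow_add, pow_add]
      have b1 : (200 / 201 : ℝ) ^ h * (201 / 200) ^ h = 1 := by
        rw [← mul_pow]; norm_num
      have b2 : (201 / 200 : ℝ) ^ (10 * l.sum) * (200 / 201) ^ (10 * l.sum) = 1 := by
        rw [← mul_pow]; norm_num
      calc (200 / 201 : ℝ) ^ h * ((201 / 200 : ℝ) ^ (10 * l.sum) * (201 / 200) ^ h * (201 / 200) ^ d *
            (200 / 201) ^ (10 * l.sum)) = ((200 / 201 : ℝ) ^ h * (201 / 200) ^ h) *
            ((201 / 200 : ℝ) ^ (10 * l.sum) * (200 / 201) ^ (10 * l.sum)) * (201 / 200) ^ d := by ring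
        _ = (201 / 200) ^ d := by rw [b1, b2]; ring
    have a2 : (1 : ℝ) ≤ (201 / 200) ^ d := one_le_pow₀ (by norm_num)
    calc pw (M + 1) l = pw (M + 1) l * 1 := (mul_one _).symm
      _ ≤ pw (M + 1) l * (201 / 200) ^ d := mul_le_mul_of_nonneg_left a2 (L_pw_nonneg (M + 1) l)
      _ = _ := by rw [← a1]; ring
  refine (sum_le_sum h1).trans ?_
  rw [← mul_sum]
  have h2 : ∑ l ∈ (words (M + 1) k).filter (fun l => 10 * l.sum + h < 19 * k),
      pw (M + 1) l * ((201 / 200 : ℝ) ^ (19 * k) * (200 / 201) ^ (10 * l.sum)) ≤ (998 / 1000) ^ k := by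
    refine le_trans ?_ (E_mean (M := M + 1) (by omega) k)
    exact sum_le_sum_of_subset_of_nonneg (filter_subset _ _)
      fun l _ _ => mul_nonneg (L_pw_nonneg (M + 1) l) (by positivity)
  have h3 : (200 / 201 : ℝ) ^ h ≤ (998 / 1000) ^ h := pow_le_pow_left₀ (by norm_num) (by norm_num) h
  calc (200 / 201 : ℝ) ^ h * ∑ l ∈ (words (M + 1) k).filter (fun l => 10 * l.sum + h < 19 * k),
        pw (M + 1) l * ((201 / 200 : ℝ) ^ (19 * k) * (200 / 201) ^ (10 * l.sum)) ≤
        (998 / 1000) ^ h * (998 / 1000) ^ k := mul_le_mul h3 h2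
          (sum_nonneg fun l _ => mul_nonneg (L_pw_nonneg (M + 1) l) (by positivity)) (by positivity)
    _ = (998 / 1000) ^ (k + h) := by rw [pow_add]; ring

/-- Mass of the letters above `m`. -/
theorem E_big {M m : ℕ} (hm : m ≤ M) : ∑ a ∈ (Icc 1 (M + 1)).filter (fun a => m < a), pa (M + 1) a = (1 / 2) ^ m := by
  have h1 := L_pa_sum (M := M + 1) (by omega)
  rw [← sum_filter_add_sum_filter_not (Icc 1 (M + 1)) (fun a => m < a)] at h1
  have h2 : ∑ a ∈ (Icc 1 (M + 1)).filter (fun a => ¬ m < a), pa (M + 1) a = 1 - (1 / 2) ^ m := by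
    rw [← L_geom m]
    refine sum_congr ?_ ?_
    · ext a
      simp only [mem_filter, mem_Icc]
      omega
    · intro a ha
      rw [mem_Icc] at ha
      unfold pa
      rw [if_pos (by omega)]
  linarith

/-- The large letters. -/
theorem top_letter {M m : ℕ} (hm : m ≤ M) (k : ℕ) :
    pr M ((words (M + 1) k).filter (fun l => ∃ a ∈ l, m < a)) ≤ k * (1 / 2) ^ m := by
  unfold pr
  induction k with
  | zero =>
    rw [sum_filter]
    simp [words]
  | succ k ih =>
    rw [sum_filter, L_sum_words_succ]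
    have h1 : ∀ a ∈ Icc 1 (M + 1), ∑ l ∈ words (M + 1) k,
        (if ∃ b ∈ a :: l, m < b then pw (M + 1) (a :: l) else 0) ≤
        (if m < a then pa (M + 1) a else 0) + pa (M + 1) a * (k * (1 / 2) ^ m) := by
      intro a _
      have h2 : ∀ l ∈ words (M + 1) k, (if ∃ b ∈ a :: l, m < b then pw (M + 1) (a :: l) else 0) ≤
          (if m < a then pa (M + 1) a else 0) * pw (M + 1) l +
          pa (M + 1) a * (if ∃ b ∈ l, m < b then pw (M + 1) l else 0) := by
        intro l _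
        have e : pw (M + 1) (a :: l) = pa (M + 1) a * pw (M + 1) l := by simp [pw]
        have n1 := L_pa_nonneg (M + 1) a
        have n2 := L_pw_nonneg (M + 1) l
        have n3 : 0 ≤ pa (M + 1) a * pw (M + 1) l := mul_nonneg n1 n2
        rw [e]
        by_cases c1 : m < a
        · rw [if_pos c1]
          have : 0 ≤ pa (M + 1) a * (if ∃ b ∈ l, m < b then pw (M + 1) l else 0) := by
            apply mul_nonneg n1
            split_ifs
            · exact n2
            · exact le_rfl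
          split_ifs at * <;> linarith
        · rw [if_neg c1, zero_mul, zero_add]
          by_cases c2 : ∃ b ∈ l, m < b
          · rw [if_pos c2, if_pos]
            obtain ⟨b, hb, hb'⟩ := c2
            exact ⟨b, List.mem_cons_of_mem _ hb, hb'⟩
          · rw [if_neg c2, if_neg]
            · simp
            · rintro ⟨b, hb, hb'⟩
              rcases List.mem_cons.1 hb with rfl | hb
              · exact c1 hb'
              · exact c2 ⟨b, hb, hb'⟩
      refine (sum_le_sum h2).trans ?_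
      rw [sum_add_distrib, ← mul_sum, pw_sum (by omega), mul_one, ← mul_sum, ← sum_filter]
      exact add_le_add le_rfl (mul_le_mul_of_nonneg_left ih (L_pa_nonneg (M + 1) a))
    refine (sum_le_sum h1).trans ?_
    rw [sum_add_distrib, ← sum_filter, E_big hm, ← sum_mul, L_pa_sum (by omega)]
    push_cast
    linarith

end H78P
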