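import Pool.Agent.Lib.H78P.SkC2
import Pool.Agent.Lib.H78P.SkB
import Pool.Agent.Lib.H78P.SkE1
import Pool.Agent.Lib.H78P.SkG2
import Pool.Agent.Lib.H62w.PathsA

set_option autoImplicit false

/-! Chunk F1. step with D = (V L + 1)(B+2) from dens (3^41 <= 2^66 gives 3^(L+L/40) <= 2^(33L/20)); TH_super and bad_small with exponent A+3;
L/N >= L/(2N) as reals, all lengths <= L <= M. -/

open Finset
namespace H78P
open H62w

theorem F1_pow {L r s : ℕ} (h1 : 40 * r ≤ L) (h2 : 33 * L ≤ 20 * s) : 3 ^ (L + r) ≤ 2 ^ s := by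
  have h3 : (3 : ℕ) ^ 41 ≤ 2 ^ 66 := by norm_num
  have h4 : (3 ^ (L + r)) ^ 40 ≤ (2 ^ s) ^ 40 := by
    calc ((3 : ℕ) ^ (L + r)) ^ 40 = 3 ^ ((L + r) * 40) := (pow_mul _ _ _).symm
      _ ≤ 3 ^ (41 * L) := Nat.pow_le_pow_right (by norm_num) (by omega)
      _ = (3 ^ 41) ^ L := pow_mul _ _ _
      _ ≤ (2 ^ 66) ^ L := Nat.pow_le_pow_left h3 L
      _ = 2 ^ (66 * L) := (pow_mul _ _ _).symm
      _ ≤ 2 ^ (s * 40) := Nat.pow_le_pow_right (by norm_num) (by omega)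
      _ = (2 ^ s) ^ 40 := pow_mul _ _ _
  exact le_of_pow_le_pow_left₀ (by norm_num) (Nat.zero_le _) h4

theorem F1_half {N L : ℕ} (hN : 0 < N) (hL : N ≤ L) : (L : ℝ) / (2 * N) ≤ ((L / N : ℕ) : ℝ) := by
  have hN' : (0 : ℝ) < N := by exact_mod_cast hN
  rw [div_le_iff₀ (by positivity)]
  have h1 : 1 ≤ L / N := (Nat.one_le_div_iff hN).2 hL
  have h2 : L < N * (L / N + 1) := by
    have := Nat.lt_mul_div_succ L hN
    exact this
  have h3 : L ≤ (L / N) * (2 * N) := by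
    calc L ≤ N * (L / N + 1) := h2.le
      _ ≤ N * (L / N + L / N) := Nat.mul_le_mul_left _ (by omega)
      _ = (L / N) * (2 * N) := by ring
  exact_mod_cast h3

theorem F1_inv {N L a A : ℕ} (hN : 0 < N) (hL : N ≤ L) (ha : L / N ≤ a) :
    (1 : ℝ) / (a : ℝ) ^ A ≤ (2 * N : ℝ) ^ A / (L : ℝ) ^ A := by
  have hN' : (0 : ℝ) < N := by exact_mod_cast hN
  have hL' : (0 : ℝ) < L := by
    have : 0 < L := lt_of_lt_of_le hN hL
    exact_mod_cast this
  have h1 : (L : ℝ) / (2 * N) ≤ a := (F1_half hN hL).trans (by exact_mod_cast ha)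
  have h2 : (0 : ℝ) < (L : ℝ) / (2 * N) := by positivity
  rw [← div_pow, ← one_div_pow]
  apply pow_le_pow_left₀ (by positivity)
  calc (1 : ℝ) / a ≤ 1 / ((L : ℝ) / (2 * N)) := one_div_le_one_div_of_le h2 h1
    _ = 2 * N / L := by rw [one_div_div]

/-- One step with the error estimated. `L` = current length, `k` = number of new letters, lookaheads `p` and `q`. -/
theorem step_err {N : ℕ} (hN : 100 ≤ N) (A : ℕ) : ∃ K : ℝ, 0 < K ∧ ∀ (M L B V y k p q : ℕ) (G : Finset (List ℕ)), N ≤ L →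
    L ≤ M → L / N ≤ k → L / N ≤ p → p ≤ k + q → 40 * (k + q) ≤ L →
    (∀ l ∈ G, l ∈ words M L ∧ cc l ≤ B * 2 ^ l.sum ∧ 33 * L ≤ 20 * l.sum ∧ l.sum ≤ V * L) →
    sm G (FF M p) y - K * (V + 1) * (B + 2) / L ^ A ≤ sm G (sm (TW N M k) (FF M q)) y := by
  have hN0 : 0 < N := by omega
  have hN1 : (0 : ℝ) < N := by exact_mod_cast hN0
  obtain ⟨C1, hC1, hbad⟩ := bad_small (N := N) (by omega) (A + 1)
  obtain ⟨C2, hC2, hTH⟩ := TH_super (A + 2)
  refine ⟨C2 * (2 * N) ^ (A + 2) + C1 * (2 * N) ^ (A + 1), by positivity, ?_⟩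
  intro M L B V y k p q G hNL hLM hk hp hpq hkq hG
  have hL0 : 0 < L := lt_of_lt_of_le hN0 hNL
  have hL1 : (0 : ℝ) < L := by exact_mod_cast hL0
  have hLN : 1 ≤ L / N := (Nat.one_le_div_iff hN0).2 hNL
  have hT : TW N M k ⊆ words M k := Finset.filter_subset _ _
  have hD : ∀ h : ℕ → ℝ, (∀ z, 0 ≤ h z) → Per (k + q) h →
      sm G h y ≤ (((V * L : ℕ) : ℝ) + 1) * (B + 2) * mn (k + q) h := by
    intro h hh hper
    apply dens (L := L) (q := k + q) (B := B) (V := V * L) _ _ _ _ _ y hh hper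
    · intro l hl
      exact (mem_words.1 (hG l hl).1).1
    · intro l hl a ha
      exact ((mem_words.1 (hG l hl).1).2 a ha).1
    · intro l hl
      exact (hG l hl).2.2.2
    · intro l hl
      exact (hG l hl).2.1
    · intro l hl
      exact F1_pow hkq (hG l hl).2.2.1
  have hstep := step (M := M) (k := k) (p := p) (q := q) (by omega) y hT hpq hD
  -- the error
  have hsum : ∑ n ∈ Ico p (k + q), TH M n ≤ C2 * (2 * N) ^ (A + 2) / (L : ℝ) ^ (A + 1) := by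
    have h1 : ∀ n ∈ Ico p (k + q), TH M n ≤ C2 * ((2 * N : ℝ) ^ (A + 2) / (L : ℝ) ^ (A + 2)) := by
      intro n hn
      rw [Finset.mem_Ico] at hn
      calc TH M n ≤ C2 / (n : ℝ) ^ (A + 2) := hTH M n (by omega) (by omega)
        _ = C2 * (1 / (n : ℝ) ^ (A + 2)) := by ring
        _ ≤ C2 * ((2 * N : ℝ) ^ (A + 2) / (L : ℝ) ^ (A + 2)) :=
            mul_le_mul_of_nonneg_left (F1_inv hN0 hNL (by omega)) hC2.le
    have h2 := Finset.sum_le_card_nsmul _ _ _ h1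
    rw [Nat.card_Ico, nsmul_eq_mul] at h2
    have h3 : ((k + q - p : ℕ) : ℝ) ≤ L := by
      have : k + q - p ≤ L := by omega
      exact_mod_cast this
    calc ∑ n ∈ Ico p (k + q), TH M n
        ≤ ((k + q - p : ℕ) : ℝ) * (C2 * ((2 * N : ℝ) ^ (A + 2) / (L : ℝ) ^ (A + 2))) := h2
      _ ≤ (L : ℝ) * (C2 * ((2 * N : ℝ) ^ (A + 2) / (L : ℝ) ^ (A + 2))) :=
          mul_le_mul_of_nonneg_right h3 (by positivity)
      _ = C2 * (2 * N) ^ (A + 2) / (L : ℝ) ^ (A + 1) := by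
          field_simp
          ring
  have hpr : 1 - pr M (TW N M k) ≤ C1 * (2 * N) ^ (A + 1) / (L : ℝ) ^ (A + 1) := by
    calc 1 - pr M (TW N M k) ≤ C1 / (k : ℝ) ^ (A + 1) := hbad M k (by omega) (by omega)
      _ = C1 * (1 / (k : ℝ) ^ (A + 1)) := by ring
      _ ≤ C1 * ((2 * N : ℝ) ^ (A + 1) / (L : ℝ) ^ (A + 1)) :=
          mul_le_mul_of_nonneg_left (F1_inv hN0 hNL hk) hC1.le
      _ = C1 * (2 * N) ^ (A + 1) / (L : ℝ) ^ (A + 1) := by ring
  have hVL : (((V * L : ℕ) : ℝ) + 1) ≤ (V + 1) * L := by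
    have : V * L + 1 ≤ (V + 1) * L := by nlinarith
    exact_mod_cast this
  have hB : (0 : ℝ) ≤ (B : ℝ) + 2 := by positivity
  have hV : (0 : ℝ) ≤ ((V * L : ℕ) : ℝ) + 1 := by positivity
  have herr : (((V * L : ℕ) : ℝ) + 1) * (B + 2) *
      (∑ n ∈ Ico p (k + q), TH M n + (1 - pr M (TW N M k))) ≤
      (C2 * (2 * N) ^ (A + 2) + C1 * (2 * N) ^ (A + 1)) * (V + 1) * (B + 2) / (L : ℝ) ^ A := by
    have h1 : ∑ n ∈ Ico p (k + q), TH M n + (1 - pr M (TW N M k)) ≤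
        (C2 * (2 * N) ^ (A + 2) + C1 * (2 * N) ^ (A + 1)) / (L : ℝ) ^ (A + 1) := by
      rw [add_div]
      exact add_le_add hsum hpr
    calc (((V * L : ℕ) : ℝ) + 1) * (B + 2) *
          (∑ n ∈ Ico p (k + q), TH M n + (1 - pr M (TW N M k)))
        ≤ (((V * L : ℕ) : ℝ) + 1) * (B + 2) *
          ((C2 * (2 * N) ^ (A + 2) + C1 * (2 * N) ^ (A + 1)) / (L : ℝ) ^ (A + 1)) :=
          mul_le_mul_of_nonneg_left h1 (by positivity)
      _ ≤ (((V : ℝ) + 1) * L) * (B + 2) *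
          ((C2 * (2 * N) ^ (A + 2) + C1 * (2 * N) ^ (A + 1)) / (L : ℝ) ^ (A + 1)) := by
          apply mul_le_mul_of_nonneg_right _ (by positivity)
          exact mul_le_mul_of_nonneg_right hVL hB
      _ = (C2 * (2 * N) ^ (A + 2) + C1 * (2 * N) ^ (A + 1)) * (V + 1) * (B + 2) / (L : ℝ) ^ A := by
          field_simp
          ring
  linarith

end H78P
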