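import Pool.Agent.Lib.H78P.SkR
import Pool.Agent.Lib.H78P.SkH
import Pool.Agent.Lib.H62y.FinalOf

set_option autoImplicit false

/-! Positive density of the predecessors, uniformly in the target. -/

open Finset
namespace H78P
open H62w

theorem positive_density (ε : ℝ) (hε : 0 < ε) :
    ∃ c C : ℝ, 0 < c ∧ 0 < C ∧ ∀ a x : ℕ, ¬ 3 ∣ a → a ≤ x →
      c * ((x : ℝ) / (a : ℝ)) ≤
        (Set.ncard {n : ℕ | n ≤ x ∧ c * (x : ℝ) ≤ (n : ℝ) ∧
          ∃ k : ℕ, (fun m : ℕ => if m % 2 = 0 then m / 2 else (3 * m + 1) / 2)^[k] n = a ∧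
            (∀ j < k, (fun m : ℕ => if m % 2 = 0 then m / 2 else (3 * m + 1) / 2)^[j] n ≠ a) ∧
            |(k : ℝ) - 2 / Real.log (4 / 3) * Real.log ((x : ℝ) / (a : ℝ))| ≤
              ε * Real.log ((x : ℝ) / (a : ℝ)) + C} : ℝ) := by
  refine H62y.positive_of_stages hT_all (fun N hN => ?_) ε hε
  obtain ⟨L0, T0, C, B, D, κ, h1, h2, h3, h4, h5, h6⟩ := stages (N := N) (by omega)
  exact ⟨C, B, D, κ, T0, Ls N L0, h2, h3, h4, h5, h1, fun j => rfl, h6⟩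

end H78P
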