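import Pool.Agent.Lib.H78P.SkH

set_option autoImplicit false

/-! Chunk G2. From hT_all (TH M n = tt (M+1) (n+1) n). -/

open Finset
namespace H78P
open H62w

theorem TH_nonneg (M n : ℕ) : 0 ≤ TH M n := by
  unfold TH tt
  exact sum_nonneg fun _ _ => sum_nonneg fun _ _ => abs_nonneg _

theorem TH_super (A : ℕ) : ∃ C : ℝ, 0 < C ∧ ∀ M n : ℕ, 2 * n ≤ M → 1 ≤ n → TH M n ≤ C / n ^ A := by
  obtain ⟨K, hK⟩ := hT_all A
  refine ⟨max K 1, lt_max_of_lt_right one_pos, ?_⟩
  intro M n hn hn1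
  have h1 := hK (M + 1) n (by omega)
  have hn' : (0:ℝ) < n := by exact_mod_cast hn1
  calc TH M n ≤ K / ((n : ℝ) + 1) ^ A := h1
    _ ≤ max K 1 / ((n : ℝ) + 1) ^ A := by
        apply div_le_div_of_nonneg_right (le_max_left _ _)
        positivity
    _ ≤ max K 1 / n ^ A := by
        apply div_le_div_of_nonneg_left (le_trans zero_le_one (le_max_right _ _)) (by positivity)
        exact pow_le_pow_left₀ hn'.le (by linarith) A

end H78P
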