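import Pool.Agent.Lib.H78P.Defs
import Pool.Agent.Lib.H62w.TTU

set_option autoImplicit false

/-! Chunk H. -/

open Finset
namespace H78P
open H62w

/-- Superpolynomial decay, uniform in `M`. -/
theorem hT_all : ∀ A : ℕ, ∃ K : ℝ, ∀ M n : ℕ, 2 * n ≤ M → tt M (n + 1) n ≤ K / ((n : ℝ) + 1) ^ A :=
  tt_super

end H78P
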