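import Pool.Agent.Lib.H78P.Defs
import Pool.Agent.Lib.H62w.PathsA

set_option autoImplicit false

/-! Chunk I1. Bounds for cc: cc l / 2^|l| = sum_i 3^(i-1) / 2^(J_i), 3 < 2^1.9. -/

open Finset
namespace H78P
open H62w

theorem JJ_cons (a : ℕ) (l : List ℕ) (i : ℕ) : H62y.JJ (a :: l) (i + 1) = a + H62y.JJ l i := by
  unfold H62y.JJ
  simp

theorem cc_prefix_real {q : ℝ} (hq1 : 1 ≤ q) (hq : q ^ 10 = 2) (hq19 : 7 / 2 ≤ q ^ 19) (l : List ℕ) :
    ∀ m : ℕ, (∀ i ∈ range (l.length + 1), 19 * i ≤ 10 * H62y.JJ l i + m) →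
      (cc l : ℝ) ≤ 2 * q ^ m * 2 ^ l.sum := by
  induction l with
  | nil =>
    intro m _
    simp only [cc, Nat.cast_zero, List.sum_nil, pow_zero, mul_one]
    positivity
  | cons a l ih =>
    intro m h
    have h1 : 19 ≤ 10 * a + m := by
      have := h 1 (mem_range.2 (by simp))
      rw [JJ_cons, H62y.JJ_zero] at this
      omega
    obtain ⟨m', hm'⟩ : ∃ m', m' + 19 = 10 * a + m := ⟨10 * a + m - 19, by omega⟩
    have ih' := ih m' (by
      intro i hi
      rw [mem_range] at hi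
      have := h (i + 1) (mem_range.2 (by rw [List.length_cons]; omega))
      rw [JJ_cons] at this
      omega)
    have hpow : q ^ m' * q ^ 19 = q ^ m * 2 ^ a := by
      rw [← pow_add, hm', pow_add, pow_mul, hq]
      ring
    have hm1 : 1 ≤ q ^ m' := one_le_pow₀ hq1
    have hs : (0 : ℝ) < 2 ^ l.sum := by positivity
    have e : (cc (a :: l) : ℝ) = 2 ^ l.sum + 3 * cc l := by
      simp [cc]
    rw [e, List.sum_cons, pow_add]
    calc (2 : ℝ) ^ l.sum + 3 * cc l ≤ 2 ^ l.sum + 3 * (2 * q ^ m' * 2 ^ l.sum) := by linarith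
      _ = 2 ^ l.sum * (1 + 6 * q ^ m') := by ring
      _ ≤ 2 ^ l.sum * (7 * q ^ m') := by
          apply mul_le_mul_of_nonneg_left _ hs.le
          linarith
      _ ≤ 2 ^ l.sum * (2 * (q ^ m' * q ^ 19)) := by
          apply mul_le_mul_of_nonneg_left _ hs.le
          have : 0 < q ^ m' := by linarith
          nlinarith
      _ = 2 * q ^ m * (2 ^ a * 2 ^ l.sum) := by rw [hpow]; ring

/-- `cc l / 2^|l| = sum_i 3^(i-1) / 2^(J_i)` and `3 < 2^1.9`. -/
theorem cc_of_prefix {l : List ℕ} {m : ℕ} (h : ∀ i ∈ range (l.length + 1), 19 * i ≤ 10 * H62y.JJ l i + m) :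
    cc l ≤ 2 ^ (m + 1) * 2 ^ l.sum := by
  set q : ℝ := (2 : ℝ) ^ ((1 : ℝ) / 10) with hqdef
  have hq0 : 0 < q := by positivity
  have hq1 : 1 ≤ q := Real.one_le_rpow (by norm_num) (by norm_num)
  have hq : q ^ 10 = 2 := by
    rw [hqdef, ← Real.rpow_natCast, ← Real.rpow_mul (by norm_num)]
    norm_num
  have hq2 : q ≤ 2 := by
    calc q = q ^ 1 := (pow_one q).symm
      _ ≤ q ^ 10 := pow_le_pow_right₀ hq1 (by norm_num)
      _ = 2 := hq
  have hq19 : 7 / 2 ≤ q ^ 19 := by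
    by_contra hc
    rw [not_le] at hc
    have h2 : (q ^ 19) ^ 10 < (7 / 2) ^ 10 := pow_lt_pow_left₀ hc (by positivity) (by norm_num)
    have h3 : (q ^ 19) ^ 10 = 2 ^ 19 := by
      rw [← pow_mul, mul_comm, pow_mul, hq]
    rw [h3] at h2
    norm_num at h2
  have main := cc_prefix_real hq1 hq hq19 l m h
  have : (cc l : ℝ) ≤ 2 ^ (m + 1) * 2 ^ l.sum := by
    refine main.trans ?_
    apply mul_le_mul_of_nonneg_right _ (by positivity)
    rw [pow_succ, mul_comm]
    apply mul_le_mul_of_nonneg_right _ (by norm_num)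
    exact pow_le_pow_left₀ hq0.le hq2 m
  exact_mod_cast this

theorem cc_triv_aux {l : List ℕ} (h : ∀ a ∈ l, 1 ≤ a) :
    2 ^ l.length * cc l + 2 ^ l.length * 2 ^ l.sum ≤ 3 ^ l.length * 2 ^ l.sum := by
  induction l with
  | nil => simp [cc]
  | cons a l ih =>
    have ha : 1 ≤ a := h a List.mem_cons_self
    have ih' := ih (fun b hb => h b (List.mem_cons_of_mem _ hb))
    have e : cc (a :: l) = 2 ^ l.sum + 3 * cc l := rfl
    rw [e, List.length_cons, List.sum_cons, pow_add 2 a]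
    obtain ⟨b, rfl⟩ : ∃ b, a = b + 1 := ⟨a - 1, by omega⟩
    set k := l.length
    set s := (2 : ℕ) ^ l.sum
    have h23 : (2 : ℕ) ^ k ≤ 3 ^ k := Nat.pow_le_pow_left (by norm_num) k
    have hb : 1 ≤ (2 : ℕ) ^ b := Nat.one_le_two_pow
    obtain ⟨B, hB⟩ : ∃ B, (2 : ℕ) ^ b = B + 1 := ⟨2 ^ b - 1, by omega⟩
    rw [pow_succ 2 b, hB, pow_succ 2 k, pow_succ 3 k]
    obtain ⟨T, hT⟩ : ∃ T, (3 : ℕ) ^ k = 2 ^ k + T := ⟨3 ^ k - 2 ^ k, by omega⟩
    rw [hT] at ih' ⊢
    set p := (2 : ℕ) ^ k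
    have ih2 : p * cc l ≤ T * s := by nlinarith [ih']
    nlinarith [ih2, Nat.zero_le (B * s * T), Nat.zero_le (B * s * p)]

theorem cc_triv {l : List ℕ} (h : ∀ a ∈ l, 1 ≤ a) : 2 ^ l.length * cc l ≤ 3 ^ l.length * 2 ^ l.sum :=
  le_trans (Nat.le_add_right _ _) (cc_triv_aux h)

theorem cc_append (l l' : List ℕ) : cc (l ++ l') = 2 ^ l'.sum * cc l + 3 ^ l.length * cc l' := by
  induction l with
  | nil => simp [cc]
  | cons a l ih =>
    have e1 : cc (a :: l ++ l') = 2 ^ (l ++ l').sum + 3 * cc (l ++ l') := rfl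
    have e2 : cc (a :: l) = 2 ^ l.sum + 3 * cc l := rfl
    rw [e1, e2, ih, List.sum_append, List.length_cons, pow_succ, pow_add]
    ring

theorem JJ_ge_of_one_le {l : List ℕ} (h : ∀ a ∈ l, 1 ≤ a) : ∀ i ≤ l.length, i ≤ H62y.JJ l i := by
  induction l with
  | nil =>
    intro i hi
    simp only [List.length_nil, Nat.le_zero] at hi
    subst hi
    exact Nat.zero_le _
  | cons a l ih =>
    intro i hi
    rcases i with _ | i
    · exact Nat.zero_le _
    · rw [JJ_cons]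
      have h1 := h a List.mem_cons_self
      have h2 := ih (fun b hb => h b (List.mem_cons_of_mem _ hb)) i (by rw [List.length_cons] at hi; omega)
      omega

/-- Appending few typical letters to a word of the good prefix class. -/
theorem GA_append {M L k : ℕ} {l l' : List ℕ} (hk : 40 * k ≤ L) (hl : l ∈ GA M L) (hl' : l' ∈ TW 100 M k) :
    l ++ l' ∈ GA M (L + k) := by
  rw [GA, mem_filter, PG, mem_filter, mem_words] at hl
  obtain ⟨⟨⟨hlen, hlet⟩, hPC⟩, h196, h5⟩ := hl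
  rw [TW, mem_filter, mem_words] at hl'
  obtain ⟨⟨hlen', hlet'⟩, ht1, ht2⟩ := hl'
  rw [GA, mem_filter, PG, mem_filter, mem_words]
  refine ⟨⟨⟨by rw [List.length_append, hlen, hlen'], ?_⟩, ?_⟩, ?_, ?_⟩
  · intro a ha
    rcases List.mem_append.1 ha with ha | ha
    · exact hlet a ha
    · exact hlet' a ha
  · intro i hi
    rw [mem_range, List.length_append, hlen, hlen'] at hi
    rw [H62y.JJ_append]
    rcases Nat.lt_or_ge i L with h | h
    · have := hPC i (mem_range.2 (by omega))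
      omega
    · rw [H62y.JJ_all (by omega), hlen]
      have := JJ_ge_of_one_le (fun a ha => (hlet' a ha).1) (i - L) (by omega)
      omega
  · rw [List.sum_append]
    omega
  · rw [List.sum_append]
    omega

/-- Prefix words satisfy the hypotheses of `multi` with `B = 2`, `V = 5`. -/
theorem GA_prop {M L : ℕ} {l : List ℕ} (hl : l ∈ GA M L) :
    l ∈ words M L ∧ cc l ≤ 2 * 2 ^ l.sum ∧ 33 * L ≤ 20 * l.sum ∧ l.sum ≤ 5 * L := by
  rw [GA, mem_filter, PG, mem_filter] at hl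
  obtain ⟨⟨hw, hPC⟩, h196, h5⟩ := hl
  refine ⟨hw, ?_, by omega, h5⟩
  have := cc_of_prefix (l := l) (m := 0) (by
    intro i hi
    have := hPC i hi
    omega)
  simpa using this

end H78P
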