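import Pool.Agent.Lib.H78P.SkA1
import Pool.Agent.Lib.H78P.SkI1
import Pool.Agent.Lib.H62w.PathsA

set_option autoImplicit false

/-! Chunk I2. Induction on j. -/

open Finset
namespace H78P
open H62w

theorem i2_pow (L : ℕ) (hL : 100 ≤ L) : (L + 1) ^ 10 ≤ 2 ^ L := by
  induction L, hL using Nat.le_induction with
  | base => norm_num
  | succ L hL ih =>
    have h1 : 101 * (L + 1 + 1) ≤ 102 * (L + 1) := by omega
    have h2 : (101 * (L + 1 + 1)) ^ 10 ≤ (102 * (L + 1)) ^ 10 := Nat.pow_le_pow_left h1 10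
    rw [mul_pow, mul_pow] at h2
    have h3 : 102 ^ 10 * (L + 1) ^ 10 ≤ 2 * 101 ^ 10 * (L + 1) ^ 10 :=
      Nat.mul_le_mul_right _ (by norm_num)
    have h4 : 101 ^ 10 * (L + 1 + 1) ^ 10 ≤ 101 ^ 10 * (2 * (L + 1) ^ 10) := by
      calc 101 ^ 10 * (L + 1 + 1) ^ 10 ≤ 102 ^ 10 * (L + 1) ^ 10 := h2
        _ ≤ 2 * 101 ^ 10 * (L + 1) ^ 10 := h3
        _ = 101 ^ 10 * (2 * (L + 1) ^ 10) := by ring
    have h5 : (L + 1 + 1) ^ 10 ≤ 2 * (L + 1) ^ 10 := Nat.le_of_mul_le_mul_left h4 (by norm_num)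
    calc (L + 1 + 1) ^ 10 ≤ 2 * (L + 1) ^ 10 := h5
      _ ≤ 2 * 2 ^ L := Nat.mul_le_mul_left _ ih
      _ = 2 ^ (L + 1) := by ring

/-- The error of one step: `(3/2)^k 3^L L (L+1) ≤ 2^s`. -/
theorem i2_err {N L s : ℕ} (hN : 100 ≤ N) (hL : 100 ≤ L) (hs : 189 * L ≤ 100 * s) :
    (L * (L + 1)) * (3 ^ L * 3 ^ (L / N)) ≤ 2 ^ s * 2 ^ (L / N) := by
  set k := L / N with hk
  have hkL : 100 * k ≤ L := by
    have : N * k ≤ L := Nat.mul_div_le L N
    nlinarith
  -- compare the hundredth powers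
  have h1 : (L * (L + 1)) ^ 100 ≤ 2 ^ (20 * L) := by
    calc (L * (L + 1)) ^ 100 ≤ ((L + 1) * (L + 1)) ^ 100 :=
          Nat.pow_le_pow_left (Nat.mul_le_mul_right _ (Nat.le_succ L)) _
      _ = ((L + 1) ^ 10) ^ 20 := by
          rw [← pow_two, ← pow_mul, ← pow_mul]
      _ ≤ (2 ^ L) ^ 20 := Nat.pow_le_pow_left (i2_pow L hL) _
      _ = 2 ^ (20 * L) := by rw [← pow_mul, mul_comm]
  -- `3^(100 L + 100 k) ≤ 2^(160 L + L) * 2^(100 k)`
  obtain ⟨d, hd⟩ : ∃ d, L = 100 * k + d := ⟨L - 100 * k, by omega⟩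
  have h2 : (3 ^ L * 3 ^ k) ^ 100 * 2 ^ (20 * L) ≤ 2 ^ (189 * L) * (2 ^ k) ^ 100 := by
    have e1 : (3 ^ L * 3 ^ k) ^ 100 * 2 ^ (20 * L) = 3 ^ (100 * L) * 3 ^ (100 * k) * 2 ^ (20 * L) := by
      rw [mul_pow, ← pow_mul, ← pow_mul, mul_comm L 100, mul_comm k 100]
    have e2 : (2 ^ k) ^ 100 = 2 ^ (100 * k) := by rw [← pow_mul, mul_comm]
    rw [e1, e2]
    have h3 : (3 : ℕ) ^ (100 * L) ≤ 2 ^ (159 * L) := by
      rw [pow_mul, pow_mul]
      exact Nat.pow_le_pow_left (by norm_num) _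
    have h4 : (3 : ℕ) ^ (100 * k) ≤ 2 ^ (10 * L) * 2 ^ (100 * k) := by
      have h5 : (3 : ℕ) ^ (100 * k) ≤ 2 ^ (2 * (100 * k)) := by
        rw [pow_mul 2 2]
        exact Nat.pow_le_pow_left (by norm_num) _
      refine h5.trans ?_
      rw [← pow_add]
      exact Nat.pow_le_pow_right (by norm_num) (by omega)
    calc 3 ^ (100 * L) * 3 ^ (100 * k) * 2 ^ (20 * L)
        ≤ 2 ^ (159 * L) * (2 ^ (10 * L) * 2 ^ (100 * k)) * 2 ^ (20 * L) :=
          Nat.mul_le_mul_right _ (Nat.mul_le_mul h3 h4)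
      _ = 2 ^ (159 * L + 10 * L + 20 * L) * 2 ^ (100 * k) := by
          rw [pow_add, pow_add]; ring
      _ = 2 ^ (189 * L) * 2 ^ (100 * k) := by
          rw [show 159 * L + 10 * L + 20 * L = 189 * L by ring]
  have h6 : ((L * (L + 1)) * (3 ^ L * 3 ^ k)) ^ 100 ≤ (2 ^ s * 2 ^ k) ^ 100 := by
    calc ((L * (L + 1)) * (3 ^ L * 3 ^ k)) ^ 100
        = (L * (L + 1)) ^ 100 * (3 ^ L * 3 ^ k) ^ 100 := mul_pow _ _ _
      _ ≤ 2 ^ (20 * L) * (3 ^ L * 3 ^ k) ^ 100 := Nat.mul_le_mul_right _ h1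
      _ = (3 ^ L * 3 ^ k) ^ 100 * 2 ^ (20 * L) := mul_comm _ _
      _ ≤ 2 ^ (189 * L) * (2 ^ k) ^ 100 := h2
      _ ≤ 2 ^ (100 * s) * (2 ^ k) ^ 100 :=
          Nat.mul_le_mul_right _ (Nat.pow_le_pow_right (by norm_num) hs)
      _ = (2 ^ s * 2 ^ k) ^ 100 := by
          rw [mul_pow, ← pow_mul 2 s 100, mul_comm s 100]
  exact (Nat.pow_le_pow_iff_left (by norm_num)).1 h6

theorem Qs_append {N M m L0 j : ℕ} {l l' : List ℕ} (hl : l ∈ Qs N M m L0 j) (hl' : l' ∈ TW N M (Ls N L0 j / N)) :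
    l ++ l' ∈ Qs N M m L0 (j + 1) := by
  show l ++ l' ∈ ((Qs N M m L0 j) ×ˢ (TW N M (Ls N L0 j / N))).image (fun x => x.1 ++ x.2)
  exact mem_image.2 ⟨(l, l'), mem_product.2 ⟨hl, hl'⟩, rfl⟩

theorem i2_sum_le {M : ℕ} : ∀ {l : List ℕ}, (∀ a ∈ l, a ≤ M) → l.sum ≤ M * l.length := by
  intro l
  induction l with
  | nil => intro _; simp
  | cons a l ih =>
    intro h
    have h1 := ih (fun b hb => h b (List.mem_cons_of_mem _ hb))
    have h2 := h a List.mem_cons_self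
    rw [List.sum_cons, List.length_cons]
    have : M * (l.length + 1) = M * l.length + M := by ring
    omega

/-- Invariant form. -/
theorem i2_inv {N M m L0 : ℕ} (hN : 100 ≤ N) (hm : m ≤ M) (hL : N ≤ L0) (j : ℕ) : ∀ {l : List ℕ}, l ∈ Qs N M m L0 j →
    l ∈ words M (Ls N L0 j) ∧
      (Ls N L0 j) * cc l + 2 ^ l.sum ≤ (Ls N L0 j) * ((2 ^ (m + 1) + 1) * 2 ^ l.sum) ∧
      189 * Ls N L0 j ≤ 100 * l.sum ∧ l.sum ≤ (m + 3) * Ls N L0 j ∧
      |(l.sum : ℝ) - 2 * Ls N L0 j| ≤ (Ls N L0 j : ℝ) / N + (m + 2) * L0 := by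
  have hNpos : (0 : ℝ) < N := by exact_mod_cast (by omega : 0 < N)
  induction j with
  | zero =>
    intro l hl
    change l ∈ G0 m L0 at hl
    change l ∈ words M L0 ∧
      L0 * cc l + 2 ^ l.sum ≤ L0 * ((2 ^ (m + 1) + 1) * 2 ^ l.sum) ∧
      189 * L0 ≤ 100 * l.sum ∧ l.sum ≤ (m + 3) * L0 ∧
      |(l.sum : ℝ) - 2 * L0| ≤ (L0 : ℝ) / N + (m + 2) * L0
    rw [G0, mem_filter] at hl
    obtain ⟨h1, h2, h3⟩ := hl
    have h4 := mem_words.1 h1
    have h5 : l.sum ≤ m * L0 := by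
      have := i2_sum_le (M := m) (l := l) (fun a ha => (h4.2 a ha).2)
      rwa [h4.1] at this
    refine ⟨words_mono hm _ h1, ?_, h3, ?_, ?_⟩
    · have h6 : L0 * cc l ≤ L0 * (2 ^ (m + 1) * 2 ^ l.sum) := Nat.mul_le_mul_left _ h2
      have h7 : 2 ^ l.sum ≤ L0 * 2 ^ l.sum := Nat.le_mul_of_pos_left _ (by omega)
      calc L0 * cc l + 2 ^ l.sum ≤ L0 * (2 ^ (m + 1) * 2 ^ l.sum) + L0 * 2 ^ l.sum := by omega
        _ = L0 * ((2 ^ (m + 1) + 1) * 2 ^ l.sum) := by ring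
    · nlinarith
    · have h6 : (l.sum : ℝ) ≤ m * L0 := by exact_mod_cast h5
      have h7 : (0 : ℝ) ≤ (L0 : ℝ) / N := by positivity
      have h8 : (0 : ℝ) ≤ (l.sum : ℝ) := by positivity
      have h9 : (0 : ℝ) ≤ (m : ℝ) * L0 := by positivity
      have h10 : (0 : ℝ) ≤ (L0 : ℝ) := by positivity
      rw [abs_le]
      constructor <;> nlinarith
  | succ j ih =>
    intro l hl
    change l ∈ ((Qs N M m L0 j) ×ˢ (TW N M (Ls N L0 j / N))).image (fun x => x.1 ++ x.2) at hl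
    obtain ⟨⟨u, v⟩, huv, rfl⟩ := mem_image.1 hl
    obtain ⟨hu, hv⟩ := mem_product.1 huv
    dsimp only at hu hv ⊢
    obtain ⟨i1, i2, i3, i4, i5⟩ := ih hu
    have hLj : L0 ≤ Ls N L0 j := Ls_ge N L0 j
    have e0 : Ls N L0 (j + 1) = Ls N L0 j + Ls N L0 j / N := rfl
    rw [e0]
    set L := Ls N L0 j with hLdef
    set k := L / N with hk
    rw [TW, mem_filter] at hv
    obtain ⟨v1, v2, v3⟩ := hv
    have v4 := mem_words.1 v1
    have i6 := mem_words.1 i1
    have hL100 : 100 ≤ L := by omega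
    have hk1 : 1 ≤ k := by
      rw [hk, Nat.one_le_div_iff (by omega)]
      omega
    have hsum : (u ++ v).sum = u.sum + v.sum := List.sum_append
    refine ⟨?_, ?_, ?_, ?_, ?_⟩
    · rw [mem_words, List.length_append, i6.1, v4.1]
      refine ⟨rfl, fun a ha => ?_⟩
      rcases List.mem_append.1 ha with ha | ha
      · exact i6.2 a ha
      · exact v4.2 a ha
    · rw [hsum, cc_append, i6.1]
      have c1 := cc_triv (l := v) (fun a ha => (v4.2 a ha).1)
      rw [v4.1] at c1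
      have c2 := i2_err (s := u.sum) hN hL100 i3
      rw [← hk] at c2
      -- `L (L+1) 3^L cc v ≤ 2^(u.sum) 2^(v.sum)`
      have c3 : L * (L + 1) * (3 ^ L * cc v) ≤ 2 ^ u.sum * 2 ^ v.sum := by
        have c4 : 2 ^ k * (L * (L + 1) * (3 ^ L * cc v)) ≤ 2 ^ k * (2 ^ u.sum * 2 ^ v.sum) := by
          calc 2 ^ k * (L * (L + 1) * (3 ^ L * cc v)) = L * (L + 1) * 3 ^ L * (2 ^ k * cc v) := by ring
            _ ≤ L * (L + 1) * 3 ^ L * (3 ^ k * 2 ^ v.sum) := Nat.mul_le_mul_left _ c1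
            _ = (L * (L + 1) * (3 ^ L * 3 ^ k)) * 2 ^ v.sum := by ring
            _ ≤ (2 ^ u.sum * 2 ^ k) * 2 ^ v.sum := Nat.mul_le_mul_right _ c2
            _ = 2 ^ k * (2 ^ u.sum * 2 ^ v.sum) := by ring
        exact Nat.le_of_mul_le_mul_left c4 (by positivity)
      -- to reals
      set C : ℕ := 2 ^ (m + 1) + 1 with hC
      have hLr : (100 : ℝ) ≤ L := by exact_mod_cast hL100
      have hkr : (1 : ℝ) ≤ k := by exact_mod_cast hk1
      have r2 : (L : ℝ) * cc u + 2 ^ u.sum ≤ L * (C * 2 ^ u.sum) := by exact_mod_cast i2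
      have r3 : (L : ℝ) * (L + 1) * (3 ^ L * cc v) ≤ 2 ^ u.sum * 2 ^ v.sum := by exact_mod_cast c3
      have p1 : (0 : ℝ) < 2 ^ u.sum := by positivity
      have p2 : (0 : ℝ) < 2 ^ v.sum := by positivity
      suffices h : ((L : ℝ) + k) * (2 ^ v.sum * cc u + 3 ^ L * cc v) + 2 ^ (u.sum + v.sum) ≤
          (L + k) * (C * 2 ^ (u.sum + v.sum)) by exact_mod_cast h
      rw [pow_add]
      set X : ℝ := 2 ^ u.sum with hX
      set Y : ℝ := 2 ^ v.sum with hY
      -- `cc u ≤ (C - 1/L) X`, `3^L cc v ≤ X Y / (L (L+1))`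
      have a1 : (cc u : ℝ) ≤ (C - 1 / L) * X := by
        have hL0 : (0 : ℝ) < L := by linarith
        have e : (C - 1 / L) * X = (L * (C * X) - X) / L := by field_simp
        rw [e, le_div_iff₀ hL0]
        linarith
      have a2 : (3 : ℝ) ^ L * cc v ≤ X * Y / (L * (L + 1)) := by
        rw [le_div_iff₀ (by positivity)]
        linarith
      have a3 : 1 / ((L : ℝ) * (L + 1)) ≤ 1 / L - 1 / (L + k) := by
        have e1 : 1 / ((L : ℝ) * (L + 1)) = 1 / L - 1 / (L + 1) := by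
          have hL0 : (0 : ℝ) < L := by linarith
          field_simp
          ring
        rw [e1]
        have : 1 / ((L : ℝ) + k) ≤ 1 / (L + 1) := by
          apply one_div_le_one_div_of_le <;> linarith
        linarith
      have hLk : (0 : ℝ) < L + k := by linarith
      have a4 : Y * (cc u : ℝ) + 3 ^ L * cc v ≤ (C - 1 / (L + k)) * (X * Y) := by
        have b1 : Y * (cc u : ℝ) ≤ Y * ((C - 1 / L) * X) := mul_le_mul_of_nonneg_left a1 p2.le
        have b2 : X * Y / (L * (L + 1)) ≤ (1 / L - 1 / (L + k)) * (X * Y) := by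
          rw [div_eq_mul_one_div, mul_comm]
          exact mul_le_mul_of_nonneg_right a3 (by positivity)
        have b3 : Y * ((C - 1 / L) * X) + (1 / L - 1 / (L + k)) * (X * Y) = (C - 1 / (L + k)) * (X * Y) := by ring
        linarith
      calc ((L : ℝ) + k) * (Y * cc u + 3 ^ L * cc v) + X * Y
          ≤ (L + k) * ((C - 1 / (L + k)) * (X * Y)) + X * Y := by
            have := mul_le_mul_of_nonneg_left a4 hLk.le
            linarith
        _ = (L + k) * (C * (X * Y)) := by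
            field_simp
            ring
    · rw [hsum]
      have h1 : 2 * N * k ≤ N * v.sum + k := v2
      have h2 : 189 * k ≤ 100 * v.sum := by
        by_contra hcon
        push Not at hcon
        have h3 : N * (100 * v.sum) < N * (189 * k) := Nat.mul_lt_mul_of_pos_left hcon (by omega)
        have h4 : 100 * (2 * N * k) ≤ N * (100 * v.sum) + 100 * k := by nlinarith
        have h5 : 100 * (2 * N * k) = 200 * (N * k) := by ring
        have h6 : N * (189 * k) = 189 * (N * k) := by ring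
        have h7 : 100 * k ≤ N * k := Nat.mul_le_mul_right k hN
        omega
      omega
    · rw [hsum]
      have h2 : v.sum ≤ 3 * k := by
        by_contra hcon
        push Not at hcon
        have h3 : N * (3 * k) < N * v.sum := Nat.mul_lt_mul_of_pos_left hcon (by omega)
        have h6 : N * (3 * k) = 3 * (N * k) := by ring
        have h5 : 2 * N * k = 2 * (N * k) := by ring
        have h7 : 100 * k ≤ N * k := Nat.mul_le_mul_right k hN
        omega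
      have h3 : 3 * k ≤ (m + 3) * k := Nat.mul_le_mul_right k (by omega)
      have h4 : (m + 3) * (L + k) = (m + 3) * L + (m + 3) * k := by ring
      omega
    · rw [hsum, Nat.cast_add, Nat.cast_add]
      have w1 : |(v.sum : ℝ) - 2 * k| ≤ (k : ℝ) / N := by
        have h1 : (2 : ℝ) * N * k ≤ N * v.sum + k := by exact_mod_cast v2
        have h2 : (N : ℝ) * v.sum ≤ 2 * N * k + k := by exact_mod_cast v3
        rw [abs_le, neg_le_iff_add_nonneg]
        constructor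
        · have : (v.sum : ℝ) - 2 * k + k / N = (N * v.sum + k - 2 * N * k) / N := by
            field_simp
            ring
          rw [this]
          apply div_nonneg _ hNpos.le
          linarith
        · rw [le_div_iff₀ hNpos]
          nlinarith
      have w2 : ((u.sum : ℝ) + v.sum) - 2 * (L + k) = ((u.sum : ℝ) - 2 * L) + ((v.sum : ℝ) - 2 * k) := by ring
      rw [w2]
      refine (abs_add_le _ _).trans ?_
      have w3 : ((L : ℝ) + k) / N = L / N + k / N := add_div _ _ _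
      rw [w3]
      linarith

/-- The sets `Qs`: everything needed later. Induction on `j`; `cc l / 2^|l| ≤ 2^(m+1) + 1/L0 - 1/L_j` by
`cc_append`, `cc_triv` and `3^L/2^|l| ≤ 2^(-0.3 L)`. -/
theorem Qs_prop {N M m L0 : ℕ} (hN : 100 ≤ N) (hm : m ≤ M) (hL : N ≤ L0) (j : ℕ) {l : List ℕ} (hl : l ∈ Qs N M m L0 j) :
    l ∈ words M (Ls N L0 j) ∧ cc l ≤ (2 ^ (m + 1) + 1) * 2 ^ l.sum ∧
      189 * Ls N L0 j ≤ 100 * l.sum ∧ l.sum ≤ (m + 3) * Ls N L0 j ∧
      |(l.sum : ℝ) - 2 * Ls N L0 j| ≤ (Ls N L0 j : ℝ) / N + (m + 2) * L0 := by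
  obtain ⟨h1, h2, h3, h4, h5⟩ := i2_inv hN hm hL j hl
  refine ⟨h1, ?_, h3, h4, h5⟩
  have hpos : 0 < Ls N L0 j := lt_of_lt_of_le (by omega) (Ls_ge N L0 j)
  have h6 : (Ls N L0 j) * cc l ≤ (Ls N L0 j) * ((2 ^ (m + 1) + 1) * 2 ^ l.sum) :=
    (Nat.le_add_right _ _).trans h2
  exact Nat.le_of_mul_le_mul_left h6 hpos

end H78P
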