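import Pool.Agent.Lib.H78P.SkA1
import Pool.Agent.Lib.H78P.SkE1
import Pool.Agent.Lib.H78P.SkE2
import Pool.Agent.Lib.H62w.Mu
import Pool.Agent.Lib.H62w.PathsA

set_option autoImplicit false

/-! Chunk J. A word stays above the line 1.9 i for ever with probability >= c: first letter b, the next m0 letters equal to 3, then low_tail
with deviation growing with m0, summed over the prefixes; the other conditions of GA have probability near 1 (bad_small with N = 100). -/

open Finset
namespace H78P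
open H62w

theorem J_pr_filter (M k : ℕ) (P : List ℕ → Prop) [DecidablePred P] :
    pr M ((words (M + 1) k).filter P) = ∑ l ∈ words (M + 1) k, if P l then pw (M + 1) l else 0 := by
  unfold pr
  rw [sum_filter]

/-- The law of a prefix. -/
theorem J_prefix (M n i m : ℕ) :
    pr M ((words (M + 1) (i + n)).filter (fun l => 10 * H62y.JJ l i + m < 19 * i)) =
      pr M ((words (M + 1) i).filter (fun l => 10 * l.sum + m < 19 * i)) := by
  rw [J_pr_filter, J_pr_filter, L_sum_words_add]
  apply sum_congr rfl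
  intro l hl
  have hlen : l.length = i := (mem_words.1 hl).1
  have h1 : ∀ l' ∈ words (M + 1) n,
      (if 10 * H62y.JJ (l ++ l') i + m < 19 * i then pw (M + 1) (l ++ l') else 0) =
        (if 10 * l.sum + m < 19 * i then pw (M + 1) l else 0) * pw (M + 1) l' := by
    intro l' _
    rw [H62y.JJ_append, hlen, Nat.sub_self, H62y.JJ_zero, add_zero, H62y.JJ_all hlen.le,
      L_pw_append]
    split_ifs
    · rfl
    · ring
  rw [sum_congr rfl h1, ← mul_sum, pw_sum (by omega), mul_one]

theorem J_geom {ρ : ℝ} (h0 : 0 < ρ) (h1 : ρ < 1) (m n : ℕ) :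
    ∑ i ∈ range n, ρ ^ (i + m) ≤ ρ ^ m / (1 - ρ) := by
  have h2 : ∀ i ∈ range n, ρ ^ (i + m) = ρ ^ m * ρ ^ i := fun i _ => by rw [pow_add]; ring
  rw [sum_congr rfl h2, ← mul_sum, geom_sum_eq h1.ne]
  have h3 : 0 < 1 - ρ := by linarith
  rw [mul_div_assoc', ← neg_div_neg_eq, neg_sub]
  apply div_le_div_of_nonneg_right _ h3.le
  have h4 : 0 < ρ ^ n := by positivity
  have h5 : 0 < ρ ^ m := by positivity
  nlinarith

/-- Some prefix is below the line by more than `m / 10`. -/
def Jlow (k m : ℕ) (l : List ℕ) : Prop := ∃ i ∈ range (k + 1), 10 * H62y.JJ l i + m < 19 * i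

instance decJlow (k m : ℕ) (l : List ℕ) : Decidable (Jlow k m l) := by
  unfold Jlow; infer_instance

/-- The bad prefixes. -/
theorem J_bad {ρ : ℝ} (h0 : 0 < ρ) (h1 : ρ < 1) {M : ℕ} (hM : 20 ≤ M)
    (hρ : ∀ M k m : ℕ, 20 ≤ M →
      pr M ((words (M + 1) k).filter (fun l => 10 * l.sum + m < 19 * k)) ≤ ρ ^ (k + m))
    (k m : ℕ) :
    pr M ((words (M + 1) k).filter
      (fun l => Jlow k m l)) ≤ ρ ^ m / (1 - ρ) := by
  refine le_trans ?_ (J_geom h0 h1 m (k + 1))
  have h2 : pr M ((words (M + 1) k).filter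
      (fun l => Jlow k m l)) ≤
      ∑ i ∈ range (k + 1), pr M ((words (M + 1) k).filter
        (fun l => 10 * H62y.JJ l i + m < 19 * i)) := by
    have h3 : ∀ i ∈ range (k + 1), pr M ((words (M + 1) k).filter
        (fun l => 10 * H62y.JJ l i + m < 19 * i)) =
        ∑ l ∈ words (M + 1) k, if 10 * H62y.JJ l i + m < 19 * i then pw (M + 1) l else 0 :=
      fun i _ => J_pr_filter _ _ _
    rw [sum_congr rfl h3, sum_comm, J_pr_filter]
    apply sum_le_sum
    intro l _
    split_ifs with h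
    · obtain ⟨i, hi, hi'⟩ := h
      refine le_trans ?_ (single_le_sum (f := fun i => if 10 * H62y.JJ l i + m < 19 * i then
        pw (M + 1) l else 0) ?_ hi)
      · rw [if_pos hi']
      · intro j _
        show 0 ≤ (if 10 * H62y.JJ l j + m < 19 * j then pw (M + 1) l else 0)
        split_ifs
        · exact L_pw_nonneg _ _
        · exact le_rfl
    · apply sum_nonneg
      intro j _
      split_ifs
      · exact L_pw_nonneg _ _
      · exact le_rfl
  refine h2.trans (sum_le_sum fun i hi => ?_)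
  rw [mem_range] at hi
  obtain ⟨n, rfl⟩ : ∃ n, k = i + n := ⟨k - i, by omega⟩
  rw [J_prefix]
  exact hρ M i m hM

/-- The good continuations. -/
def JG (M k m : ℕ) : Finset (List ℕ) :=
  (TW 100 M k).filter (fun l => ¬ Jlow k m l)

theorem J_good {ρ : ℝ} (h0 : 0 < ρ) (h1 : ρ < 1) {M : ℕ} (hM : 20 ≤ M)
    (hρ : ∀ M k m : ℕ, 20 ≤ M →
      pr M ((words (M + 1) k).filter (fun l => 10 * l.sum + m < 19 * k)) ≤ ρ ^ (k + m))
    (k m : ℕ) : pr M (TW 100 M k) - ρ ^ m / (1 - ρ) ≤ pr M (JG M k m) := by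
  have h2 := J_bad h0 h1 hM hρ k m
  have h3 : pr M (TW 100 M k) ≤ pr M (JG M k m) + pr M ((words (M + 1) k).filter
      (fun l => Jlow k m l)) := by
    unfold pr
    rw [← sum_filter_add_sum_filter_not (TW 100 M k)
      (fun l => ¬ Jlow k m l)]
    apply add_le_add le_rfl
    apply sum_le_sum_of_subset_of_nonneg
    · intro l hl
      rw [mem_filter] at hl ⊢
      obtain ⟨hl1, hl2⟩ := hl
      refine ⟨?_, ?_⟩
      · unfold TW at hl1
        exact words_mono (Nat.le_succ M) k (mem_filter.1 hl1).1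
      · exact not_not.1 hl2
    · intro l _ _
      exact L_pw_nonneg _ _
  linarith

theorem J_mem {M m0 k m b : ℕ} (hM : 3 ≤ M) (hb : b = 2 ∨ b = 3) (hm : m ≤ 11 * m0 + 1)
    {l' : List ℕ} (hl' : l' ∈ JG M k m) :
    (b :: List.replicate m0 3) ++ l' ∈ (GA M (1 + m0 + k)).filter (fun l => l.head? = some b) := by
  unfold JG TW at hl'
  rw [mem_filter, mem_filter, mem_words] at hl'
  obtain ⟨⟨⟨hlen, hlet⟩, hs1, hs2⟩, hpre'⟩ := hl'
  have hpre : ∀ i ∈ range (k + 1), 19 * i ≤ 10 * H62y.JJ l' i + m := by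
    unfold Jlow at hpre'
    push Not at hpre'
    exact hpre'
  have hw0 : (b :: List.replicate m0 3).length = 1 + m0 := by simp; ring
  have hs0 : (b :: List.replicate m0 3).sum = b + 3 * m0 := by simp; ring
  have hw2 : ∀ a ∈ (b :: List.replicate m0 3), 2 ≤ a := by
    intro a ha
    rw [List.mem_cons, List.mem_replicate] at ha
    omega
  have hwM : ∀ a ∈ (b :: List.replicate m0 3), 1 ≤ a ∧ a ≤ M := by
    intro a ha
    rw [List.mem_cons, List.mem_replicate] at ha
    omega
  generalize hw : (b :: List.replicate m0 3) = w at hw0 hs0 hw2 hwM ⊢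
  rw [mem_filter]
  refine ⟨?_, by rw [← hw]; rfl⟩
  unfold GA PG
  rw [mem_filter, mem_filter, mem_words]
  have hsum : (w ++ l').sum = b + 3 * m0 + l'.sum := by rw [List.sum_append, hs0]
  refine ⟨⟨⟨?_, ?_⟩, ?_⟩, ?_, ?_⟩
  · rw [List.length_append, hw0, hlen]
  · intro a ha
    rw [List.mem_append] at ha
    rcases ha with h | h
    · exact hwM a h
    · exact hlet a h
  · intro i hi
    rw [mem_range, List.length_append, hw0, hlen] at hi
    rw [H62y.JJ_append, hw0]
    rcases Nat.lt_or_ge i (1 + m0) with hlt | hge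
    · have h1 := H62y.JJ_step hw2 0 i (Nat.zero_le _) (by omega)
      rw [H62y.JJ_zero] at h1
      omega
    · have h1 : H62y.JJ w i = w.sum := H62y.JJ_all (by omega)
      rw [h1, hs0]
      have h2 := hpre (i - (1 + m0)) (mem_range.2 (by omega))
      omega
  · rw [hsum]; omega
  · rw [hsum]; omega

theorem GA_prob : ∃ c : ℝ, 0 < c ∧ ∃ k0 : ℕ, ∀ M k : ℕ, k0 ≤ k → k ≤ M → ∀ b : ℕ, b = 2 ∨ b = 3 →
    c ≤ pr M ((GA M k).filter (fun l => l.head? = some b)) := by
  obtain ⟨ρ, h0, h1, hρ⟩ := low_tail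
  obtain ⟨C, hC, hTW⟩ := bad_small (N := 100) (by norm_num) 1
  have hr : 0 < 1 - ρ := by linarith
  obtain ⟨m0, hm0⟩ : ∃ m0 : ℕ, ρ ^ m0 < (1 - ρ) / 4 :=
    exists_pow_lt_of_lt_one (by positivity) h1
  have hbad : ρ ^ (11 * m0 + 1) / (1 - ρ) ≤ 1 / 4 := by
    have h2 : ρ ^ (11 * m0 + 1) ≤ ρ ^ m0 := pow_le_pow_of_le_one h0.le h1.le (by omega)
    rw [div_le_iff₀ hr]
    linarith
  obtain ⟨k1, hk1⟩ : ∃ k1 : ℕ, 4 * C ≤ k1 := exists_nat_ge _
  refine ⟨1 / 2 ^ (3 + 3 * m0) * (1 / 2), by positivity, 1 + m0 + k1 + 20, ?_⟩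
  intro M k hk hkM b hb
  obtain ⟨k', rfl⟩ : ∃ k', k = 1 + m0 + k' := ⟨k - (1 + m0), by omega⟩
  have hk' : k1 + 20 ≤ k' := by omega
  have hgood : 1 / 2 ≤ pr M (JG M k' (11 * m0 + 1)) := by
    have h2 := J_good h0 h1 (M := M) (by omega) hρ k' (11 * m0 + 1)
    have h3 := hTW M k' (by omega) (by omega)
    rw [pow_one] at h3
    have h4 : C / k' ≤ 1 / 4 := by
      have h5 : (0 : ℝ) < k' := by
        have : 0 < k' := by omega
        exact_mod_cast this
      rw [div_le_iff₀ h5]
      have h6 : ((k1 : ℕ) : ℝ) ≤ k' := by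
        have : k1 ≤ k' := by omega
        exact_mod_cast this
      linarith
    linarith
  set w := b :: List.replicate m0 3 with hw
  have hwmem : w ∈ words M (1 + m0) := by
    rw [mem_words]
    refine ⟨by rw [hw]; simp; ring, ?_⟩
    intro a ha
    rw [hw, List.mem_cons, List.mem_replicate] at ha
    omega
  have hpww : (1 : ℝ) / 2 ^ (3 + 3 * m0) ≤ pw (M + 1) w := by
    rw [pw_of_words hwmem]
    have hs : w.sum ≤ 3 + 3 * m0 := by
      rw [hw]
      simp only [List.sum_cons, List.sum_replicate, smul_eq_mul]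
      omega
    exact one_div_le_one_div_of_le (by positivity) (pow_le_pow_right₀ (by norm_num) hs)
  have hsub : (JG M k' (11 * m0 + 1)).image (fun l' => w ++ l') ⊆
      (GA M (1 + m0 + k')).filter (fun l => l.head? = some b) := by
    intro l hl
    rw [mem_image] at hl
    obtain ⟨l', hl', rfl⟩ := hl
    exact J_mem (by omega) hb le_rfl hl'
  calc (1 : ℝ) / 2 ^ (3 + 3 * m0) * (1 / 2)
      ≤ pw (M + 1) w * pr M (JG M k' (11 * m0 + 1)) := by
        exact mul_le_mul hpww hgood (by norm_num) (L_pw_nonneg _ _)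
    _ = ∑ l ∈ (JG M k' (11 * m0 + 1)).image (fun l' => w ++ l'), pw (M + 1) l := by
        rw [sum_image (by
          intro x _ y _ hxy
          exact List.append_cancel_left hxy)]
        unfold pr
        rw [mul_sum]
        exact sum_congr rfl fun l' _ => (L_pw_append _ _ _).symm
    _ ≤ pr M ((GA M (1 + m0 + k')).filter (fun l => l.head? = some b)) := by
        unfold pr
        exact sum_le_sum_of_subset_of_nonneg hsub fun l _ _ => L_pw_nonneg _ _

end H78P
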