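import Pool.Agent.Lib.H78P.SkA2
import Pool.Agent.Lib.H78P.SkJ

set_option autoImplicit false

/-! Chunk K. The sum over the residues z = v mod 3 of sm (GA M m) (FF M p) is at least 3^N * pr(GA, first letter of the right parity), N = m+m/100
(v = 1: first letter 2, v = 2: first letter 3), so some value is at least c. -/

open Finset
namespace H78P
open H62w

theorem K_GA_sub (M m : ℕ) : GA M m ⊆ words M m :=
  (filter_subset _ _).trans (filter_subset _ _)

theorem K_sm_zero {G : Finset (List ℕ)} {h : ℕ → ℝ} {z : ℕ} (hG : ∀ l ∈ G, ¬ va l z) :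
    sm G h z = 0 := by
  unfold sm
  rw [filter_eq_empty_iff.2 fun l hl => hG l hl, sum_empty]

/-- In both unit classes there is a successful residue. -/
theorem exists_OK : ∃ c : ℝ, 0 < c ∧ ∃ k0 : ℕ, ∀ M m : ℕ, k0 ≤ m → m ≤ M → ∀ v : ℕ, v = 1 ∨ v = 2 →
    ∃ z : ℕ, z < 3 ^ (m + m / 100) ∧ z % 3 = v ∧ OKz M m c z := by
  obtain ⟨c, hc, k0, h⟩ := GA_prob
  refine ⟨c, hc, k0 + 1, fun M m hm hmM v hv => ?_⟩
  set N := m + m / 100 with hN
  by_contra hcon
  push Not at hcon
  obtain ⟨b, hb, hbv⟩ : ∃ b, (b = 2 ∨ b = 3) ∧ ∀ y, 2 ^ b * y % 3 = 1 → y % 3 = v := by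
    rcases hv with rfl | rfl
    · exact ⟨2, Or.inl rfl, fun y hy => by omega⟩
    · exact ⟨3, Or.inr rfl, fun y hy => by omega⟩
  have hp := h M m (by omega) hmM b hb
  set G := (GA M m).filter (fun l => l.head? = some b) with hGdef
  have hGsub : G ⊆ GA M m := filter_subset _ _
  have hG : G ⊆ words M m := hGsub.trans (K_GA_sub M m)
  have h1 := mn_sm hG (FF_per M (m / 100))
  rw [mn_FF (by omega : 1 ≤ M), mul_one] at h1
  rw [← h1] at hp
  have hzero : ∀ z, z % 3 ≠ v → sm G (FF M (m / 100)) z = 0 := by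
    intro z hz
    refine K_sm_zero fun l hl hva => hz ?_
    have hl2 := (mem_filter.1 hl).2
    cases l with
    | nil => simp at hl2
    | cons a l =>
      simp only [List.head?_cons, Option.some.injEq] at hl2
      subst hl2
      exact hbv z hva.1
  have hle : ∀ z ∈ range (3 ^ N), sm G (FF M (m / 100)) z ≤ c := by
    intro z hz
    by_cases hzv : z % 3 = v
    · have h2 := hcon z (mem_range.1 hz) hzv
      unfold OKz at h2
      push Not at h2
      have h3 := sm_mono hGsub (fun z => FF_nonneg M (m / 100) z) (fun z => le_refl (FF M (m / 100) z)) z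
      linarith
    · rw [hzero z hzv]
      exact hc.le
  have h0 : sm G (FF M (m / 100)) 0 < c := by
    rw [hzero 0 (by rcases hv with rfl | rfl <;> norm_num)]
    exact hc
  have hsum : ∑ z ∈ range (3 ^ N), sm G (FF M (m / 100)) z < ∑ _z ∈ range (3 ^ N), c :=
    sum_lt_sum hle ⟨0, mem_range.2 (pow_pos (by norm_num) _), h0⟩
  rw [sum_const, card_range, nsmul_eq_mul] at hsum
  unfold mn at hp
  have h3 : (0 : ℝ) < 3 ^ (m + m / 100) := by positivity
  rw [le_div_iff₀ h3] at hp
  rw [hN] at hsum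
  push_cast at hsum
  linarith

/-- Success depends only on the residue mod `3^(m + m/100)`. (chunk K) -/
theorem OKz_mod (M m : ℕ) (c : ℝ) (z : ℕ) : OKz M m c z ↔ OKz M m c (z % 3 ^ (m + m / 100)) := by
  unfold OKz
  rw [← per_sm (K_GA_sub M m) (FF_per M (m / 100)) z]

end H78P
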