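import Pool.Agent.Lib.H78P.SkF2
import Pool.Agent.Lib.H78P.SkI1
import Pool.Agent.Lib.H78P.SkK

set_option autoImplicit false

/-! Chunk L. After a success the prefix class keeps a positive mass for ever. c from exists_OK, m so large that the loss in multi (N=100, A=1, B=2,
V=5, Q j = GA M (Ls 100 m j)) is at most c/4. For n >= n0 let j be maximal with Ls (j+1) <= n; k = n - Ls j satisfies L/100 <= k < L/40;
last step: step_err with q = 1, FF M 1 <= 3 and = 0 at multiples of 3. -/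

open Finset
namespace H78P
open H62w

theorem L_Ls_unbounded {m : ℕ} (hm : 100 ≤ m) (j : ℕ) : m + j ≤ Ls 100 m j := by
  induction j with
  | zero => exact le_rfl
  | succ j ih =>
    have h1 : Ls 100 m (j + 1) = Ls 100 m j + Ls 100 m j / 100 := rfl
    omega

/-- the stage just before `n` -/
theorem L_stage {m n : ℕ} (hm : 100 ≤ m) (hn : Ls 100 m 1 ≤ n) :
    ∃ j, Ls 100 m (j + 1) ≤ n ∧ n < Ls 100 m (j + 2) := by
  classical
  have hex : ∃ j, n < Ls 100 m j := ⟨n, by have := L_Ls_unbounded hm n; omega⟩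
  have h1 := Nat.find_spec hex
  have h2 : ∀ i, i < Nat.find hex → Ls 100 m i ≤ n := fun i hi => not_lt.mp (Nat.find_min hex hi)
  set J := Nat.find hex with hJ
  have h3 : 2 ≤ J := by
    by_contra hcon
    have h4 : J ≤ 1 := by omega
    have h5 := Ls_mono 100 m h4
    omega
  refine ⟨J - 2, h2 _ (by omega), ?_⟩
  have h4 : J - 2 + 2 = J := by omega
  rw [h4]
  exact h1

theorem L_FF_one (M z : ℕ) : FF M 1 z ≤ 3 := by
  have := FF_le M 1 z
  rwa [pow_one] at this

/-- the lookahead of length one is bounded by three times the indicator of units -/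
theorem L_sm_le (M n z : ℕ) : sm (GA M n) (FF M 1) z ≤ 3 * SPG M n z := by
  unfold sm SPG
  rw [mul_sum]
  have h1 : ∑ l ∈ (GA M n).filter (fun l => va l z), ww l * FF M 1 (en l z)
      = ∑ l ∈ ((GA M n).filter (fun l => va l z)).filter (fun l => en l z % 3 ≠ 0), ww l * FF M 1 (en l z) := by
    rw [sum_filter (fun l => en l z % 3 ≠ 0)]
    apply sum_congr rfl
    intro l _
    split_ifs with h
    · rfl
    · push Not at h
      rw [FF_dvd M 1 _ le_rfl h, mul_zero]
  rw [h1]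
  have h2 : ∀ l ∈ ((GA M n).filter (fun l => va l z)).filter (fun l => en l z % 3 ≠ 0),
      ww l * FF M 1 (en l z) ≤ 3 * ww l := by
    intro l _
    have := mul_le_mul_of_nonneg_left (L_FF_one M (en l z)) (ww_pos l).le
    linarith
  refine (sum_le_sum h2).trans ?_
  apply sum_le_sum_of_subset_of_nonneg
  · intro l hl
    rw [mem_filter, mem_filter, GA, mem_filter] at hl
    rw [mem_filter]
    exact ⟨hl.1.1.1, hl.1.2, hl.2⟩
  · intro l _ _
    have := (ww_pos l).le
    positivity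

theorem after : ∃ c : ℝ, 0 < c ∧ ∃ m n0 : ℕ, 100 ≤ m ∧ ∀ M : ℕ, m ≤ M →
    (∀ v : ℕ, v = 1 ∨ v = 2 → ∃ z : ℕ, z < 3 ^ (m + m / 100) ∧ z % 3 = v ∧ OKz M m c z) ∧
    (∀ n z : ℕ, n0 ≤ n → n ≤ M → OKz M m c z → c / 6 ≤ SPG M n z) := by
  obtain ⟨c, hc, k0, hOK⟩ := exists_OK
  obtain ⟨K, hK, hmulti⟩ := multi (le_refl 100) 1
  obtain ⟨K', hK', hstep⟩ := step_err (le_refl 100) 1
  obtain ⟨m1, hm1⟩ := exists_nat_ge (24 * K / (c / 4))
  obtain ⟨m2, hm2⟩ := exists_nat_ge (24 * K' / (c / 4))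
  set m : ℕ := max (max 100 k0) (max m1 m2) with hm
  have hm100 : 100 ≤ m := (le_max_left _ _).trans (le_max_left _ _)
  have hmk0 : k0 ≤ m := (le_max_right _ _).trans (le_max_left _ _)
  have hmm1 : m1 ≤ m := (le_max_left _ _).trans (le_max_right _ _)
  have hmm2 : m2 ≤ m := (le_max_right _ _).trans (le_max_right _ _)
  have hmp : (0 : ℝ) < m := by exact_mod_cast (by omega : 0 < m)
  have e1 : 24 * K / m ≤ c / 4 := by
    rw [div_le_iff₀ hmp]
    rw [div_le_iff₀ (by positivity)] at hm1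
    have h1 : (m1 : ℝ) ≤ m := by exact_mod_cast hmm1
    nlinarith
  have e2 : ∀ L : ℕ, m ≤ L → 24 * K' / L ≤ c / 4 := by
    intro L hL
    have hLp : (0 : ℝ) < L := by exact_mod_cast (by omega : 0 < L)
    rw [div_le_iff₀ hLp]
    rw [div_le_iff₀ (by positivity)] at hm2
    have h1 : (m2 : ℝ) ≤ L := by exact_mod_cast hmm2.trans hL
    nlinarith
  refine ⟨c, hc, m, Ls 100 m 1, hm100, fun M hM => ⟨fun v hv => hOK M m hmk0 hM v hv, fun n z hn hnM hz => ?_⟩⟩
  obtain ⟨j, hj1, hj2⟩ := L_stage hm100 hn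
  have s1 : Ls 100 m (j + 1) = Ls 100 m j + Ls 100 m j / 100 := rfl
  have s2 : Ls 100 m (j + 2) = Ls 100 m (j + 1) + Ls 100 m (j + 1) / 100 := rfl
  have hge := Ls_ge 100 m j
  set L := Ls 100 m j with hL
  have hLM : L ≤ M := by omega
  -- all stages
  have h1 := hmulti M m 2 5 z (fun j => GA M (Ls 100 m j)) hm100 (fun i _ l hl => GA_prop hl)
    (fun i l hl l' hl' => by
      have h2 : 40 * (Ls 100 m i / 100) ≤ Ls 100 m i := by omega
      exact GA_append h2 hl hl') j hLM
  have h0 : Ls 100 m 0 = m := rfl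
  rw [h0, ← hL, pow_one] at h1
  -- last step
  set k := n - L with hk
  have hkn : L + k = n := by omega
  have h2 := hstep M L 2 5 z k (L / 100) 1 (GA M L) (by omega) hLM (by omega) le_rfl (by omega) (by omega)
    (fun l hl => GA_prop hl)
  rw [pow_one] at h2
  have h3 : sm (GA M L) (sm (TW 100 M k) (FF M 1)) z ≤ sm (GA M n) (FF M 1) z := by
    refine sm_append (L := L) (k := k) (fun l hl => ?_) (fun l hl => ?_) (fun l hl l' hl' => ?_)
      (fun z => FF_nonneg M _ z) z
    · exact (mem_words.mp (GA_prop hl).1).1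
    · rw [TW, mem_filter] at hl
      exact (mem_words.mp hl.1).1
    · rw [← hkn]
      exact GA_append (by omega) hl hl'
  have h4 := L_sm_le M n z
  have h5 : c ≤ sm (GA M m) (FF M (m / 100)) z := hz
  have h6 : K * ((5 : ℕ) + 1 : ℝ) * ((2 : ℕ) + 2 : ℝ) / m = 24 * K / m := by push_cast; ring
  have h7 : K' * ((5 : ℕ) + 1 : ℝ) * ((2 : ℕ) + 2 : ℝ) / L = 24 * K' / L := by push_cast; ring
  rw [h6] at h1
  rw [h7] at h2
  have h8 := e2 L hge
  linarith

end H78P
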