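import Pool.Agent.Lib.H78P.SkA1
import Pool.Agent.Lib.H62w.Paths

set_option autoImplicit false

/-! Chunk M1. Waiting words: a word with letters in `{2..7}` from every unit to a unit, and the mass
of the prefix class after such a word. -/

open Finset
namespace H78P
open H62w

theorem M1_va_mod {m : ℕ} {l : List ℕ} (hl : l.length = m) {y : ℕ} (h : va l (y % 3 ^ (m + 1)))
    (hu : en l (y % 3 ^ (m + 1)) % 3 ≠ 0) : va l y ∧ en l y % 3 ≠ 0 := by
  have h1 := en_add l (y % 3 ^ (m + 1)) (y / 3 ^ (m + 1)) h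
  rw [hl, Nat.mod_add_div] at h1
  refine ⟨h1.1, ?_⟩
  rw [h1.2, mul_assoc, Nat.add_mul_mod_self_left]
  exact hu

theorem M1_mod_three {m y : ℕ} (hy : y % 3 ≠ 0) : y % 3 ^ (m + 1) % 3 ≠ 0 := by
  rwa [Nat.mod_mod_of_dvd y (dvd_pow_self 3 (Nat.succ_ne_zero m))]

/-- A word of length `m` with letters in `{2..7}` from `y` to a unit, depending only on `y` mod `3^(m+1)`. (H62w.exists_word) -/
theorem wait_word (m : ℕ) : ∃ f : ℕ → List ℕ, ∀ y : ℕ, y % 3 ≠ 0 → f y = f (y % 3 ^ (m + 1)) ∧ (f y).length = m ∧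
    (∀ a ∈ f y, 2 ≤ a ∧ a ≤ 7) ∧ va (f y) y ∧ en (f y) y % 3 ≠ 0 := by
  classical
  have key : ∀ r : ℕ, ∃ l : List ℕ, r % 3 ≠ 0 → l.length = m ∧
      (∀ a ∈ l, 2 ≤ a ∧ a ≤ 7) ∧ va l r ∧ en l r % 3 ≠ 0 := by
    intro r
    by_cases hr : r % 3 ≠ 0
    · obtain ⟨l, hl⟩ := exists_word m r hr
      exact ⟨l, fun _ => hl⟩
    · exact ⟨[], fun h => absurd h hr⟩
  choose g hg using key
  refine ⟨fun y => g (y % 3 ^ (m + 1)), fun y hy => ?_⟩
  obtain ⟨h1, h2, h3, h4⟩ := hg (y % 3 ^ (m + 1)) (M1_mod_three hy)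
  obtain ⟨h5, h6⟩ := M1_va_mod h1 h3 h4
  refine ⟨?_, h1, h2, h5, h6⟩
  show g (y % 3 ^ (m + 1)) = g (y % 3 ^ (m + 1) % 3 ^ (m + 1))
  rw [Nat.mod_mod]

theorem M1_ww_ge {m : ℕ} {l : List ℕ} (hl : l.length = m) (h27 : ∀ a ∈ l, 2 ≤ a ∧ a ≤ 7) :
    (3 / 128 : ℝ) ^ m ≤ ww l := by
  have hs := (sum_bounds h27).2
  unfold ww
  rw [hl, div_pow]
  refine div_le_div_of_nonneg_left (by positivity) (by positivity) ?_
  have h128 : (128 : ℝ) = 2 ^ 7 := by norm_num
  rw [h128, ← pow_mul]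
  exact pow_le_pow_right₀ (by norm_num) (by rw [hl] at hs; exact hs)

theorem M1_PC_append {m : ℕ} {l l' : List ℕ} (hl : l.length = m) (h2 : ∀ a ∈ l, 2 ≤ a)
    (h' : PC l') : PC (l ++ l') := by
  intro i hi
  rw [mem_range, List.length_append, hl] at hi
  rw [H62y.JJ_append, hl]
  have hstep := H62y.JJ_step h2
  rcases Nat.lt_or_ge i m with him | him
  · have h3 := hstep 0 i (Nat.zero_le _) (by omega)
    rw [H62y.JJ_zero] at h3
    omega
  · have h3 := hstep 0 m (Nat.zero_le _) (by omega)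
    have h4 := h' (i - m) (mem_range.2 (by omega))
    rw [H62y.JJ_zero] at h3
    have h5 : H62y.JJ l i = l.sum := H62y.JJ_all (by omega)
    have h6 : H62y.JJ l m = l.sum := H62y.JJ_all (by omega)
    omega

/-- Mass after `f y`: `SPG M (m+n) y ≥ (3/128)^m SPG M n (en (f y) y)`. -/
theorem SPG_wait {M m n y : ℕ} (hM : 7 ≤ M) {l : List ℕ} (hl : l.length = m) (h27 : ∀ a ∈ l, 2 ≤ a ∧ a ≤ 7)
    (hv : va l y) : (3 / 128 : ℝ) ^ m * SPG M n (en l y) ≤ SPG M (m + n) y := by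
  unfold SPG
  have hwl := M1_ww_ge hl h27
  have hinj : Set.InjOn (fun l' : List ℕ => l ++ l')
      ((PG M n).filter (fun l' => va l' (en l y) ∧ en l' (en l y) % 3 ≠ 0) : Set (List ℕ)) :=
    fun a _ b _ h => List.append_cancel_left h
  rw [mul_sum]
  calc ∑ l' ∈ (PG M n).filter (fun l' => va l' (en l y) ∧ en l' (en l y) % 3 ≠ 0), (3 / 128 : ℝ) ^ m * ww l'
      ≤ ∑ l' ∈ (PG M n).filter (fun l' => va l' (en l y) ∧ en l' (en l y) % 3 ≠ 0), ww (l ++ l') := by
        refine sum_le_sum fun l' _ => ?_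
        rw [ww_append]
        exact mul_le_mul_of_nonneg_right hwl (ww_pos l').le
    _ = ∑ w ∈ ((PG M n).filter (fun l' => va l' (en l y) ∧ en l' (en l y) % 3 ≠ 0)).image
          (fun l' => l ++ l'), ww w := (sum_image hinj).symm
    _ ≤ ∑ w ∈ (PG M (m + n)).filter (fun w => va w y ∧ en w y % 3 ≠ 0), ww w := by
        refine sum_le_sum_of_subset_of_nonneg ?_ fun w _ _ => (ww_pos w).le
        intro w hw
        rw [mem_image] at hw
        obtain ⟨l', hl', rfl⟩ := hw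
        rw [mem_filter, PG, mem_filter, mem_words] at hl'
        obtain ⟨⟨⟨h1, h2⟩, h3⟩, h4, h5⟩ := hl'
        rw [mem_filter, PG, mem_filter, mem_words]
        refine ⟨⟨⟨?_, ?_⟩, M1_PC_append hl (fun a ha => (h27 a ha).1) h3⟩, ?_, ?_⟩
        · rw [List.length_append, hl, h1]
        · intro a ha
          rcases List.mem_append.1 ha with ha | ha
          · have := h27 a ha
            omega
          · exact h2 a ha
        · rw [va_append]
          exact ⟨hv, h4⟩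
        · rw [en_append]
          exact h5

end H78P
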