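import Pool.Agent.Lib.H78P.SkL
import Pool.Agent.Lib.H78P.SkM1
import Pool.Agent.Lib.H62w.PathsA

set_option autoImplicit false

/-! Chunk M2. Waiting with C log U tries. -/

open Finset
namespace H78P
open H62w

/-- `i` tries fail at `y`. -/
def M2_fail (P : ℕ → Prop) (f : ℕ → List ℕ) : ℕ → ℕ → Prop
  | 0, _ => True
  | i + 1, y => ¬ P y ∧ M2_fail P f i (en (f y) y)

theorem M2_fail_congr {P : ℕ → Prop} {f : ℕ → List ℕ} {N : ℕ} (hP : ∀ z, P z ↔ P (z % 3 ^ N))
    (hf : ∀ y : ℕ, y % 3 ≠ 0 → f y = f (y % 3 ^ (N + 1)) ∧ (f y).length = N ∧ va (f y) y ∧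
      en (f y) y % 3 ≠ 0) (i : ℕ) :
    ∀ y u : ℕ, y % 3 ≠ 0 → (M2_fail P f i (y + 3 ^ (i * N + 1) * u) ↔ M2_fail P f i y) := by
  induction i with
  | zero => intro y u _; exact Iff.rfl
  | succ i ih =>
    intro y u hy
    obtain ⟨h1, h2, h3, h4⟩ := hf y hy
    have hexp : 3 ^ ((i + 1) * N + 1) * u = 3 ^ (N + 1) * (3 ^ (i * N) * u) := by
      rw [← mul_assoc, ← pow_add]
      congr 2
      ring
    have hy' : (y + 3 ^ (N + 1) * (3 ^ (i * N) * u)) % 3 ≠ 0 := by
      rw [pow_succ', mul_assoc, Nat.add_mul_mod_self_left]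
      exact hy
    have hfy : f (y + 3 ^ (N + 1) * (3 ^ (i * N) * u)) = f y := by
      rw [(hf _ hy').1, Nat.add_mul_mod_self_left, ← h1]
    have hPy : P (y + 3 ^ (N + 1) * (3 ^ (i * N) * u)) ↔ P y := by
      rw [hP, pow_succ, mul_assoc, Nat.add_mul_mod_self_left, ← hP]
    have hen := (en_add (f y) y (3 ^ (i * N) * u) h3).2
    rw [h2] at hen
    rw [hexp]
    unfold M2_fail
    rw [hPy, hfy, hen]
    have h5 : en (f y) y + 3 * 2 ^ (f y).sum * (3 ^ (i * N) * u) =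
        en (f y) y + 3 ^ (i * N + 1) * (2 ^ (f y).sum * u) := by
      rw [pow_succ]; ring
    rw [h5, ih _ _ h4]

open Classical in
/-- The residues that fail `i` times. -/
noncomputable def M2_F (P : ℕ → Prop) (f : ℕ → List ℕ) (N i v : ℕ) : Finset ℕ :=
  (range (3 ^ (i * N + 1))).filter (fun y => y % 3 = v ∧ M2_fail P f i y)

theorem M2_card {P : ℕ → Prop} {f : ℕ → List ℕ} {N : ℕ} (hP : ∀ z, P z ↔ P (z % 3 ^ N))
    (hf : ∀ y : ℕ, y % 3 ≠ 0 → f y = f (y % 3 ^ (N + 1)) ∧ (f y).length = N ∧ va (f y) y ∧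
      en (f y) y % 3 ≠ 0)
    (hex : ∀ v : ℕ, v = 1 ∨ v = 2 → ∃ z : ℕ, z < 3 ^ N ∧ z % 3 = v ∧ P z) (i : ℕ) :
    ∀ v : ℕ, v = 1 ∨ v = 2 → (M2_F P f N i v).card ≤ (3 ^ N - 1) ^ i := by
  classical
  induction i with
  | zero =>
    intro v hv
    unfold M2_F
    rw [pow_zero]
    have : ((range (3 ^ (0 * N + 1))).filter (fun y => y % 3 = v ∧ M2_fail P f 0 y)) ⊆ {v} := by
      intro y hy
      rw [mem_filter, mem_range] at hy
      rw [mem_singleton]
      have h1 : y < 3 := by simpa using hy.1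
      omega
    exact (card_le_card this).trans (by simp)
  | succ i ih =>
    intro v hv
    obtain ⟨z0, hz1, hz2, hz3⟩ := hex v hv
    have hR : ((range (3 ^ (N + 1))).filter (fun r => r % 3 = v ∧ ¬ P r)).card ≤ 3 ^ N - 1 := by
      have h1 : ((range (3 ^ N)).erase (z0 / 3)).card = 3 ^ N - 1 := by
        rw [card_erase_of_mem, card_range]
        rw [mem_range]
        omega
      rw [← h1]
      refine card_le_card_of_injOn (fun r => r / 3) ?_ ?_
      · intro r hr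
        rw [mem_coe, mem_filter, mem_range] at hr
        rw [mem_coe, mem_erase, mem_range]
        refine ⟨?_, ?_⟩
        · intro h
          have h' : r / 3 = z0 / 3 := h
          have : r = z0 := by omega
          exact hr.2.2 (this ▸ hz3)
        · have h2 := hr.1
          rw [pow_succ] at h2
          show r / 3 < 3 ^ N
          omega
      · intro r hr r' hr' h
        rw [mem_coe, mem_filter, mem_range] at hr hr'
        simp only at h
        omega
    have hmaps : ∀ y ∈ M2_F P f N (i + 1) v, y % 3 ^ (N + 1) ∈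
        ((range (3 ^ (N + 1))).filter (fun r => r % 3 = v ∧ ¬ P r)) := by
      intro y hy
      unfold M2_F at hy
      rw [mem_filter, mem_range] at hy
      rw [mem_filter, mem_range]
      refine ⟨Nat.mod_lt _ (by positivity), ?_, ?_⟩
      · rw [Nat.mod_mod_of_dvd _ (dvd_pow_self 3 (by omega))]; exact hy.2.1
      · have h1 : ¬ P y := by
          have := hy.2.2
          unfold M2_fail at this
          exact this.1
        intro h2
        apply h1
        rw [hP] at h2 ⊢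
        rwa [Nat.mod_mod_of_dvd _ (pow_dvd_pow 3 (by omega))] at h2
    have hfib : ∀ r ∈ ((range (3 ^ (N + 1))).filter (fun r => r % 3 = v ∧ ¬ P r)),
        ((M2_F P f N (i + 1) v).filter (fun y => y % 3 ^ (N + 1) = r)).card ≤ (3 ^ N - 1) ^ i := by
      intro r hr
      rw [mem_filter, mem_range] at hr
      have hr3 : r % 3 ≠ 0 := by omega
      obtain ⟨h1, h2, h3, h4⟩ := hf r hr3
      have hv' : en (f r) r % 3 = 1 ∨ en (f r) r % 3 = 2 := by omega
      refine le_trans ?_ (ih (en (f r) r % 3) hv')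
      have hdec : ∀ y, y % 3 ^ (N + 1) = r → y = r + 3 ^ (N + 1) * (y / 3 ^ (N + 1)) := by
        intro y hy
        have := Nat.mod_add_div y (3 ^ (N + 1))
        rw [hy] at this
        exact this.symm
      have hen : ∀ y, y % 3 ^ (N + 1) = r →
          en (f r) y = en (f r) r + 3 * 2 ^ (f r).sum * (y / 3 ^ (N + 1)) := by
        intro y hy
        have h5 := (en_add (f r) r (y / 3 ^ (N + 1)) h3).2
        rw [h2, ← hdec y hy] at h5
        exact h5
      have hdvd : 3 ∣ 3 ^ (i * N + 1) := dvd_pow_self 3 (by omega)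
      refine card_le_card_of_injOn (fun y => en (f r) y % 3 ^ (i * N + 1)) ?_ ?_
      · intro y hy
        rw [mem_coe, mem_filter] at hy
        unfold M2_F at hy
        rw [mem_filter, mem_range] at hy
        obtain ⟨⟨hy1, hy2, hy3⟩, hy4⟩ := hy
        have hy5 : y % 3 ≠ 0 := by omega
        have hfy : f y = f r := by rw [(hf y hy5).1, hy4]
        unfold M2_F
        rw [mem_coe, mem_filter, mem_range]
        refine ⟨Nat.mod_lt _ (by positivity), ?_, ?_⟩
        · simp only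
          rw [Nat.mod_mod_of_dvd _ hdvd, hen y hy4, mul_assoc, Nat.add_mul_mod_self_left]
        · have h6 : M2_fail P f i (en (f y) y) := by
            unfold M2_fail at hy3
            exact hy3.2
          rw [hfy] at h6
          simp only
          have h7 : en (f r) y % 3 ≠ 0 := by
            rw [hen y hy4, mul_assoc, Nat.add_mul_mod_self_left]; exact h4
          have h8 : en (f r) y % 3 ^ (i * N + 1) % 3 ≠ 0 := by
            rw [Nat.mod_mod_of_dvd _ hdvd]; exact h7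
          rw [← M2_fail_congr hP hf i _ (en (f r) y / 3 ^ (i * N + 1)) h8, Nat.mod_add_div]
          exact h6
      · intro y hy y' hy' h
        rw [mem_coe, mem_filter] at hy hy'
        unfold M2_F at hy hy'
        rw [mem_filter, mem_range] at hy hy'
        simp only at h
        rw [hen y hy.2, hen y' hy'.2] at h
        have e1 := Nat.ModEq.add_left_cancel' _ (show en (f r) r + 3 * 2 ^ (f r).sum * (y / 3 ^ (N + 1)) ≡
          en (f r) r + 3 * 2 ^ (f r).sum * (y' / 3 ^ (N + 1)) [MOD 3 ^ (i * N + 1)] from h)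
        rw [mul_assoc, mul_assoc, pow_succ', Nat.ModEq, Nat.mul_mod_mul_left, Nat.mul_mod_mul_left] at e1
        have e2 : 2 ^ (f r).sum * (y / 3 ^ (N + 1)) ≡ 2 ^ (f r).sum * (y' / 3 ^ (N + 1)) [MOD 3 ^ (i * N)] :=
          Nat.eq_of_mul_eq_mul_left (by norm_num) e1
        have e3 : y / 3 ^ (N + 1) ≡ y' / 3 ^ (N + 1) [MOD 3 ^ (i * N)] := by
          refine Nat.ModEq.cancel_left_of_coprime ?_ e2
          exact Nat.Coprime.pow _ _ (by norm_num)
        have hlt : ∀ w, w < 3 ^ ((i + 1) * N + 1) → w / 3 ^ (N + 1) < 3 ^ (i * N) := by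
          intro w hw
          rw [Nat.div_lt_iff_lt_mul (by positivity), ← pow_add]
          have : i * N + (N + 1) = (i + 1) * N + 1 := by ring
          rwa [this]
        have e4 : y / 3 ^ (N + 1) % 3 ^ (i * N) = y' / 3 ^ (N + 1) % 3 ^ (i * N) := e3
        rw [Nat.mod_eq_of_lt (hlt y hy.1.1), Nat.mod_eq_of_lt (hlt y' hy'.1.1)] at e4
        rw [hdec y hy.2, hdec y' hy'.2, e4]
    have := card_le_mul_card_image_of_maps_to hmaps _ hfib
    calc (M2_F P f N (i + 1) v).card ≤ _ := this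
      _ ≤ (3 ^ N - 1) ^ i * (3 ^ N - 1) := Nat.mul_le_mul_left _ hR
      _ = (3 ^ N - 1) ^ (i + 1) := (pow_succ _ _).symm

open Classical in
theorem M2_count {P : ℕ → Prop} {f : ℕ → List ℕ} {N : ℕ} (hP : ∀ z, P z ↔ P (z % 3 ^ N))
    (hf : ∀ y : ℕ, y % 3 ≠ 0 → f y = f (y % 3 ^ (N + 1)) ∧ (f y).length = N ∧ va (f y) y ∧
      en (f y) y % 3 ≠ 0)
    (hex : ∀ v : ℕ, v = 1 ∨ v = 2 → ∃ z : ℕ, z < 3 ^ N ∧ z % 3 = v ∧ P z) {K U : ℕ} (hKU : K * N ≤ U)
    (v : ℕ) (hv : v = 1 ∨ v = 2) :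
    ((range (3 ^ (U + 1))).filter (fun y => y % 3 = v ∧ M2_fail P f K y)).card ≤
      3 ^ (U - K * N) * (3 ^ N - 1) ^ K := by
  refine le_trans ?_ (Nat.mul_le_mul_left _ (M2_card hP hf hex K v hv))
  have hdvd : 3 ∣ 3 ^ (K * N + 1) := dvd_pow_self 3 (by omega)
  refine card_le_mul_card_image_of_maps_to (f := fun y => y % 3 ^ (K * N + 1)) ?_ _ ?_
  · intro y hy
    rw [mem_filter, mem_range] at hy
    unfold M2_F
    rw [mem_filter, mem_range]
    refine ⟨Nat.mod_lt _ (by positivity), ?_, ?_⟩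
    · rw [Nat.mod_mod_of_dvd _ hdvd]; exact hy.2.1
    · have h8 : y % 3 ^ (K * N + 1) % 3 ≠ 0 := by
        rw [Nat.mod_mod_of_dvd _ hdvd]; omega
      rw [← M2_fail_congr hP hf K _ (y / 3 ^ (K * N + 1)) h8, Nat.mod_add_div]
      exact hy.2.2
  · intro r _
    have : 3 ^ (U - K * N) = (range (3 ^ (U - K * N))).card := (card_range _).symm
    rw [this]
    refine card_le_card_of_injOn (fun y => y / 3 ^ (K * N + 1)) ?_ ?_
    · intro y hy
      rw [mem_coe, mem_filter, mem_filter, mem_range] at hy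
      rw [mem_coe, mem_range, Nat.div_lt_iff_lt_mul (by positivity), ← pow_add]
      have h1 : U - K * N + (K * N + 1) = U + 1 := by omega
      rw [h1]
      exact hy.1.1
    · intro y hy y' hy' h
      rw [mem_coe, mem_filter] at hy hy'
      simp only at h
      rw [← Nat.mod_add_div y (3 ^ (K * N + 1)), ← Nat.mod_add_div y' (3 ^ (K * N + 1)), hy.2, hy'.2, h]

theorem M2_mass {M N n0 : ℕ} {c : ℝ} (hc : 0 < c) (hM : 7 ≤ M) {P : ℕ → Prop} {f : ℕ → List ℕ}
    (hf : ∀ y : ℕ, y % 3 ≠ 0 → (f y).length = N ∧ (∀ a ∈ f y, 2 ≤ a ∧ a ≤ 7) ∧ va (f y) y ∧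
      en (f y) y % 3 ≠ 0)
    (hS : ∀ n z : ℕ, n0 ≤ n → n ≤ M → P z → c ≤ SPG M n z) (K : ℕ) :
    ∀ y : ℕ, y % 3 ≠ 0 → ¬ M2_fail P f K y → ∀ n : ℕ, K * N + n0 ≤ n → n ≤ M →
      (3 / 128 : ℝ) ^ (K * N) * c ≤ SPG M n y := by
  induction K with
  | zero => intro y _ h; exact absurd trivial h
  | succ K ih =>
    intro y hy h n hn hnM
    by_cases hPy : P y
    · refine le_trans ?_ (hS n y (by omega) hnM hPy)
      calc (3 / 128 : ℝ) ^ ((K + 1) * N) * c ≤ 1 * c :=
            mul_le_mul_of_nonneg_right (pow_le_one₀ (by norm_num) (by norm_num)) hc.le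
        _ = c := one_mul c
    · obtain ⟨h1, h2, h3, h4⟩ := hf y hy
      have h5 : ¬ M2_fail P f K (en (f y) y) := by
        intro h6
        apply h
        unfold M2_fail
        exact ⟨hPy, h6⟩
      have hexp : (K + 1) * N = N + K * N := by ring
      rw [hexp] at hn ⊢
      have h7 := ih _ h4 h5 (n - N) (by omega) (by omega)
      have h8 := SPG_wait (n := n - N) hM h1 h2 h3
      have h9 : N + (n - N) = n := by omega
      rw [h9] at h8
      refine le_trans ?_ h8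
      rw [pow_add, mul_assoc]
      exact mul_le_mul_of_nonneg_left h7 (by positivity)

theorem M2_B (N : ℕ) : ∃ B : ℕ, (3 ^ N - 1) ^ B * 2 ≤ (3 ^ N) ^ B := by
  have h0 : (1 : ℝ) ≤ 3 ^ N := one_le_pow₀ (by norm_num)
  have h1 : (1 - 1 / (3 : ℝ) ^ N) < 1 := by
    have : (0 : ℝ) < 1 / 3 ^ N := by positivity
    linarith
  obtain ⟨B, hB⟩ := exists_pow_lt_of_lt_one (by norm_num : (0 : ℝ) < 1 / 2) h1
  refine ⟨B, ?_⟩
  have h2 : ((3 ^ N - 1 : ℕ) : ℝ) = 3 ^ N - 1 := by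
    rw [Nat.cast_sub (Nat.one_le_pow _ _ (by norm_num))]; push_cast; ring
  have h3 : (((3 ^ N - 1) ^ B * 2 : ℕ) : ℝ) ≤ (((3 ^ N) ^ B : ℕ) : ℝ) := by
    rw [Nat.cast_mul, Nat.cast_pow, h2]
    push_cast
    have h4 : (3 : ℝ) ^ N - 1 = 3 ^ N * (1 - 1 / 3 ^ N) := by
      field_simp
    rw [h4, mul_pow]
    have h5 : (0 : ℝ) < (3 ^ N) ^ B := by positivity
    nlinarith
  exact_mod_cast h3

theorem M2_log (A n0 : ℕ) : ∃ U0 : ℕ, ∀ U : ℕ, U0 ≤ U → A * (Nat.log 2 U + 1) + n0 ≤ U := by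
  refine ⟨2 ^ (2 * (2 * A + n0)), fun U hU => ?_⟩
  have hU1 : 1 ≤ U := le_trans (Nat.one_le_two_pow) hU
  have ht : 2 * (2 * A + n0) ≤ Nat.log 2 U := by
    rw [← Nat.log_pow (by norm_num : 1 < 2) (2 * (2 * A + n0))]
    exact Nat.log_mono_right hU
  have h1 : 2 ^ Nat.log 2 U ≤ U := Nat.pow_log_le_self 2 (by omega)
  obtain ⟨s, hs⟩ : ∃ s, s = Nat.log 2 U / 2 := ⟨_, rfl⟩
  have hs1 : Nat.log 2 U ≤ 2 * s + 1 := by omega
  have hs2 : 2 * s ≤ Nat.log 2 U := by omega
  have hs3 : 2 * A + n0 ≤ s := by omega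
  have h2 : (s + 1) * (s + 1) ≤ 2 ^ Nat.log 2 U := by
    calc (s + 1) * (s + 1) ≤ 2 ^ s * 2 ^ s := Nat.mul_le_mul Nat.lt_two_pow_self Nat.lt_two_pow_self
      _ = 2 ^ (2 * s) := by rw [← pow_add]; congr 1; ring
      _ ≤ 2 ^ Nat.log 2 U := Nat.pow_le_pow_right (by norm_num) hs2
  refine le_trans ?_ (h2.trans h1)
  calc A * (Nat.log 2 U + 1) + n0 ≤ A * (2 * s + 1 + 1) + n0 :=
        Nat.add_le_add_right (Nat.mul_le_mul_left _ (by omega)) _
    _ ≤ (2 * A + n0) * (s + 1) := by nlinarith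
    _ ≤ (s + 1) * (s + 1) := Nat.mul_le_mul_right _ (by omega)

/-- Counting the failures: in each unit class at most the fraction `(1-3^(-N))^i` of the residues fails `i` times. -/
theorem waiting : ∃ a : ℕ, ∃ U0 : ℕ, ∀ U : ℕ, U0 ≤ U → ∀ M : ℕ, U ≤ M → ∀ v : ℕ, v = 1 ∨ v = 2 →
    ((((range (3 ^ (U + 1))).filter (fun y => y % 3 = v)).filter
      (fun y => SPG M U y * (U : ℝ) ^ a < 1)).card : ℝ) * U ^ 2 ≤ 3 ^ U := by
  classical
  obtain ⟨c, hc, m, n0, hm, hafter⟩ := after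
  obtain ⟨N, hN⟩ : ∃ N, N = m + m / 100 := ⟨_, rfl⟩
  obtain ⟨B, hB⟩ := M2_B N
  obtain ⟨U1, hU1⟩ := M2_log (2 * B * N) n0
  obtain ⟨q, hq⟩ := exists_nat_ge (6 / c)
  obtain ⟨f, hf⟩ := wait_word N
  refine ⟨24 * B * N + 1, max (max U1 m) (max q 2), fun U hU M hM v hv => ?_⟩
  have hUU1 : U1 ≤ U := by omega
  have hUm : m ≤ U := by omega
  have hUq : q ≤ U := by omega
  have hU2 : 2 ≤ U := by omega
  obtain ⟨hex, hS⟩ := hafter M (by omega)
  rw [← hN] at hex
  have hmod : ∀ z, OKz M m c z ↔ OKz M m c (z % 3 ^ N) := by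
    intro z; rw [hN]; exact OKz_mod M m c z
  have hf1 : ∀ y : ℕ, y % 3 ≠ 0 → f y = f (y % 3 ^ (N + 1)) ∧ (f y).length = N ∧ va (f y) y ∧
      en (f y) y % 3 ≠ 0 := fun y hy =>
    ⟨(hf y hy).1, (hf y hy).2.1, (hf y hy).2.2.2.1, (hf y hy).2.2.2.2⟩
  have hf2 : ∀ y : ℕ, y % 3 ≠ 0 → (f y).length = N ∧ (∀ a ∈ f y, 2 ≤ a ∧ a ≤ 7) ∧ va (f y) y ∧
      en (f y) y % 3 ≠ 0 := fun y hy => (hf y hy).2
  obtain ⟨t, ht⟩ : ∃ t, t = Nat.log 2 U + 1 := ⟨_, rfl⟩
  obtain ⟨K, hK⟩ : ∃ K, K = B * (2 * t) := ⟨_, rfl⟩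
  have hKN : K * N + n0 ≤ U := by
    have := hU1 U hUU1
    rw [← ht] at this
    have e : K * N = 2 * B * N * t := by rw [hK]; ring
    omega
  have hUt : U ≤ 2 ^ t := by
    rw [ht]; exact (Nat.lt_pow_succ_log_self (by norm_num) U).le
  have hUt2 : 2 ^ t ≤ 2 * U := by
    rw [ht, pow_succ, mul_comm]
    exact Nat.mul_le_mul_left _ (Nat.pow_log_le_self 2 (by omega))
  have hcount := M2_count hmod hf1 hex (K := K) (U := U) (by omega) v hv
  have hsub : (((range (3 ^ (U + 1))).filter (fun y => y % 3 = v)).filter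
      (fun y => SPG M U y * (U : ℝ) ^ (24 * B * N + 1) < 1)) ⊆
      ((range (3 ^ (U + 1))).filter (fun y => y % 3 = v ∧ M2_fail (OKz M m c) f K y)) := by
    intro y hy
    rw [mem_filter, mem_filter] at hy
    rw [mem_filter]
    refine ⟨hy.1.1, hy.1.2, ?_⟩
    by_contra hnf
    have h1 := M2_mass (c := c / 6) (n0 := n0) (by positivity) (by omega : 7 ≤ M) hf2
      (fun n z h1 h2 h3 => hS n z h1 h2 h3) K y (by omega) hnf U hKN hM
    have h2 : (1 : ℝ) ≤ SPG M U y * (U : ℝ) ^ (24 * B * N + 1) := by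
      have hU0 : (0 : ℝ) < U := by
        have : 0 < U := by omega
        exact_mod_cast this
      have h3 : (128 / 3 : ℝ) ^ (K * N) ≤ (U : ℝ) ^ (24 * B * N) := by
        calc (128 / 3 : ℝ) ^ (K * N) ≤ (64 : ℝ) ^ (K * N) :=
              pow_le_pow_left₀ (by norm_num) (by norm_num) _
          _ = ((2 : ℝ) ^ t) ^ (12 * B * N) := by
              rw [hK, ← pow_mul, show (64 : ℝ) = 2 ^ 6 by norm_num, ← pow_mul]
              congr 1; ring
          _ ≤ ((U : ℝ) ^ 2) ^ (12 * B * N) := by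
              refine pow_le_pow_left₀ (by positivity) ?_ _
              have h4 : (2 : ℝ) ^ t ≤ 2 * U := by exact_mod_cast hUt2
              have h5 : (2 : ℝ) ≤ U := by exact_mod_cast hU2
              nlinarith
          _ = (U : ℝ) ^ (24 * B * N) := by rw [← pow_mul]; congr 1; ring
      have h6 : (3 / 128 : ℝ) ^ (K * N) * (128 / 3 : ℝ) ^ (K * N) = 1 := by
        rw [← mul_pow]; norm_num
      have h7 : 6 / c ≤ (U : ℝ) := hq.trans (by exact_mod_cast hUq)
      have h8 : 1 ≤ c / 6 * U := by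
        rw [div_le_iff₀ hc] at h7
        linarith
      calc (1 : ℝ) ≤ c / 6 * U := h8
        _ = (3 / 128 : ℝ) ^ (K * N) * (128 / 3 : ℝ) ^ (K * N) * (c / 6 * U) := by rw [h6, one_mul]
        _ ≤ (3 / 128 : ℝ) ^ (K * N) * (U : ℝ) ^ (24 * B * N) * (c / 6 * U) := by
            refine mul_le_mul_of_nonneg_right ?_ (by positivity)
            exact mul_le_mul_of_nonneg_left h3 (by positivity)
        _ = ((3 / 128 : ℝ) ^ (K * N) * (c / 6)) * (U : ℝ) ^ (24 * B * N + 1) := by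
            rw [pow_succ]; ring
        _ ≤ SPG M U y * (U : ℝ) ^ (24 * B * N + 1) :=
            mul_le_mul_of_nonneg_right h1 (by positivity)
    exact absurd hy.2 (not_lt.2 h2)
  have h1 : (((range (3 ^ (U + 1))).filter (fun y => y % 3 = v)).filter
      (fun y => SPG M U y * (U : ℝ) ^ (24 * B * N + 1) < 1)).card * U ^ 2 ≤ 3 ^ U := by
    calc _ ≤ (3 ^ (U - K * N) * (3 ^ N - 1) ^ K) * (2 ^ t) ^ 2 :=
          Nat.mul_le_mul ((card_le_card hsub).trans hcount) (Nat.pow_le_pow_left hUt 2)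
      _ = 3 ^ (U - K * N) * ((3 ^ N - 1) ^ B * 2) ^ (2 * t) := by
          rw [hK, mul_pow, ← pow_mul, ← pow_mul, mul_assoc]
          congr 3
          ring
      _ ≤ 3 ^ (U - K * N) * ((3 ^ N) ^ B) ^ (2 * t) :=
          Nat.mul_le_mul_left _ (Nat.pow_le_pow_left hB _)
      _ = 3 ^ (U - K * N) * 3 ^ (K * N) := by
          rw [hK, ← pow_mul, ← pow_mul]
          congr 2
          ring
      _ = 3 ^ U := by rw [← pow_add]; congr 1; omega
  exact_mod_cast h1

end H78P
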