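import Pool.Agent.Lib.H78P.SkE2
import Pool.Agent.Lib.H62w.Mu
import Pool.Agent.Lib.H62w.Paths

set_option autoImplicit false

/-! Chunk N. low_tail for the at most (U+1)^2 factors (the law of a factor of length n is the word law of length n) and top_letter. -/

open Finset
namespace H78P
open H62w

theorem N_pr_mono (M : ℕ) {G G' : Finset (List ℕ)} (h : G ⊆ G') : pr M G ≤ pr M G' :=
  sum_le_sum_of_subset_of_nonneg h fun l _ _ => L_pw_nonneg _ l

theorem N_pr_union (M : ℕ) (G G' : Finset (List ℕ)) : pr M (G ∪ G') ≤ pr M G + pr M G' := by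
  unfold pr
  rw [← sum_union_inter]
  have : 0 ≤ ∑ l ∈ G ∩ G', pw (M + 1) l := sum_nonneg fun l _ => L_pw_nonneg _ l
  linarith

theorem N_pr_biUnion (M : ℕ) {ι : Type*} [DecidableEq ι] (s : Finset ι) (G : ι → Finset (List ℕ)) :
    pr M (s.biUnion G) ≤ ∑ i ∈ s, pr M (G i) := by
  induction s using Finset.induction_on with
  | empty => simp [pr]
  | insert i s hi ih =>
    rw [biUnion_insert, sum_insert hi]
    exact (N_pr_union _ _ _).trans (by linarith)

/-- law of a factor -/
theorem N_factor (M i n k : ℕ) (P : List ℕ → Prop) [DecidablePred P] :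
    pr M ((words (M + 1) (i + (n + k))).filter (fun l => P ((l.drop i).take n))) =
      pr M ((words (M + 1) n).filter P) := by
  unfold pr
  rw [sum_filter, sum_filter, L_sum_words_add]
  have h1 : ∀ l ∈ words (M + 1) i, ∑ l' ∈ words (M + 1) (n + k),
      (if P (((l ++ l').drop i).take n) then pw (M + 1) (l ++ l') else 0) =
      pw (M + 1) l * ∑ l' ∈ words (M + 1) n, if P l' then pw (M + 1) l' else 0 := by
    intro l hl
    rw [mem_words] at hl
    rw [L_sum_words_add, mul_sum]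
    refine sum_congr rfl fun l' hl' => ?_
    rw [mem_words] at hl'
    have h2 : ∀ l'' ∈ words (M + 1) k,
        (if P (((l ++ (l' ++ l'')).drop i).take n) then pw (M + 1) (l ++ (l' ++ l'')) else 0) =
        (pw (M + 1) l * if P l' then pw (M + 1) l' else 0) * pw (M + 1) l'' := by
      intro l'' _
      have e1 : ((l ++ (l' ++ l'')).drop i).take n = l' := by
        rw [← hl.1, List.drop_left, ← hl'.1, List.take_left]
      rw [e1, L_pw_append, L_pw_append]
      split_ifs
      · ring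
      · ring
    rw [sum_congr rfl h2, ← mul_sum, pw_sum (by omega), mul_one]
  rw [sum_congr rfl h1, ← sum_mul, pw_sum (by omega), one_mul]

theorem N_JJ (l : List ℕ) {i j : ℕ} (h : i ≤ j) :
    H62y.JJ l j = H62y.JJ l i + ((l.drop i).take (j - i)).sum := by
  unfold H62y.JJ
  obtain ⟨n, rfl⟩ := Nat.exists_eq_add_of_le h
  rw [Nat.add_sub_cancel_left, List.take_add, List.sum_append]

theorem N_sq (a : ℕ) (h : 6 ≤ a) : (a + 1) ^ 2 ≤ 2 ^ a := by
  induction a, h using Nat.le_induction with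
  | base => norm_num
  | succ a ha ih =>
    rw [pow_succ 2 a]
    nlinarith

/-- Chunk N (Badw.lean). Words of length `U` of the prefix class that are not in the critical class with parameter
`C0 (log2 U + 1)` have small probability: `low_tail` for the at most `(U+1)^2` factors, and `top_letter`. -/
theorem class_bad (b : ℕ) : ∃ C0 : ℕ, 7 ≤ C0 ∧ ∃ U0 : ℕ, ∀ U : ℕ, U0 ≤ U → ∀ M : ℕ, U ≤ M →
    pr M ((PG M U).filter (fun l => ¬ (l ∈ words (M0 C0 U) U ∧ H62y.QC (M0 C0 U) l))) ≤ 1 / (U : ℝ) ^ b := by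
  obtain ⟨ρ, hρ0, hρ1, hlow⟩ := low_tail
  obtain ⟨c1, hc1⟩ := exists_pow_lt_of_lt_one (show (0 : ℝ) < (1 / 2) ^ (b + 3) by positivity) hρ1
  refine ⟨c1 + b + 7, by omega, 2 ^ (c1 + b + 7 + 8), fun U hU M hUM => ?_⟩
  set C0 := c1 + b + 7 with hC0
  set L := Nat.log 2 U + 1 with hL
  have hU0 : U ≠ 0 := by
    have := Nat.one_le_two_pow (n := C0 + 8)
    omega
  have hUL : U + 1 ≤ 2 ^ L := Nat.lt_pow_succ_log_self (by norm_num) U
  have hlog : C0 + 8 ≤ Nat.log 2 U := by
    have := Nat.log_mono_right (b := 2) hU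
    rwa [Nat.log_pow (by norm_num)] at this
  have hm : M0 C0 U ≤ U := by
    unfold M0
    have h1 := N_sq (Nat.log 2 U) (by omega)
    have h2 : 2 ^ Nat.log 2 U ≤ U := Nat.pow_log_le_self 2 hU0
    nlinarith
  set m := M0 C0 U with hmdef
  have hmL : m = C0 * L := rfl
  have hM20 : 20 ≤ M := by
    have h1 : 2 ^ 8 ≤ 2 ^ (C0 + 8) := Nat.pow_le_pow_right (by norm_num) (by omega)
    norm_num at h1
    omega
  -- inclusion
  let I : Finset (ℕ × ℕ) := (range (U + 1) ×ˢ range (U + 1)).filter (fun p => p.1 ≤ p.2)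
  let G : ℕ × ℕ → Finset (List ℕ) := fun p => (words (M + 1) U).filter
    (fun l => 10 * ((l.drop p.1).take (p.2 - p.1)).sum + m < 19 * (p.2 - p.1))
  have hsub : (PG M U).filter (fun l => ¬ (l ∈ words m U ∧ H62y.QC m l)) ⊆
      (words (M + 1) U).filter (fun l => ∃ a ∈ l, m < a) ∪ I.biUnion G := by
    intro l hl
    rw [mem_filter, PG, mem_filter, mem_words] at hl
    obtain ⟨⟨⟨hlen, hlet⟩, hPC⟩, hnot⟩ := hl
    have hw : l ∈ words (M + 1) U := by
      rw [mem_words]
      exact ⟨hlen, fun a ha => ⟨(hlet a ha).1, (hlet a ha).2.trans (by omega)⟩⟩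
    rw [mem_union]
    by_cases hbig : ∃ a ∈ l, m < a
    · left
      rw [mem_filter]
      exact ⟨hw, hbig⟩
    · right
      push Not at hbig
      have hQ : ¬ H62y.QC m l := by
        intro hQ
        apply hnot
        refine ⟨?_, hQ⟩
        rw [mem_words]
        exact ⟨hlen, fun a ha => ⟨(hlet a ha).1, hbig a ha⟩⟩
      unfold H62y.QC at hQ
      push Not at hQ
      obtain ⟨j, hj, hj2⟩ := hQ
      obtain ⟨i, hi, hi2⟩ := hj2 (hPC j hj)
      rw [mem_range] at hj hi
      rw [mem_biUnion]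
      refine ⟨(i, j), ?_, ?_⟩
      · simp only [I, mem_filter, mem_product, mem_range]
        omega
      · simp only [G, mem_filter]
        refine ⟨hw, ?_⟩
        have := N_JJ l (show i ≤ j by omega)
        omega
  have hG : ∀ p ∈ I, pr M (G p) ≤ ρ ^ m := by
    intro p hp
    simp only [I, mem_filter, mem_product, mem_range] at hp
    have e : U = p.1 + ((p.2 - p.1) + (U - p.2)) := by omega
    have h1 := N_factor M p.1 (p.2 - p.1) (U - p.2)
      (fun l => 10 * l.sum + m < 19 * (p.2 - p.1))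
    rw [← e] at h1
    calc pr M (G p) = _ := h1
      _ ≤ ρ ^ ((p.2 - p.1) + m) := hlow M (p.2 - p.1) m hM20
      _ ≤ ρ ^ m := pow_le_pow_of_le_one hρ0.le hρ1.le (by omega)
  have hcard : (I.card : ℝ) ≤ ((U : ℝ) + 1) ^ 2 := by
    have h1 : I.card ≤ (U + 1) ^ 2 := by
      calc I.card ≤ (range (U + 1) ×ˢ range (U + 1)).card := card_filter_le _ _
        _ = (U + 1) ^ 2 := by rw [card_product, card_range, sq]
    exact_mod_cast h1
  have hx : ((U : ℝ) + 1) ≤ 2 ^ L := by exact_mod_cast hUL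
  have htop : pr M ((words (M + 1) U).filter (fun l => ∃ a ∈ l, m < a)) ≤ U * (1 / 2) ^ m :=
    top_letter (hm.trans hUM) U
  have h2L : (0 : ℝ) < 2 ^ L := by positivity
  set x : ℝ := (1 / 2 : ℝ) ^ L with hxdef
  have hx0 : 0 < x := by positivity
  have hx2 : x * 2 ^ L = 1 := by
    rw [hxdef, ← mul_pow]; norm_num
  have hxhalf : x ≤ 1 / 2 := by
    calc x ≤ (1 / 2 : ℝ) ^ 1 := pow_le_pow_of_le_one (by norm_num) (by norm_num) (by omega)
      _ = 1 / 2 := by norm_num
  have hρm : ρ ^ m ≤ x ^ (b + 3) := by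
    have e : ((1 / 2 : ℝ) ^ L) ^ (b + 3) = ((1 / 2) ^ (b + 3)) ^ L := by
      rw [← pow_mul, ← pow_mul, mul_comm]
    rw [hmL, hxdef, e, pow_mul]
    refine pow_le_pow_left₀ (by positivity) ?_ L
    calc ρ ^ C0 ≤ ρ ^ c1 := pow_le_pow_of_le_one hρ0.le hρ1.le (by omega)
      _ ≤ _ := hc1.le
  have hhalfm : ((1 : ℝ) / 2) ^ m ≤ x ^ (b + 3) := by
    rw [hmL, hxdef, ← pow_mul]
    refine pow_le_pow_of_le_one (by norm_num) (by norm_num) ?_
    rw [mul_comm L]
    exact Nat.mul_le_mul_right L (by omega)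
  have hxb : x ^ b ≤ 1 / (U : ℝ) ^ b := by
    have hUpos : (0 : ℝ) < U := by exact_mod_cast Nat.pos_of_ne_zero hU0
    rw [le_div_iff₀ (by positivity), ← mul_pow]
    refine pow_le_one₀ (by positivity) ?_
    nlinarith
  calc pr M ((PG M U).filter (fun l => ¬ (l ∈ words m U ∧ H62y.QC m l)))
      ≤ pr M ((words (M + 1) U).filter (fun l => ∃ a ∈ l, m < a) ∪ I.biUnion G) :=
        N_pr_mono M hsub
    _ ≤ U * (1 / 2) ^ m + ∑ p ∈ I, pr M (G p) :=
        (N_pr_union _ _ _).trans (add_le_add htop (N_pr_biUnion _ _ _))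
    _ ≤ U * (1 / 2) ^ m + (I.card : ℝ) * ρ ^ m := by
        refine add_le_add le_rfl ?_
        have := sum_le_card_nsmul I (fun p => pr M (G p)) (ρ ^ m) hG
        rwa [nsmul_eq_mul] at this
    _ ≤ 2 ^ L * x ^ (b + 3) + (2 ^ L) ^ 2 * x ^ (b + 3) := by
        refine add_le_add (mul_le_mul (by linarith) hhalfm (by positivity) h2L.le) ?_
        refine mul_le_mul (hcard.trans ?_) hρm (by positivity) (by positivity)
        exact pow_le_pow_left₀ (by positivity) hx 2
    _ = x ^ b * (x * x + x) := by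
        have e1 : x ^ (b + 3) = x ^ b * (x * x * x) := by ring
        rw [e1]
        calc _ = x ^ b * ((x * 2 ^ L) * (x * x) + (x * 2 ^ L) ^ 2 * x) := by ring
          _ = _ := by rw [hx2]; ring
    _ ≤ x ^ b * 1 := mul_le_mul_of_nonneg_left (by nlinarith) (by positivity)
    _ = x ^ b := mul_one _
    _ ≤ 1 / (U : ℝ) ^ b := hxb

end H78P
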