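import Pool.Agent.Lib.H78P.SkA1
import Pool.Agent.Lib.H62w.Paths

set_option autoImplicit false

/-! Chunk O1. The weights of H62y and the true weights; a trivial lower bound for the critical class. -/

open Finset
namespace H78P
open H62w

theorem O1_wt (k : ℕ) (l : List ℕ) (hl : l.length = k) :
    H62y.wt (1 / 10) k l = ((2 : ℝ) ^ ((19 : ℝ) / 10) / 3) ^ k * ww l := by
  unfold H62y.wt ww
  rw [hl, Real.div_rpow (by positivity) (by positivity)]
  have h1 : ((2 : ℝ) ^ (19 * k)) ^ ((1 : ℝ) / 10) = ((2 : ℝ) ^ ((19 : ℝ) / 10)) ^ k := by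
    rw [← Real.rpow_natCast, ← Real.rpow_mul (by norm_num), ← Real.rpow_natCast,
      ← Real.rpow_mul (by norm_num)]
    congr 1
    push_cast
    ring
  have h2 : ((2 : ℝ) ^ (10 * l.sum)) ^ ((1 : ℝ) / 10) = (2 : ℝ) ^ l.sum := by
    rw [← Real.rpow_natCast, ← Real.rpow_mul (by norm_num), ← Real.rpow_natCast]
    congr 1
    push_cast
    ring
  rw [h1, h2, div_pow]
  field_simp

/-- Chunk O1 (MeanLog.lean). -/
theorem W_eq_FP (M k y : ℕ) :
    H62y.W (1 / 10) M k y = ((2 : ℝ) ^ ((19 : ℝ) / 10) / 3) ^ k * FP M k y := by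
  unfold H62y.W FP
  rw [mul_sum]
  apply sum_congr rfl
  intro l hl
  apply O1_wt
  unfold H62y.PP at hl
  rw [mem_filter, mem_words] at hl
  exact hl.1.1

theorem FP_lower {M : ℕ} (hM : 7 ≤ M) (k y : ℕ) (hy : y % 3 ≠ 0) : (3 / 128 : ℝ) ^ k ≤ FP M k y := by
  obtain ⟨l, h1, h2, h3, h4⟩ := exists_word k y hy
  have hs := sum_bounds h2
  rw [h1] at hs
  have hmem : l ∈ H62y.PP M k y := by
    unfold H62y.PP
    rw [mem_filter, mem_words]
    refine ⟨⟨h1, fun a ha => ⟨by have := h2 a ha; omega, by have := h2 a ha; omega⟩⟩, h3, h4, ?_⟩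
    exact H62y.QC_of_two_le (fun a ha => (h2 a ha).1)
  have h5 : ww l ≤ FP M k y := by
    unfold FP
    exact Finset.single_le_sum (f := fun l => ww l) (fun l _ => (ww_pos l).le) hmem
  refine le_trans ?_ h5
  unfold ww
  rw [h1, div_pow]
  apply div_le_div_of_nonneg_left (by positivity) (by positivity)
  rw [show (128 : ℝ) = 2 ^ 7 by norm_num, ← pow_mul]
  exact pow_le_pow_right₀ (by norm_num) hs.2

end H78P
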