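import Pool.Agent.Lib.H78P.SkM2
import Pool.Agent.Lib.H78P.SkN
import Pool.Agent.Lib.H78P.SkO1
import Pool.Agent.Lib.H78P.SkA2

set_option autoImplicit false

/-! Chunk O2. waiting gives SPG M U y >= U^(-a) outside 3^U/U^2 residues; SPG - FP has mean at most class_bad, so it is <= U^(-a)/2 outside
3^U/U^2 residues (Markov); on the exceptional residues log FP >= - U log (128/3). M = U. -/

open Finset
namespace H78P
open H62w

/-- The words of the prefix class which are not in the critical class. -/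
def O2bad (C0 U : ℕ) : Finset (List ℕ) :=
  (PG U U).filter (fun l => ¬ (l ∈ words (M0 C0 U) U ∧ H62y.QC (M0 C0 U) l))

theorem O2_le (C0 U y : ℕ) :
    SPG U U y ≤ FP (M0 C0 U) U y + sm (O2bad C0 U) (fun _ => 1) y := by
  unfold SPG FP sm
  have h1 : ∑ l ∈ (PG U U).filter (fun l => va l y ∧ en l y % 3 ≠ 0), ww l ≤
      ∑ l ∈ H62y.PP (M0 C0 U) U y ∪ (O2bad C0 U).filter (fun l => va l y), ww l := by
    apply sum_le_sum_of_subset_of_nonneg
    · intro l hl
      rw [mem_filter] at hl
      obtain ⟨hl1, hl2, hl3⟩ := hl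
      rw [mem_union]
      by_cases h : l ∈ words (M0 C0 U) U ∧ H62y.QC (M0 C0 U) l
      · left
        unfold H62y.PP
        rw [mem_filter]
        exact ⟨h.1, hl2, hl3, h.2⟩
      · right
        unfold O2bad
        rw [mem_filter, mem_filter]
        exact ⟨⟨hl1, h⟩, hl2⟩
    · intro l _ _
      exact (ww_pos l).le
  refine h1.trans ?_
  have h2 := sum_union_inter (s₁ := H62y.PP (M0 C0 U) U y)
    (s₂ := (O2bad C0 U).filter (fun l => va l y)) (f := ww)
  have h3 : 0 ≤ ∑ l ∈ H62y.PP (M0 C0 U) U y ∩ (O2bad C0 U).filter (fun l => va l y), ww l :=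
    sum_nonneg fun l _ => (ww_pos l).le
  simp only [mul_one]
  linarith

theorem O2_sub (C0 U : ℕ) : O2bad C0 U ⊆ words U U := by
  intro l hl
  unfold O2bad PG at hl
  rw [mem_filter, mem_filter] at hl
  exact hl.1.1

theorem O2_sum (C0 U : ℕ) :
    ∑ y ∈ range (3 ^ (U + 1)), sm (O2bad C0 U) (fun _ => 1) y = pr U (O2bad C0 U) * 3 ^ (U + 1) := by
  have h1 : Per 1 (fun _ : ℕ => (1 : ℝ)) := fun _ => rfl
  have h2 := mn_sm (M := U) (k := U) (q := 1) (O2_sub C0 U) h1
  have h3 : mn 1 (fun _ : ℕ => (1 : ℝ)) = 1 := by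
    unfold mn
    simp
  rw [h3, mul_one] at h2
  unfold mn at h2
  rw [div_eq_iff (by positivity)] at h2
  exact h2

theorem O2_card (U v : ℕ) (hv : v < 3) :
    ((range (3 ^ (U + 1))).filter (fun y => y % 3 = v)).card = 3 ^ U := by
  have h : (range (3 ^ (U + 1))).filter (fun y => y % 3 = v) =
      (range (3 ^ U)).image (fun t => 3 * t + v) := by
    ext y
    simp only [mem_filter, mem_range, mem_image, pow_succ]
    constructor
    · rintro ⟨h1, h2⟩
      exact ⟨y / 3, by omega, by omega⟩
    · rintro ⟨t, h1, h2⟩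
      omega
  rw [h, card_image_of_injective, card_range]
  intro x y hxy
  simp only at hxy
  omega

/-- Chunk O2 (MeanLog.lean). `mean log FP ≥ - A0 log U`: `waiting` gives `SPG M U y ≥ U^(-a)` outside a set of `3^U/U^2` residues;
`SPG - FP` has mean at most `class_bad`, so it is `≤ U^(-a)/2` outside a set of `3^U/U^2` residues (Markov); on the exceptional residues
`log FP ≥ - U log (128/3)`. -/
theorem mean_log : ∃ C0 A0 : ℕ, 7 ≤ C0 ∧ ∃ U0 : ℕ, 1 ≤ U0 ∧ ∀ U : ℕ, U0 ≤ U →
    (U : ℝ) * Real.log ((2 : ℝ) ^ ((19 : ℝ) / 10) / 3) - A0 * Real.log U ≤ H62y.AA (1 / 10) (M0 C0 U) U := by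
  obtain ⟨a, U1, hwait⟩ := waiting
  obtain ⟨C0, hC0, U2, hbad⟩ := class_bad (a + 3)
  refine ⟨C0, a + 10, hC0, U1 + U2 + 6, by omega, ?_⟩
  intro U hU
  have hU1 : (6 : ℝ) ≤ U := by
    have : 6 ≤ U := by omega
    exact_mod_cast this
  have hUpos : (0 : ℝ) < U := by linarith
  set r : ℝ := (2 : ℝ) ^ ((19 : ℝ) / 10) / 3 with hr
  have hrpos : 0 < r := by positivity
  have hM7 : 7 ≤ M0 C0 U := by
    unfold M0
    calc 7 ≤ C0 * 1 := by omega
      _ ≤ C0 * (Nat.log 2 U + 1) := Nat.mul_le_mul_left _ (by omega)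
  -- one class
  have key : ∀ v : ℕ, v = 1 ∨ v = 2 →
      (U : ℝ) * Real.log r - ((a + 10 : ℕ) : ℝ) * Real.log U ≤ H62y.av (1 / 10) (M0 C0 U) U v := by
    intro v hv
    set S := (range (3 ^ (U + 1))).filter (fun y => y % 3 = v) with hS
    have hScard : (S.card : ℝ) = 3 ^ U := by
      rw [hS, O2_card U v (by omega)]
      push_cast
      rfl
    set E1 := S.filter (fun y => SPG U U y * (U : ℝ) ^ a < 1) with hE1
    set E2 := S.filter (fun y => 1 < 2 * (U : ℝ) ^ a * sm (O2bad C0 U) (fun _ => 1) y) with hE2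
    have hE1c : (E1.card : ℝ) ≤ 3 ^ U / (U : ℝ) ^ 2 := by
      rw [le_div_iff₀ (by positivity)]
      exact hwait U (by omega) U le_rfl v hv
    have hsmnn : ∀ y, 0 ≤ sm (O2bad C0 U) (fun _ => 1) y :=
      fun y => sm_nonneg (fun _ => zero_le_one) y
    have hE2c : (E2.card : ℝ) ≤ 3 ^ U / (U : ℝ) ^ 2 := by
      have h1 : (E2.card : ℝ) ≤ ∑ y ∈ E2, 2 * (U : ℝ) ^ a * sm (O2bad C0 U) (fun _ => 1) y := by
        rw [card_eq_sum_ones, Nat.cast_sum]
        apply sum_le_sum
        intro y hy
        rw [hE2, mem_filter] at hy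
        push_cast
        exact hy.2.le
      have h2 : ∑ y ∈ E2, 2 * (U : ℝ) ^ a * sm (O2bad C0 U) (fun _ => 1) y ≤
          2 * (U : ℝ) ^ a * (pr U (O2bad C0 U) * 3 ^ (U + 1)) := by
        rw [← mul_sum, ← O2_sum]
        apply mul_le_mul_of_nonneg_left _ (by positivity)
        apply sum_le_sum_of_subset_of_nonneg
        · intro y hy
          rw [hE2, mem_filter, hS, mem_filter] at hy
          exact hy.1.1
        · intro y _ _
          exact hsmnn y
      have h3 : pr U (O2bad C0 U) ≤ 1 / (U : ℝ) ^ (a + 3) := hbad U (by omega) U le_rfl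
      have h4 : 2 * (U : ℝ) ^ a * (pr U (O2bad C0 U) * 3 ^ (U + 1)) ≤
          2 * (U : ℝ) ^ a * (1 / (U : ℝ) ^ (a + 3) * 3 ^ (U + 1)) := by
        apply mul_le_mul_of_nonneg_left _ (by positivity)
        exact mul_le_mul_of_nonneg_right h3 (by positivity)
      refine h1.trans (h2.trans (h4.trans ?_))
      have h5 : 2 * (U : ℝ) ^ a * (1 / (U : ℝ) ^ (a + 3) * 3 ^ (U + 1)) =
          6 / U * (3 ^ U / (U : ℝ) ^ 2) := by
        rw [pow_add, pow_succ (3 : ℝ) U]
        field_simp
        norm_num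
      rw [h5]
      have h6 : 6 / (U : ℝ) ≤ 1 := by
        rw [div_le_one hUpos]; exact hU1
      exact mul_le_of_le_one_left (by positivity) h6
    -- pointwise bound
    have hlogU : 0 ≤ Real.log U := Real.log_nonneg (by linarith)
    have hpt : ∀ y ∈ S, (U : ℝ) * Real.log r - (a * Real.log U + Real.log 2) -
        ((if y ∈ E1 then (U : ℝ) * Real.log (128 / 3) else 0) +
          (if y ∈ E2 then (U : ℝ) * Real.log (128 / 3) else 0)) ≤
        Real.log (H62y.W (1 / 10) (M0 C0 U) U y) := by
      intro y hy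
      have hy3 : y % 3 ≠ 0 := by
        rw [hS, mem_filter] at hy
        omega
      have hFP := FP_lower hM7 U y hy3
      have hFPpos : 0 < FP (M0 C0 U) U y := lt_of_lt_of_le (by positivity) hFP
      have hlow : -((U : ℝ) * Real.log (128 / 3)) ≤ Real.log (FP (M0 C0 U) U y) := by
        have h1 := Real.log_le_log (by positivity) hFP
        rw [Real.log_pow] at h1
        have h2 : Real.log (3 / 128) = - Real.log (128 / 3) := by
          rw [← Real.log_inv]
          congr 1
          norm_num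
        rw [h2] at h1
        linarith
      rw [W_eq_FP, Real.log_mul (by positivity) hFPpos.ne', Real.log_pow, ← hr]
      have hpos : 0 ≤ (U : ℝ) * Real.log (128 / 3) :=
        mul_nonneg hUpos.le (Real.log_nonneg (by norm_num))
      have hpos2 : 0 ≤ a * Real.log U + Real.log 2 :=
        add_nonneg (mul_nonneg (Nat.cast_nonneg _) hlogU) (Real.log_nonneg (by norm_num))
      by_cases h1 : y ∈ E1
      · rw [if_pos h1]
        split_ifs <;> linarith
      · by_cases h2 : y ∈ E2
        · rw [if_neg h1, if_pos h2]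
          linarith
        · rw [if_neg h1, if_neg h2]
          have h3 : 1 ≤ SPG U U y * (U : ℝ) ^ a := by
            by_contra hcon
            push Not at hcon
            exact h1 (by rw [hE1, mem_filter]; exact ⟨hy, hcon⟩)
          have h4 : 2 * (U : ℝ) ^ a * sm (O2bad C0 U) (fun _ => 1) y ≤ 1 := by
            by_contra hcon
            push Not at hcon
            exact h2 (by rw [hE2, mem_filter]; exact ⟨hy, hcon⟩)
          have h5 := O2_le C0 U y
          have hUa : 0 < (U : ℝ) ^ a := by positivity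
          have h6 : 1 ≤ 2 * (U : ℝ) ^ a * FP (M0 C0 U) U y := by
            have h7 : SPG U U y * (U : ℝ) ^ a ≤
                (FP (M0 C0 U) U y + sm (O2bad C0 U) (fun _ => 1) y) * (U : ℝ) ^ a :=
              mul_le_mul_of_nonneg_right h5 hUa.le
            nlinarith
          have h8 := Real.log_nonneg h6
          rw [Real.log_mul (by positivity) hFPpos.ne', Real.log_mul (by norm_num) (by positivity),
            Real.log_pow] at h8
          linarith
    have hsum := sum_le_sum hpt
    rw [sum_sub_distrib, sum_const, nsmul_eq_mul, hScard, sum_add_distrib] at hsum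
    have hs1 : ∑ y ∈ S, (if y ∈ E1 then (U : ℝ) * Real.log (128 / 3) else 0) =
        E1.card * ((U : ℝ) * Real.log (128 / 3)) := by
      rw [← sum_filter, filter_mem_eq_inter, inter_eq_right.2 (filter_subset _ _), sum_const,
        nsmul_eq_mul]
    have hs2 : ∑ y ∈ S, (if y ∈ E2 then (U : ℝ) * Real.log (128 / 3) else 0) =
        E2.card * ((U : ℝ) * Real.log (128 / 3)) := by
      rw [← sum_filter, filter_mem_eq_inter, inter_eq_right.2 (filter_subset _ _), sum_const,
        nsmul_eq_mul]
    rw [hs1, hs2] at hsum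
    unfold H62y.av
    rw [le_div_iff₀ (by positivity), ← hS]
    refine le_trans ?_ hsum
    have hlog128 : Real.log (128 / 3) ≤ 6 := by
      have h1 := Real.log_le_sub_one_of_pos (show (0 : ℝ) < 128 / 3 / 2 ^ 5 by norm_num)
      rw [Real.log_div (by norm_num) (by norm_num), Real.log_pow] at h1
      have h2 := Real.log_two_lt_d9
      push_cast at h1
      linarith
    have hlogpos : 0 ≤ Real.log (128 / 3) := Real.log_nonneg (by norm_num)
    have h3U : (0 : ℝ) < 3 ^ U := by positivity
    have hE : (E1.card : ℝ) * ((U : ℝ) * Real.log (128 / 3)) +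
        E2.card * ((U : ℝ) * Real.log (128 / 3)) ≤ 3 ^ U * 2 := by
      have h1 : (E1.card : ℝ) + E2.card ≤ 2 * (3 ^ U / (U : ℝ) ^ 2) := by linarith
      have h2 : (E1.card : ℝ) * ((U : ℝ) * Real.log (128 / 3)) +
          E2.card * ((U : ℝ) * Real.log (128 / 3)) =
          ((E1.card : ℝ) + E2.card) * ((U : ℝ) * Real.log (128 / 3)) := by ring
      rw [h2]
      have h3 : (U : ℝ) * Real.log (128 / 3) ≤ U * 6 :=
        mul_le_mul_of_nonneg_left hlog128 hUpos.le
      have h4 : ((E1.card : ℝ) + E2.card) * ((U : ℝ) * Real.log (128 / 3)) ≤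
          2 * (3 ^ U / (U : ℝ) ^ 2) * (U * 6) :=
        mul_le_mul h1 h3 (mul_nonneg hUpos.le hlogpos) (by positivity)
      refine h4.trans ?_
      have h5 : 2 * (3 ^ U / (U : ℝ) ^ 2) * (U * 6) = 3 ^ U * (12 / U) := by
        field_simp
        norm_num
      rw [h5]
      apply mul_le_mul_of_nonneg_left _ h3U.le
      rw [div_le_iff₀ hUpos]
      linarith
    have hlog2 : Real.log 2 ≤ 1 := by
      have := Real.log_two_lt_d9
      linarith
    have hlogU1 : 1 ≤ Real.log U := by
      rw [Real.le_log_iff_exp_le hUpos]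
      have := Real.exp_one_lt_d9
      linarith
    push_cast
    nlinarith
  unfold H62y.AA
  exact le_min (key 1 (Or.inl rfl)) (key 2 (Or.inr rfl))

end H78P
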