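import Pool.Agent.Lib.H78P.SkO2
import Pool.Agent.Lib.H62y.SkContY

set_option autoImplicit false

/-! Chunk P. Pigeonhole over the times `(N+1) U i`. -/

open Finset
namespace H78P
open H62w

theorem P_FP_nonneg (M k y : ℕ) : 0 ≤ FP M k y := by
  unfold FP ww
  exact sum_nonneg fun l _ => by positivity

theorem P_FP_zero (M y : ℕ) : FP M 0 y ≤ 1 := by
  unfold FP
  have h : H62y.PP M 0 y ⊆ {[]} := by
    intro l hl
    unfold H62y.PP at hl
    exact (mem_filter.1 hl).1
  refine (sum_le_sum_of_subset_of_nonneg h fun l _ _ => by unfold ww; positivity).trans ?_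
  simp [ww]

theorem pigeon (N : ℕ) : ∃ C0 A0 : ℕ, 7 ≤ C0 ∧ ∃ U0 : ℕ, 1 ≤ U0 ∧ ∀ U : ℕ, U0 ≤ U → ∃ N1 : ℕ, ∀ x : ℕ, x % 3 ≠ 0 →
    ∃ t ≤ N1, 1 / (U : ℝ) ^ A0 * FP (M0 C0 U) t x ≤ FP (M0 C0 U) (t + (N + 1) * U) x := by
  obtain ⟨C0, A0, hC0, U1, hU1, hmean⟩ := mean_log
  set δ : ℝ := Real.log ((2 : ℝ) ^ ((19 : ℝ) / 10) / 3) with hδ
  have hbase : (3 : ℝ) < (2 : ℝ) ^ ((19 : ℝ) / 10) := by
    have h1 : ((3 : ℝ) ^ (10 : ℕ)) < ((2 : ℝ) ^ ((19 : ℝ) / 10)) ^ (10 : ℕ) := by
      rw [← Real.rpow_natCast ((2 : ℝ) ^ ((19 : ℝ) / 10)) 10, ← Real.rpow_mul (by norm_num)]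
      have : (19 : ℝ) / 10 * ((10 : ℕ) : ℝ) = ((19 : ℕ) : ℝ) := by norm_num
      rw [this, Real.rpow_natCast]
      norm_num
    exact lt_of_pow_lt_pow_left₀ 10 (by positivity) h1
  have hδ0 : 0 < δ := Real.log_pos (by rw [lt_div_iff₀ (by norm_num)]; linarith)
  -- positivity of the mean for large U
  have hlim : ∀ᶠ U : ℕ in Filter.atTop, (A0 : ℝ) * Real.log U < U * δ := by
    have h1 : Filter.Tendsto (fun x : ℝ => Real.log x / x) Filter.atTop (nhds 0) := by
      have := Real.isLittleO_log_id_atTop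
      exact this.tendsto_div_nhds_zero
    have h2 := h1.comp tendsto_natCast_atTop_atTop (α := ℕ)
    have h3 := h2.eventually (gt_mem_nhds (show (0 : ℝ) < δ / (A0 + 1) by positivity))
    filter_upwards [h3, Filter.eventually_ge_atTop 1] with U hU hU1
    have hU0 : (0 : ℝ) < U := by exact_mod_cast hU1
    simp only [Function.comp] at hU
    rw [div_lt_div_iff₀ hU0 (by positivity)] at hU
    have h4 : 0 ≤ Real.log U := Real.log_nonneg (by exact_mod_cast hU1)
    nlinarith
  obtain ⟨U2, hU2⟩ := Filter.eventually_atTop.1 hlim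
  refine ⟨C0, (A0 + 1) * (N + 1) + 1, hC0, max U1 (max U2 3), le_trans hU1 (le_max_left _ _), fun U hU => ?_⟩
  have hUa : U1 ≤ U := le_trans (le_max_left _ _) hU
  have hUb : U2 ≤ U := le_trans (le_trans (le_max_left _ _) (le_max_right _ _)) hU
  have hUc : 3 ≤ U := le_trans (le_trans (le_max_right _ _) (le_max_right _ _)) hU
  have hU0 : (0 : ℝ) < U := by
    have : 0 < U := by omega
    exact_mod_cast this
  have hU3 : (3 : ℝ) ≤ U := by exact_mod_cast hUc
  set M := M0 C0 U with hM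
  have hM7 : 7 ≤ M := by
    rw [hM]
    unfold M0
    exact le_trans hC0 (Nat.le_mul_of_pos_right _ (Nat.succ_pos _))
  have hm := hmean U hUa
  have hA : 0 < H62y.AA (1 / 10) M U := by
    have := hU2 U hUb
    linarith
  obtain ⟨N0, hN0⟩ := H62y.worst_all hM7 (by omega) hA (1 / U) (by positivity)
  -- lower bound for FP
  set lam : ℝ := (A0 * Real.log U + 1) / U with hlam
  have hlow : ∀ n : ℕ, N0 ≤ n → ∀ y : ℕ, y % 3 ≠ 0 → Real.exp (-(lam * n)) ≤ FP M n y := by
    intro n hn y hy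
    have h1 := hN0 n hn y hy
    rw [W_eq_FP] at h1
    have h2 : ((2 : ℝ) ^ ((19 : ℝ) / 10) / 3) ^ n = Real.exp (δ * n) := by
      rw [mul_comm, Real.exp_nat_mul, hδ, Real.exp_log (by positivity)]
    rw [h2] at h1
    have h3 : Real.exp (-(lam * n)) * Real.exp (δ * n) ≤ Real.exp ((H62y.AA (1 / 10) M U / U - 1 / U) * n) := by
      rw [← Real.exp_add]
      apply Real.exp_le_exp.2
      have h4 : δ - lam ≤ H62y.AA (1 / 10) M U / U - 1 / U := by
        rw [hlam, ← sub_div, le_div_iff₀ hU0, sub_mul, div_mul_cancel₀ _ hU0.ne']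
        linarith
      have h5 : (δ - lam) * n ≤ (H62y.AA (1 / 10) M U / U - 1 / U) * n :=
        mul_le_mul_of_nonneg_right h4 (Nat.cast_nonneg n)
      linarith
    have h6 : Real.exp (-(lam * n)) * Real.exp (δ * n) ≤ FP M n y * Real.exp (δ * n) := by
      rw [mul_comm (FP M n y)]
      exact h3.trans h1
    exact le_of_mul_le_mul_right h6 (Real.exp_pos _)
  set T : ℕ := (N + 1) * U with hT
  set q : ℝ := 1 / (U : ℝ) ^ ((A0 + 1) * (N + 1) + 1) with hq
  have hq0 : 0 < q := by positivity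
  -- e per block
  have he : q < Real.exp (-(lam * T)) := by
    have h1 : lam * T = (N + 1) * (A0 * Real.log U + 1) := by
      rw [hlam, hT]
      push_cast
      field_simp
    have h2 : q = Real.exp (-(((A0 + 1) * (N + 1) + 1 : ℕ) * Real.log U)) := by
      rw [Real.exp_neg, Real.exp_nat_mul, Real.exp_log hU0, hq, one_div]
    rw [h1, h2]
    apply Real.exp_lt_exp.2
    have h3 : 1 < Real.log U := by
      rw [Real.lt_log_iff_exp_lt hU0]
      have := Real.exp_one_lt_d9
      linarith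
    push_cast
    have h4 : (0 : ℝ) ≤ N := Nat.cast_nonneg N
    nlinarith
  refine ⟨(N0 + 1) * T, fun x hx => ?_⟩
  by_contra hcon
  push Not at hcon
  have hT1 : 1 ≤ T := by
    rw [hT]
    exact Nat.mul_pos (by omega) (by omega)
  have hind : ∀ i : ℕ, i ≤ N0 + 1 → FP M (i * T) x ≤ q ^ i := by
    intro i
    induction i with
    | zero =>
      intro _
      rw [zero_mul, pow_zero]
      exact P_FP_zero M x
    | succ i ih =>
      intro hi
      have h1 := hcon (i * T) (Nat.mul_le_mul_right _ (by omega))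
      have h2 : (i + 1) * T = i * T + T := by ring
      rw [h2, pow_succ, mul_comm (q ^ i)]
      exact h1.le.trans (mul_le_mul_of_nonneg_left (ih (by omega)) hq0.le)
  have h1 := hind (N0 + 1) le_rfl
  have h2 := hlow ((N0 + 1) * T) (by nlinarith) x hx
  have h3 : Real.exp (-(lam * ((N0 + 1) * T : ℕ))) = Real.exp (-(lam * T)) ^ (N0 + 1) := by
    rw [← Real.exp_nat_mul]
    congr 1
    push_cast
    ring
  rw [h3] at h2
  have h4 : q ^ (N0 + 1) < Real.exp (-(lam * T)) ^ (N0 + 1) := pow_lt_pow_left₀ he hq0.le (by omega)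
  linarith

end H78P
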