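import Pool.Agent.Lib.H78P.SkA1
import Pool.Agent.Lib.H78P.SkI1
import Pool.Agent.Lib.H62w.Paths
import Pool.Agent.Lib.H62w.Mu

set_option autoImplicit false

/-! Chunk Q. Split a word of the critical class into its first t, the next N U and the last U letters. -/

open Finset
namespace H78P
open H62w

/-- Splitting a sum over words after `k` letters. -/
theorem Q_split (P A : Finset (List ℕ)) (B : List ℕ → Finset (List ℕ)) (k : ℕ)
    (hA : ∀ l ∈ P, l.take k ∈ A) (hB : ∀ l ∈ P, l.drop k ∈ B (l.take k)) :
    ∑ l ∈ P, ww l ≤ ∑ a ∈ A, ww a * ∑ b ∈ B a, ww b := by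
  rw [← sum_fiberwise_of_maps_to hA]
  refine sum_le_sum fun a _ => ?_
  have h1 : ∑ l ∈ P.filter (fun l => l.take k = a), ww l =
      ww a * ∑ l ∈ P.filter (fun l => l.take k = a), ww (l.drop k) := by
    rw [mul_sum]
    refine sum_congr rfl fun l hl => ?_
    rw [mem_filter] at hl
    rw [← hl.2, ← ww_append, List.take_append_drop]
  have hinj : Set.InjOn (fun l : List ℕ => l.drop k)
      (P.filter (fun l => l.take k = a) : Set (List ℕ)) := by
    intro l hl l' hl' h
    rw [coe_filter] at hl hl'
    have e1 := hl.2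
    have e2 := hl'.2
    have h' : l.drop k = l'.drop k := h
    rw [← List.take_append_drop k l, ← List.take_append_drop k l', e1, e2, h']
  rw [h1, ← sum_image (f := ww) hinj]
  refine mul_le_mul_of_nonneg_left ?_ (ww_pos a).le
  refine sum_le_sum_of_subset_of_nonneg ?_ fun l _ _ => (ww_pos l).le
  intro b hb
  rw [mem_image] at hb
  obtain ⟨l, hl, rfl⟩ := hb
  rw [mem_filter] at hl
  have := hB l hl.1
  rwa [hl.2] at this

theorem Q_JJ_take (l : List ℕ) {i t : ℕ} (h : i ≤ t) : H62y.JJ (l.take t) i = H62y.JJ l i := by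
  unfold H62y.JJ
  rw [List.take_take, min_eq_left h]

theorem Q_JJ_drop (l : List ℕ) (t i : ℕ) :
    H62y.JJ l t + H62y.JJ (l.drop t) i = H62y.JJ l (t + i) := by
  unfold H62y.JJ
  rw [List.take_add, List.sum_append]

/-- The tail: words with small letters are counted by the lookahead function. -/
theorem Q_tail {m M U z : ℕ} (hM : m ≤ M) :
    ∑ l ∈ (words m U).filter (fun l => va l z), ww l ≤ FF M U z := by
  rw [FF_eq]
  calc ∑ l ∈ (words m U).filter (fun l => va l z), ww l
      = ∑ l ∈ (words m U).filter (fun l => va l z), 3 ^ U * pw (M + 1) l := by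
        refine sum_congr rfl fun l hl => ?_
        rw [mem_filter] at hl
        exact ww_of_words (words_mono hM U hl.1)
    _ ≤ ∑ l ∈ (words (M + 1) U).filter (fun l => va l z), 3 ^ U * pw (M + 1) l := by
        refine sum_le_sum_of_subset_of_nonneg ?_ fun l _ _ => ?_
        · exact filter_subset_filter _ (words_mono (Nat.le_succ_of_le hM) U)
        · exact mul_nonneg (by positivity) (L_pw_nonneg _ _)

theorem start {N m M U t x : ℕ} (hN : 1 ≤ N) (hm : 1 ≤ m) (hM : m ≤ M) (hU : 10 * m ≤ N * U) (hU1 : 1 ≤ U) :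
    FP m (t + (N + 1) * U) x ≤ ∑ l0 ∈ H62y.PP m t x, ww l0 * sm (G0 m (N * U)) (FF M U) (en l0 x) := by
  classical
  unfold FP
  refine (Q_split (H62y.PP m (t + (N + 1) * U) x) (H62y.PP m t x)
    (fun a => (words m (N * U + U)).filter
      (fun l' => l'.take (N * U) ∈ G0 m (N * U) ∧ va l' (en a x))) t ?_ ?_).trans ?_
  · intro l hl
    rw [H62y.PP, mem_filter, mem_words] at hl
    obtain ⟨⟨h1, h2⟩, h3, h4, h5⟩ := hl
    have hlen : (l.take t).length = t := by
      rw [List.length_take, h1]; exact min_eq_left (by omega)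
    rw [H62y.PP, mem_filter, mem_words]
    have hsp : l.take t ++ l.drop t = l := List.take_append_drop t l
    have hv : va (l.take t) x ∧ va (l.drop t) (en (l.take t) x) := by
      rw [← va_append, hsp]; exact h3
    refine ⟨⟨hlen, fun a ha => h2 a (List.mem_of_mem_take ha)⟩, hv.1, ?_, ?_⟩
    · have hdl : (l.drop t).length = (N + 1) * U := by
        rw [List.length_drop, h1]; omega
      have hpos : 0 < (N + 1) * U := Nat.mul_pos (by omega) (by omega)
      rcases hd : l.drop t with _ | ⟨b, l'⟩
      · rw [hd] at hdl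
        simp only [List.length_nil] at hdl
        omega
      · rw [hd] at hv
        have h6 : 2 ^ b * en (l.take t) x % 3 = 1 := hv.2.1
        intro h0
        rw [Nat.mul_mod, h0] at h6
        simp at h6
    · intro j hj
      rw [mem_range, hlen] at hj
      have h6 := h5 j (mem_range.2 (by rw [h1]; omega))
      rw [Q_JJ_take l (by omega)]
      refine ⟨h6.1, fun i hi => ?_⟩
      have hi' := mem_range.1 hi
      rw [Q_JJ_take l (by omega)]
      exact h6.2 i hi
  · intro l hl
    rw [H62y.PP, mem_filter, mem_words] at hl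
    obtain ⟨⟨h1, h2⟩, h3, h4, h5⟩ := hl
    have hdl : (l.drop t).length = N * U + U := by
      rw [List.length_drop, h1, Nat.add_mul, Nat.one_mul]; omega
    have hsp : l.take t ++ l.drop t = l := List.take_append_drop t l
    have hv : va (l.take t) x ∧ va (l.drop t) (en (l.take t) x) := by
      rw [← va_append, hsp]; exact h3
    rw [mem_filter, mem_words]
    refine ⟨⟨hdl, fun a ha => h2 a (List.mem_of_mem_drop ha)⟩, ?_, hv.2⟩
    have hlen1 : ((l.drop t).take (N * U)).length = N * U := by
      rw [List.length_take, hdl]; exact min_eq_left (by omega)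
    have hpre : ∀ i ∈ range (((l.drop t).take (N * U)).length + 1),
        19 * i ≤ 10 * H62y.JJ ((l.drop t).take (N * U)) i + m := by
      intro i hi
      rw [mem_range, hlen1] at hi
      rw [Q_JJ_take _ (by omega)]
      have h6 := Q_JJ_drop l t i
      have hlt : t + i < l.length + 1 := by
        rw [h1, Nat.add_mul, Nat.one_mul]; omega
      have h7 := (h5 (t + i) (mem_range.2 hlt)).2 t (mem_range.2 (by omega))
      omega
    rw [G0, mem_filter, mem_words]
    refine ⟨⟨hlen1, fun a ha => h2 a (List.mem_of_mem_drop (List.mem_of_mem_take ha))⟩,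
      cc_of_prefix hpre, ?_⟩
    have h8 := hpre (N * U) (mem_range.2 (by rw [hlen1]; omega))
    rw [H62y.JJ_all (by rw [hlen1])] at h8
    omega
  · refine sum_le_sum fun l0 _ => mul_le_mul_of_nonneg_left ?_ (ww_pos l0).le
    refine (Q_split _ ((G0 m (N * U)).filter (fun l => va l (en l0 x)))
      (fun a => (words m U).filter (fun l => va l (en a (en l0 x)))) (N * U) ?_ ?_).trans ?_
    · intro l hl
      rw [mem_filter] at hl
      rw [mem_filter]
      refine ⟨hl.2.1, ?_⟩
      have h3 := hl.2.2
      rw [← List.take_append_drop (N * U) l, va_append] at h3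
      exact h3.1
    · intro l hl
      rw [mem_filter, mem_words] at hl
      obtain ⟨⟨h1, h2⟩, h3, h4⟩ := hl
      rw [← List.take_append_drop (N * U) l, va_append] at h4
      rw [mem_filter, mem_words]
      refine ⟨⟨?_, fun a ha => h2 a (List.mem_of_mem_drop ha)⟩, h4.2⟩
      rw [List.length_drop, h1]; omega
    · unfold sm
      exact sum_le_sum fun l1 _ => mul_le_mul_of_nonneg_left (Q_tail hM) (ww_pos l1).le

end H78P
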