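import Pool.Agent.Lib.H78P.SkS
import Pool.Agent.Lib.H78P.SkB
import Pool.Agent.Lib.H78P.SkI2

set_option autoImplicit false

/-!
Chunk R: assembly of the propagation into the interface `H62y.Stage`.
-/

open Finset
namespace H78P
open H62w

/-- The concatenations. -/
def R_G (A Q : Finset (List ℕ)) (y : ℕ) : Finset (List ℕ) :=
  (A.sigma (fun l0 => Q.filter (fun l => va l (en l0 y)))).image
    (fun x : (_ : List ℕ) × List ℕ => x.1 ++ x.2)

theorem R_mem {A Q : Finset (List ℕ)} {y : ℕ} {w : List ℕ} :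
    w ∈ R_G A Q y ↔ ∃ l0 ∈ A, ∃ l ∈ Q, va l (en l0 y) ∧ l0 ++ l = w := by
  unfold R_G
  rw [mem_image]
  constructor
  · rintro ⟨⟨l0, l⟩, hx, rfl⟩
    rw [mem_sigma] at hx
    obtain ⟨h1, h2⟩ := hx
    rw [mem_filter] at h2
    exact ⟨l0, h1, l, h2.1, h2.2, rfl⟩
  · rintro ⟨l0, h1, l, h2, h3, rfl⟩
    exact ⟨⟨l0, l⟩, mem_sigma.2 ⟨h1, mem_filter.2 ⟨h2, h3⟩⟩, rfl⟩

theorem R_om (l : List ℕ) : H62y.om l = ww l := rfl

theorem R_ww_append (l l' : List ℕ) : ww (l ++ l') = ww l * ww l' := by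
  unfold ww
  rw [List.length_append, List.sum_append, pow_add, pow_add, mul_div_mul_comm]

theorem R_sum {A Q : Finset (List ℕ)} {t y : ℕ} (hA : ∀ l ∈ A, l.length = t) (f : ℕ → ℝ) :
    ∑ w ∈ R_G A Q y, H62y.om w * f (en w y) = ∑ l0 ∈ A, ww l0 * sm Q f (en l0 y) := by
  unfold R_G
  rw [Finset.sum_image]
  · rw [Finset.sum_sigma]
    refine Finset.sum_congr rfl fun l0 _ => ?_
    unfold sm
    rw [Finset.mul_sum]
    refine Finset.sum_congr rfl fun l _ => ?_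
    show H62y.om (l0 ++ l) * f (en (l0 ++ l) y) = _
    rw [R_om, R_ww_append, H62w.en_append, mul_assoc]
  · rintro ⟨a, b⟩ h1 ⟨c, d⟩ h2 h
    have h1' := (mem_sigma.1 (mem_coe.1 h1)).1
    have h2' := (mem_sigma.1 (mem_coe.1 h2)).1
    have e := List.append_inj (h : a ++ b = c ++ d) ((hA a h1').trans (hA c h2').symm)
    obtain ⟨rfl, rfl⟩ := e
    rfl

theorem R_pow {L r s : ℕ} (h1 : 189 * L ≤ 100 * s) (h2 : 20 * r ≤ 3 * L) : 3 ^ (L + r) ≤ 2 ^ s := by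
  have h5 : (3 ^ (L + r)) ^ 5 ≤ (2 ^ s) ^ 5 := by
    calc (3 ^ (L + r)) ^ 5 = (3 ^ 5) ^ (L + r) := by rw [← pow_mul, ← pow_mul, mul_comm]
      _ ≤ (2 ^ 8) ^ (L + r) := Nat.pow_le_pow_left (by norm_num) _
      _ = 2 ^ (8 * (L + r)) := by rw [← pow_mul]
      _ ≤ 2 ^ (s * 5) := Nat.pow_le_pow_right (by norm_num) (by omega)
      _ = (2 ^ s) ^ 5 := by rw [pow_mul]
  exact le_of_pow_le_pow_left₀ (by norm_num) (by positivity) h5

theorem R_mn (r z : ℕ) :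
    mn r (fun w => if w % 3 ^ r = z % 3 ^ r then (1 : ℝ) else 0) = 1 / 3 ^ r := by
  unfold mn
  congr 1
  have hz : z % 3 ^ r ∈ range (3 ^ r) := mem_range.2 (Nat.mod_lt _ (by positivity))
  rw [Finset.sum_eq_single_of_mem _ hz]
  · rw [Nat.mod_mod, if_pos rfl]
  · intro b hb hne
    rw [Nat.mod_eq_of_lt (mem_range.1 hb), if_neg hne]

theorem R_ww_le {m t : ℕ} {l : List ℕ} (hl : l ∈ words m t) : ww l ≤ 3 ^ t := by
  unfold ww
  rw [(mem_words.1 hl).1]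
  exact div_le_self (by positivity) (one_le_pow₀ (by norm_num))

theorem R_card_words (M k : ℕ) : (words M k).card ≤ M ^ k := by
  induction k with
  | zero => simp [words]
  | succ k ih =>
    refine (card_image_le).trans ?_
    rw [card_product, Nat.card_Icc, pow_succ, mul_comm]
    simpa using Nat.mul_le_mul_right M ih

theorem R_cc_le (l : List ℕ) (hpos : ∀ a ∈ l, 1 ≤ a) : cc l ≤ 3 ^ l.length * 2 ^ l.sum :=
  (Nat.le_mul_of_pos_left _ (by positivity)).trans (cc_triv hpos)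

theorem R_mass {m t N1 y : ℕ} (hm : 1 ≤ m) (ht : t ≤ N1) :
    ∑ l0 ∈ H62y.PP m t y, ww l0 ≤ (3 * m : ℝ) ^ N1 := by
  have hm' : (1 : ℝ) ≤ m := by exact_mod_cast hm
  have h1 : ∑ l0 ∈ H62y.PP m t y, ww l0 ≤ ∑ _l0 ∈ H62y.PP m t y, (3 : ℝ) ^ t := by
    refine Finset.sum_le_sum fun l0 h0 => R_ww_le (m := m) ?_
    unfold H62y.PP at h0
    exact (mem_filter.1 h0).1
  rw [Finset.sum_const, nsmul_eq_mul] at h1
  have h2 : ((H62y.PP m t y).card : ℝ) ≤ (m : ℝ) ^ t := by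
    have : (H62y.PP m t y).card ≤ m ^ t := (card_filter_le _ _).trans (R_card_words m t)
    exact_mod_cast this
  calc ∑ l0 ∈ H62y.PP m t y, ww l0 ≤ (H62y.PP m t y).card * (3 : ℝ) ^ t := h1
    _ ≤ (m : ℝ) ^ t * 3 ^ t := mul_le_mul_of_nonneg_right h2 (by positivity)
    _ = (3 * m : ℝ) ^ t := by rw [mul_pow, mul_comm]
    _ ≤ (3 * m : ℝ) ^ N1 := pow_le_pow_right₀ (by linarith) ht

theorem R_sum_le {M : ℕ} {l : List ℕ} (h : ∀ a ∈ l, a ≤ M) : l.sum ≤ M * l.length := by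
  induction l with
  | nil => simp
  | cons a l ih =>
    have h1 := ih fun b hb => h b (List.mem_cons_of_mem _ hb)
    have h2 := h a List.mem_cons_self
    rw [List.sum_cons, List.length_cons, Nat.mul_succ]
    omega

theorem stages {N : ℕ} (hN : 100 ≤ N) : ∃ (L0 T0 : ℕ) (C B D κ : ℝ), N ≤ L0 ∧ 0 ≤ C ∧ 0 ≤ B ∧ 0 ≤ D ∧ 0 < κ ∧
    ∀ y : ℕ, y % 3 ≠ 0 → ∀ j M : ℕ, 2 * Ls N L0 j ≤ M → ∃ t ≤ T0, ∃ G : Finset (List ℕ),
      H62y.Stage N M t (Ls N L0 j) y C B D κ G := by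
  obtain ⟨m, L0, N1, κ, hm7, hmL, hNL, hκ, hbase⟩ := base_mass hN
  refine ⟨L0, N1, ((m : ℝ) + 2) * L0 + m * N1, 3 ^ N1 * (2 ^ (m + 1) + 2),
    (3 * m : ℝ) ^ N1 * ((m + 4) * (2 ^ (m + 1) + 3)), κ, hNL, by positivity, by positivity, by positivity, hκ, ?_⟩
  intro y hy j M hM
  obtain ⟨t, ht, hb⟩ := hbase y hy
  have hLge : L0 ≤ Ls N L0 j := Ls_ge N L0 j
  obtain ⟨M1, rfl⟩ : ∃ M1, M = M1 + 1 := ⟨M - 1, by omega⟩
  have hM1 : Ls N L0 j ≤ M1 := by omega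
  have hmM : m ≤ M1 := by omega
  have hb' := hb M1 j hM1
  set L := Ls N L0 j with hL
  have hA : ∀ l ∈ H62y.PP m t y, l ∈ words m t ∧ va l y := by
    intro l hl
    unfold H62y.PP at hl
    exact ⟨(mem_filter.1 hl).1, (mem_filter.1 hl).2.1⟩
  have hAlen : ∀ l ∈ H62y.PP m t y, l.length = t := fun l hl => (mem_words.1 (hA l hl).1).1
  have hQ := fun l (hl : l ∈ Qs N M1 m L0 j) => Qs_prop hN hmM hNL j hl
  refine ⟨t, ht, R_G (H62y.PP m t y) (Qs N M1 m L0 j) y, ?_, ?_, ?_, ?_, ?_, ?_, ?_⟩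
  · intro w hw
    obtain ⟨l0, h0, l, hl, hv, rfl⟩ := R_mem.1 hw
    rw [List.length_append, hAlen l0 h0, (mem_words.1 (hQ l hl).1).1]
  · intro w hw a ha
    obtain ⟨l0, h0, l, hl, hv, rfl⟩ := R_mem.1 hw
    rcases List.mem_append.1 ha with ha | ha
    · have := (mem_words.1 (hA l0 h0).1).2 a ha
      omega
    · have := (mem_words.1 (hQ l hl).1).2 a ha
      omega
  · intro w hw
    obtain ⟨l0, h0, l, hl, hv, rfl⟩ := R_mem.1 hw
    exact (H62w.va_append l0 l y).2 ⟨(hA l0 h0).2, hv⟩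
  · intro w hw
    obtain ⟨l0, h0, l, hl, hv, rfl⟩ := R_mem.1 hw
    have h1 := (hQ l hl).2.2.2.2
    rw [← hL] at h1
    have h2 : l0.sum ≤ m * N1 := by
      have h3 := R_sum_le (fun a ha => ((mem_words.1 (hA l0 h0).1).2 a ha).2)
      rw [hAlen l0 h0] at h3
      exact h3.trans (Nat.mul_le_mul_left m ht)
    have h2' : (l0.sum : ℝ) ≤ m * N1 := by exact_mod_cast h2
    have h0' : (0 : ℝ) ≤ l0.sum := Nat.cast_nonneg _
    rw [List.sum_append, Nat.cast_add]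
    rw [abs_le] at h1 ⊢
    constructor <;> nlinarith [h1.1, h1.2]
  · intro w hw
    obtain ⟨l0, h0, l, hl, hv, rfl⟩ := R_mem.1 hw
    have h1 := (hQ l hl).2.1
    have h2 := R_cc_le l0 (fun a ha => ((mem_words.1 (hA l0 h0).1).2 a ha).1)
    have h3 : cc (l0 ++ l) ≤ 3 ^ N1 * (2 ^ (m + 1) + 2) * 2 ^ (l0 ++ l).sum := by
      rw [H62w.cc_append, List.sum_append, pow_add]
      rw [hAlen l0 h0] at h2 ⊢
      have ht3 : 3 ^ t ≤ 3 ^ N1 := Nat.pow_le_pow_right (by norm_num) ht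
      have h4 : 2 ^ l.sum * cc l0 ≤ 3 ^ N1 * 2 ^ l0.sum * 2 ^ l.sum := by
        calc 2 ^ l.sum * cc l0 ≤ 2 ^ l.sum * (3 ^ t * 2 ^ l0.sum) := Nat.mul_le_mul_left _ h2
          _ ≤ 2 ^ l.sum * (3 ^ N1 * 2 ^ l0.sum) := Nat.mul_le_mul_left _ (Nat.mul_le_mul_right _ ht3)
          _ = _ := by ring
      have h5 : 3 ^ t * cc l ≤ 3 ^ N1 * ((2 ^ (m + 1) + 1) * 2 ^ l.sum) * 2 ^ l0.sum := by
        calc 3 ^ t * cc l ≤ 3 ^ N1 * ((2 ^ (m + 1) + 1) * 2 ^ l.sum) := Nat.mul_le_mul ht3 h1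
          _ ≤ _ := Nat.le_mul_of_pos_right _ (by positivity)
      calc 2 ^ l.sum * cc l0 + 3 ^ t * cc l ≤ _ := Nat.add_le_add h4 h5
        _ = _ := by ring
    exact_mod_cast h3
  · intro r z hr
    have hdens : ∀ l0 ∈ H62y.PP m t y, sm (Qs N M1 m L0 j)
        (fun w => if w % 3 ^ r = z % 3 ^ r then (1 : ℝ) else 0) (en l0 y) ≤
          (((m + 3) * L : ℕ) + 1 : ℝ) * (((2 ^ (m + 1) + 1 : ℕ) : ℝ) + 2) * (1 / 3 ^ r) := by
      intro l0 _
      have h := dens (G := Qs N M1 m L0 j) (L := L) (q := r) (B := 2 ^ (m + 1) + 1) (V := (m + 3) * L)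
        (fun l hl => (mem_words.1 (hQ l hl).1).1)
        (fun l hl a ha => ((mem_words.1 (hQ l hl).1).2 a ha).1)
        (fun l hl => (hQ l hl).2.2.2.1)
        (fun l hl => (hQ l hl).2.1)
        (fun l hl => R_pow (hQ l hl).2.2.1 hr) (en l0 y)
        (h := fun w => if w % 3 ^ r = z % 3 ^ r then (1 : ℝ) else 0)
        (fun w => by split_ifs <;> norm_num)
        (fun w => by simp only [Nat.mod_mod])
      rw [R_mn] at h
      exact h
    have hsum : ∑ w ∈ (R_G (H62y.PP m t y) (Qs N M1 m L0 j) y).filter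
        (fun l => en l y % 3 ^ r = z % 3 ^ r), H62y.om w =
        ∑ l0 ∈ H62y.PP m t y, ww l0 * sm (Qs N M1 m L0 j)
          (fun w => if w % 3 ^ r = z % 3 ^ r then (1 : ℝ) else 0) (en l0 y) := by
      rw [← R_sum hAlen, Finset.sum_filter]
      refine Finset.sum_congr rfl fun w _ => ?_
      split_ifs <;> simp
    rw [hsum]
    have hL1 : (1 : ℝ) ≤ L := by
      have : 1 ≤ L := by omega
      exact_mod_cast this
    calc ∑ l0 ∈ H62y.PP m t y, ww l0 * sm (Qs N M1 m L0 j)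
          (fun w => if w % 3 ^ r = z % 3 ^ r then (1 : ℝ) else 0) (en l0 y)
        ≤ ∑ l0 ∈ H62y.PP m t y, ww l0 *
          ((((m + 3) * L : ℕ) + 1 : ℝ) * (((2 ^ (m + 1) + 1 : ℕ) : ℝ) + 2) * (1 / 3 ^ r)) := by
          refine Finset.sum_le_sum fun l0 h0 => mul_le_mul_of_nonneg_left (hdens l0 h0) ?_
          unfold ww
          positivity
      _ = (∑ l0 ∈ H62y.PP m t y, ww l0) *
          ((((m + 3) * L : ℕ) + 1 : ℝ) * (((2 ^ (m + 1) + 1 : ℕ) : ℝ) + 2) * (1 / 3 ^ r)) := by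
          rw [Finset.sum_mul]
      _ ≤ (3 * m : ℝ) ^ N1 *
          ((((m + 3) * L : ℕ) + 1 : ℝ) * (((2 ^ (m + 1) + 1 : ℕ) : ℝ) + 2) * (1 / 3 ^ r)) :=
          mul_le_mul_of_nonneg_right (R_mass (by omega) ht) (by positivity)
      _ ≤ (3 * m : ℝ) ^ N1 * (((m + 4) * (L : ℝ) ^ 3) * (2 ^ (m + 1) + 3) * (1 / 3 ^ r)) := by
          refine mul_le_mul_of_nonneg_left ?_ (by positivity)
          refine mul_le_mul_of_nonneg_right ?_ (by positivity)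
          have e1 : (((2 ^ (m + 1) + 1 : ℕ) : ℝ) + 2) = 2 ^ (m + 1) + 3 := by push_cast; ring
          rw [e1]
          refine mul_le_mul_of_nonneg_right ?_ (by positivity)
          push_cast
          have hL3 : (L : ℝ) ≤ (L : ℝ) ^ 3 := le_self_pow₀ hL1 (by norm_num)
          have hm0 : (0 : ℝ) ≤ m := Nat.cast_nonneg m
          nlinarith
      _ = (3 * m : ℝ) ^ N1 * ((m + 4) * (2 ^ (m + 1) + 3)) * (L : ℝ) ^ 3 / 3 ^ r := by ring
  · have h := R_sum (A := H62y.PP m t y) (Q := Qs N M1 m L0 j) (y := y) hAlen (FF M1 (L / N))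
    rw [← h] at hb'
    exact hb'

end H78P
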