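import Pool.Agent.Lib.H78P.SkP
import Pool.Agent.Lib.H78P.SkQ
import Pool.Agent.Lib.H78P.SkF2
import Pool.Agent.Lib.H78P.SkI2

set_option autoImplicit false

/-! Chunk S: choice of the constants. -/

open Finset
namespace H78P
open H62w

theorem S_sq_le : ∀ k : ℕ, (k + 1) ^ 2 ≤ 4 * 2 ^ k
  | 0 => by norm_num
  | 1 => by norm_num
  | 2 => by norm_num
  | k + 3 => by
    have h := S_sq_le (k + 2)
    have e : 2 ^ (k + 3) = 2 * 2 ^ (k + 2) := by ring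
    rw [e]
    have h2 : (k + 3 + 1) ^ 2 ≤ 2 * (k + 2 + 1) ^ 2 := by nlinarith [Nat.zero_le k]
    omega

theorem S_m_le {C0 U : ℕ} (hU : 2 ^ C0 ≤ U) : C0 * (Nat.log 2 U + 1) ≤ 4 * U := by
  have hU0 : U ≠ 0 := by
    have : 0 < 2 ^ C0 := by positivity
    omega
  have h1 : C0 ≤ Nat.log 2 U := (Nat.le_log_iff_pow_le (by norm_num) hU0).2 hU
  have h2 : 2 ^ Nat.log 2 U ≤ U := Nat.pow_log_le_self 2 hU0
  have h3 := S_sq_le (Nat.log 2 U)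
  have h4 : C0 * (Nat.log 2 U + 1) ≤ (Nat.log 2 U + 1) ^ 2 := by
    rw [pow_two]
    exact Nat.mul_le_mul_right _ (by omega)
  omega

/-- the error term -/
theorem S_err {C0 A0 U N : ℕ} {K : ℝ} (hK : 0 < K) (hN : 1 ≤ N) (hU1 : 1 ≤ U)
    (hU : 10 * K * (C0 + 4) * 2 ^ C0 ≤ U) :
    K * (((M0 C0 U + 3 : ℕ) : ℝ) + 1) * (((2 ^ (M0 C0 U + 1) + 1 : ℕ) : ℝ) + 2) / ((N * U : ℕ) : ℝ) ^ (C0 + A0 + 2) ≤
      1 / 2 * (1 / (U : ℝ) ^ A0) := by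
  have hU0 : U ≠ 0 := by omega
  have hUr : (1 : ℝ) ≤ U := by exact_mod_cast hU1
  have hNr : (1 : ℝ) ≤ N := by exact_mod_cast hN
  set m := M0 C0 U with hm
  have h1 : Nat.log 2 U + 1 ≤ U := Nat.log_lt_self 2 hU0
  have h2 : m ≤ C0 * U := Nat.mul_le_mul_left _ h1
  have h3 : ((m + 3 : ℕ) : ℝ) + 1 ≤ (C0 + 4) * U := by
    have : (m : ℝ) ≤ C0 * U := by exact_mod_cast h2
    push_cast
    nlinarith
  have h4 : 2 ^ m ≤ (2 * U) ^ C0 := by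
    have h5 : 2 ^ Nat.log 2 U ≤ U := Nat.pow_log_le_self 2 hU0
    have h6 : 2 ^ m = (2 ^ (Nat.log 2 U + 1)) ^ C0 := by
      rw [hm]
      unfold M0
      rw [← pow_mul, mul_comm]
    rw [h6]
    apply Nat.pow_le_pow_left
    rw [pow_succ]
    omega
  have h7 : ((2 ^ (m + 1) + 1 : ℕ) : ℝ) + 2 ≤ 5 * 2 ^ C0 * (U : ℝ) ^ C0 := by
    have h8 : ((2 ^ m : ℕ) : ℝ) ≤ (((2 * U) ^ C0 : ℕ) : ℝ) := by exact_mod_cast h4
    have h9 : (1 : ℝ) ≤ (2 : ℝ) ^ m := one_le_pow₀ (by norm_num)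
    push_cast at h8 ⊢
    rw [mul_pow] at h8
    rw [pow_succ]
    linarith
  have h10 : (U : ℝ) ^ (C0 + A0 + 2) ≤ ((N * U : ℕ) : ℝ) ^ (C0 + A0 + 2) := by
    apply pow_le_pow_left₀ (by linarith)
    push_cast
    nlinarith
  have hnum : K * (((m + 3 : ℕ) : ℝ) + 1) * (((2 ^ (m + 1) + 1 : ℕ) : ℝ) + 2) ≤
      K * ((C0 + 4) * U) * (5 * 2 ^ C0 * (U : ℝ) ^ C0) := by
    apply mul_le_mul _ h7 (by positivity) (by positivity)
    exact mul_le_mul_of_nonneg_left h3 hK.le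
  calc K * (((m + 3 : ℕ) : ℝ) + 1) * (((2 ^ (m + 1) + 1 : ℕ) : ℝ) + 2) / ((N * U : ℕ) : ℝ) ^ (C0 + A0 + 2)
      ≤ K * ((C0 + 4) * U) * (5 * 2 ^ C0 * (U : ℝ) ^ C0) / (U : ℝ) ^ (C0 + A0 + 2) := by
        apply div_le_div₀ (by positivity) hnum (by positivity) h10
    _ = (10 * K * (C0 + 4) * 2 ^ C0) / U * (1 / 2 * (1 / (U : ℝ) ^ A0)) := by
        have : (U : ℝ) ≠ 0 := by positivity
        rw [pow_add, pow_add]
        field_simp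
        ring
    _ ≤ 1 * (1 / 2 * (1 / (U : ℝ) ^ A0)) := by
        apply mul_le_mul_of_nonneg_right _ (by positivity)
        rw [div_le_one (by linarith)]
        exact hU
    _ = _ := one_mul _

theorem base_mass {N : ℕ} (hN : 100 ≤ N) : ∃ (m L0 N1 : ℕ) (κ : ℝ), 7 ≤ m ∧ m ≤ L0 ∧ N ≤ L0 ∧ 0 < κ ∧ ∀ x : ℕ, x % 3 ≠ 0 → ∃ t ≤ N1,
    ∀ M j : ℕ, Ls N L0 j ≤ M →
      κ ≤ ∑ l0 ∈ H62y.PP m t x, ww l0 * sm (Qs N M m L0 j) (FF M (Ls N L0 j / N)) (en l0 x) := by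
  obtain ⟨C0, A0, hC0, U0, hU0, hpig⟩ := pigeon N
  obtain ⟨K, hK, hmulti⟩ := multi hN (C0 + A0 + 2)
  obtain ⟨U1, hU1⟩ := exists_nat_ge (10 * K * (C0 + 4) * 2 ^ C0)
  set U := U0 + U1 + 2 ^ C0 with hUdef
  have h2C : 0 < 2 ^ C0 := by positivity
  have hUpos : 1 ≤ U := by omega
  have hU2 : 2 ^ C0 ≤ U := by omega
  have hUK : 10 * K * (C0 + 4) * 2 ^ C0 ≤ U := by
    refine le_trans hU1 ?_
    exact_mod_cast (by omega : U1 ≤ U)
  obtain ⟨N1, hN1⟩ := hpig U (by omega)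
  set m := M0 C0 U with hm
  have hmU : m ≤ 4 * U := S_m_le hU2
  have hm7 : 7 ≤ m := by
    rw [hm]
    unfold M0
    calc 7 ≤ C0 * 1 := by omega
      _ ≤ C0 * (Nat.log 2 U + 1) := Nat.mul_le_mul_left _ (by omega)
  have hNU : 100 * U ≤ N * U := Nat.mul_le_mul_right _ hN
  have hUr : (1 : ℝ) ≤ U := by exact_mod_cast hUpos
  refine ⟨m, N * U, N1, 1 / 2 * (1 / (U : ℝ) ^ A0) * (3 / 128) ^ N1, hm7, by omega, ?_, by positivity, ?_⟩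
  · exact Nat.le_mul_of_pos_right N (by omega)
  intro x hx
  obtain ⟨t, ht, hpg⟩ := hN1 x hx
  refine ⟨t, ht, fun M j hj => ?_⟩
  have hLM : N * U ≤ M := le_trans (Ls_ge N (N * U) j) hj
  set E : ℝ := K * (((M0 C0 U + 3 : ℕ) : ℝ) + 1) * (((2 ^ (M0 C0 U + 1) + 1 : ℕ) : ℝ) + 2) /
    ((N * U : ℕ) : ℝ) ^ (C0 + A0 + 2) with hE
  have hEle : E ≤ 1 / 2 * (1 / (U : ℝ) ^ A0) := S_err hK (by omega) hUpos hUK
  have hdiv : N * U / N = U := Nat.mul_div_cancel_left U (by omega)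
  -- one root
  have hroot : ∀ y : ℕ, sm (G0 m (N * U)) (FF M U) y - E ≤
      sm (Qs N M m (N * U) j) (FF M (Ls N (N * U) j / N)) y := by
    intro y
    have h := hmulti M (N * U) (2 ^ (m + 1) + 1) (m + 3) y (Qs N M m (N * U))
      (Nat.le_mul_of_pos_right N (by omega))
      (fun i _ l hl => by
        obtain ⟨h1, h2, h3, h4, -⟩ := Qs_prop hN (by omega) (Nat.le_mul_of_pos_right N (by omega)) i hl
        exact ⟨h1, h2, by omega, h4⟩)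
      (fun i l hl l' hl' => Qs_append hl hl') j hj
    rw [hdiv] at h
    exact h
  -- sum over the roots
  have hstart := start (N := N) (m := m) (M := M) (U := U) (t := t) (x := x) (by omega) (by omega) (by omega)
    (by omega) hUpos
  have hFP : FP m t x = ∑ l ∈ H62y.PP m t x, ww l := rfl
  have hsum : ∑ l0 ∈ H62y.PP m t x, ww l0 * (sm (G0 m (N * U)) (FF M U) (en l0 x) - E) ≤
      ∑ l0 ∈ H62y.PP m t x, ww l0 * sm (Qs N M m (N * U) j) (FF M (Ls N (N * U) j / N)) (en l0 x) :=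
    sum_le_sum (fun l0 _ => mul_le_mul_of_nonneg_left (hroot _) (ww_pos l0).le)
  refine le_trans ?_ hsum
  have hexp : ∑ l0 ∈ H62y.PP m t x, ww l0 * (sm (G0 m (N * U)) (FF M U) (en l0 x) - E) =
      ∑ l0 ∈ H62y.PP m t x, ww l0 * sm (G0 m (N * U)) (FF M U) (en l0 x) - E * FP m t x := by
    rw [hFP, mul_sum, ← sum_sub_distrib]
    apply sum_congr rfl
    intro l _
    ring
  rw [hexp]
  have hFPl : (3 / 128 : ℝ) ^ N1 ≤ FP m t x :=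
    le_trans (pow_le_pow_of_le_one (by norm_num) (by norm_num) ht) (FP_lower hm7 t x hx)
  have hFP0 : 0 ≤ FP m t x := le_trans (by positivity) hFPl
  have h1 : 1 / (U : ℝ) ^ A0 * FP m t x ≤
      ∑ l0 ∈ H62y.PP m t x, ww l0 * sm (G0 m (N * U)) (FF M U) (en l0 x) := le_trans hpg hstart
  have h2 : E * FP m t x ≤ 1 / 2 * (1 / (U : ℝ) ^ A0) * FP m t x := mul_le_mul_of_nonneg_right hEle hFP0
  have h3 : 1 / 2 * (1 / (U : ℝ) ^ A0) * (3 / 128) ^ N1 ≤ 1 / 2 * (1 / (U : ℝ) ^ A0) * FP m t x :=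
    mul_le_mul_of_nonneg_left hFPl (by positivity)
  have h4 : 1 / (U : ℝ) ^ A0 * FP m t x = 1 / 2 * (1 / (U : ℝ) ^ A0) * FP m t x + 1 / 2 * (1 / (U : ℝ) ^ A0) * FP m t x := by
    ring
  linarith

end H78P
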